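import Pool.Agent.Helper57.AN.PermHer

/-!
# Project AN, block G: subgroups of index prime to `p` of the symmetric groups, main theorem
-/

set_option autoImplicit false

open Equiv MulAction
open scoped Pointwise

namespace Pool.Agent.Helper57.AN

variable {p : ℕ}

/-- a transitive imprimitive group preserves the fibres of a product decomposition -/
theorem exists_blocks {α : Type} [Finite α] (H : Subgroup (Perm α)) (ht : IsPretransitive H α)
    (hn : ¬ IsPreprimitive H α) : ∃ (β γ : Type) (_ : Finite β) (_ : Finite γ) (_ : Nonempty γ)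
      (e : α ≃ β × γ), Nat.card β < Nat.card α ∧ Nat.card γ < Nat.card α ∧
        ∀ g ∈ H, ∀ x y, (e x).1 = (e y).1 → (e (g x)).1 = (e (g y)).1 := by
  classical
  have h1 : ∃ B : Set α, IsBlock H B ∧ ¬ IsTrivialBlock B := by
    by_contra hc
    push Not at hc
    exact hn { isTrivialBlock_of_isBlock := fun {B} hB => hc B hB }
  obtain ⟨B, hB, hBt⟩ := h1
  unfold IsTrivialBlock at hBt
  push Not at hBt
  obtain ⟨hB1, hB2⟩ := hBt
  have hBn : B.Nonempty := hB1.nonempty
  have hsys := hB.isBlockSystem hBn
  let β : Type := Set.range fun g : H => g • B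
  have hβ : Finite β := inferInstance
  have : Nonempty B := hBn.to_subtype
  choose r hr using fun b : β => b.2
  -- the bijection
  let f : β × B → α := fun x => r x.1 • (x.2 : α)
  have hfm : ∀ x : β × B, f x ∈ (x.1 : Set α) := by
    intro x
    have h2 : f x ∈ r x.1 • B := Set.smul_mem_smul_set x.2.2
    have h3 : r x.1 • B = (x.1 : Set α) := hr x.1
    rwa [h3] at h2
  have huniq : ∀ (b b' : β) (x : α), x ∈ (b : Set α) → x ∈ (b' : Set α) → b = b' := by
    intro b b' x hx hx'
    apply Subtype.ext
    obtain ⟨g, hg⟩ := b.2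
    obtain ⟨g', hg'⟩ := b'.2
    rw [← hg, ← hg']
    by_contra hne
    have h2 := hB hne
    rw [← hg] at hx
    rw [← hg'] at hx'
    exact Set.disjoint_left.1 h2 hx hx'
  have hf : Function.Bijective f := by
    constructor
    · intro x y hxy
      have h2 : x.1 = y.1 := huniq x.1 y.1 (f x) (hfm x) (by rw [hxy]; exact hfm y)
      have h3 : r x.1 • (x.2 : α) = r y.1 • (y.2 : α) := hxy
      rw [h2] at h3
      exact Prod.ext h2 (Subtype.ext (MulAction.injective _ h3))
    · intro y
      obtain ⟨b, ⟨hb, hyb⟩, -⟩ := hsys.1.2 y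
      have h2 : r ⟨b, hb⟩ • B = b := hr ⟨b, hb⟩
      rw [← h2] at hyb
      obtain ⟨z, hz, hz'⟩ := hyb
      exact ⟨(⟨b, hb⟩, ⟨z, hz⟩), hz'⟩
  let e : α ≃ β × B := (Equiv.ofBijective f hf).symm
  have he : ∀ x, x ∈ ((e x).1 : Set α) := by
    intro x
    have h2 := hfm (e x)
    have h3 : f (e x) = x := (Equiv.ofBijective f hf).apply_symm_apply x
    rwa [h3] at h2
  have hcard : Nat.card α = Nat.card β * Nat.card B := by
    rw [Nat.card_congr e, Nat.card_prod]
  have hBc : 1 < Nat.card B := by
    rw [Finite.one_lt_card_iff_nontrivial]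
    exact hB1.coe_sort
  have hβ0 : 0 < Nat.card β := by
    rw [Nat.card_pos_iff]
    obtain ⟨x⟩ := this
    exact ⟨⟨(e x).1⟩, inferInstance⟩
  refine ⟨β, B, hβ, inferInstance, inferInstance, e, ?_, ?_, ?_⟩
  · rw [hcard]
    nlinarith
  · have h2 : B.ncard < (Set.univ : Set α).ncard :=
      Set.ncard_lt_ncard (Set.ssubset_univ_iff.2 hB2)
    rw [Set.ncard_univ] at h2
    exact h2
  · intro g hg x y hxy
    -- the block of `g x` is the translate of the block of `x`
    have key : ∀ z, (((e (g z)).1 : β) : Set α) = (⟨g, hg⟩ : H) • (((e z).1 : β) : Set α) := by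
      intro z
      obtain ⟨k, hk⟩ := ((e z).1 : β).2
      have h2 : (⟨g, hg⟩ : H) • (((e z).1 : β) : Set α) ∈ Set.range fun g : H => g • B := by
        refine ⟨⟨g, hg⟩ * k, ?_⟩
        rw [← hk]
        exact mul_smul _ _ _
      have h3 := huniq (e (g z)).1 ⟨_, h2⟩ (g z) (he (g z)) (Set.smul_mem_smul_set (he z))
      exact congrArg Subtype.val h3
    apply Subtype.ext
    rw [key x, key y, hxy]

/-- `p`-elements of the symmetric group are conjugate to elements of subgroups of index prime
to `p` -/
theorem exists_conj_mem [Fact p.Prime] {G : Type} [Group G] [Finite G] (H : Subgroup G)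
    (hd : ¬ p ∣ H.index) (c : G) (hc : c ^ p = 1) : ∃ g : G, g⁻¹ * c * g ∈ H := by
  have hP : IsPGroup p (Subgroup.zpowers c) := by
    rw [IsPGroup.iff_card]
    have h1 : orderOf c ∣ p ^ 1 := by
      rw [pow_one]
      exact orderOf_dvd_of_pow_eq_one hc
    obtain ⟨k, _, hk⟩ := (Nat.dvd_prime_pow (Fact.out : p.Prime)).1 h1
    exact ⟨k, by rw [Nat.card_zpowers, hk]⟩
  obtain ⟨x, hx⟩ := hP.nonempty_fixed_point_of_prime_not_dvd_card (G ⧸ H) hd
  obtain ⟨g, rfl⟩ := QuotientGroup.mk_surjective x
  refine ⟨g, ?_⟩
  have h1 := hx ⟨c, Subgroup.mem_zpowers c⟩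
  have h2 : ((c * g : G) : G ⧸ H) = (g : G ⧸ H) := h1
  have h3 := QuotientGroup.eq.1 h2.symm
  rwa [← mul_assoc] at h3

/-- a cycle of length `p` -/
theorem exists_cycle [Fact p.Prime] {α : Type} [Fintype α] [DecidableEq α]
    (h : p ≤ Fintype.card α) : ∃ c : Perm α, c.IsCycle ∧ c.support.card = p ∧ c ^ p = 1 := by
  have hp := (Fact.out : p.Prime)
  obtain ⟨f⟩ : Nonempty (Fin p ↪ α) := by
    apply Function.Embedding.nonempty_of_card_le
    rw [Fintype.card_fin]
    exact h
  let l : List α := List.ofFn f
  have hl : l.Nodup := List.nodup_ofFn.2 f.injective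
  have hlen : l.length = p := List.length_ofFn
  have hc : (l.formPerm).IsCycle := List.isCycle_formPerm hl (by rw [hlen]; exact hp.two_le)
  have hs : (l.formPerm).support.card = p := by
    rw [List.support_formPerm_of_nodup l hl (by
      intro x hx
      rw [hx, List.length_singleton] at hlen
      exact hp.one_lt.ne hlen)]
    rw [List.toFinset_card_of_nodup hl, hlen]
  refine ⟨l.formPerm, hc, hs, ?_⟩
  rw [← hs, ← hc.orderOf, pow_orderOf_eq_one]

theorem her_perm_aux [Fact p.Prime] (hp : 3 ≤ p) (n : ℕ) :
    ∀ (α : Type) [Finite α], Nat.card α = n → Her p (Alt p) (Perm α) := by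
  induction n using Nat.strong_induction_on with
  | _ n ih =>
    intro α _ hn
    have hS := alt_simp hp
    by_cases hsmall : Nat.card α < 2 * p
    · exact her_perm_small hS hsmall
    push Not at hsmall
    classical
    have := Fintype.ofFinite α
    intro H hd
    by_cases ht : IsPretransitive H α
    · by_cases hpr : IsPreprimitive H α
      · -- primitive
        obtain ⟨c, hc1, hc2, hc3⟩ := exists_cycle (p := p) (α := α) (by
          rw [← Nat.card_eq_fintype_card]; omega)
        obtain ⟨g, hg⟩ := exists_conj_mem H hd c hc3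
        have h1 : alternatingGroup α ≤ H := by
          refine jordan hpr (Fact.out : p.Prime) (by rw [← Nat.card_eq_fintype_card]; exact hsmall)
            (g := g⁻¹ * c * g) ?_ ?_ hg
          · have := hc1.conj (g := g⁻¹)
            rwa [inv_inv] at this
          · have := Perm.card_support_conj (σ := g⁻¹) (τ := c)
            rw [inv_inv] at this
            rw [this, hc2]
        let f : H →* ℤˣ := Perm.sign.comp H.subtype
        have h2 : Cls p (Alt p) f.ker := by
          refine Cls.of_fac hS (Or.inr (Or.inr ⟨Nat.card α, hsmall, ⟨?_⟩⟩))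
          have e1 : f.ker ≃* alternatingGroup α :=
            { toFun := fun x => ⟨x.1.1, by
                rw [Perm.mem_alternatingGroup]
                exact MonoidHom.mem_ker.1 x.2⟩
              invFun := fun x => ⟨⟨x.1, h1 x.2⟩, by
                rw [MonoidHom.mem_ker]
                exact Perm.mem_alternatingGroup.1 x.2⟩
              left_inv := fun x => rfl
              right_inv := fun x => rfl
              map_mul' := fun x y => rfl }
          have e2 : α ≃ Fin (Nat.card α) := Finite.equivFin α
          exact e1.trans (Equiv.altCongrHom e2)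
        have h3 : Cls p (Alt p) f.range := by
          apply Cls.of_comm hS
          intro a b
          exact Subtype.ext (mul_comm _ _)
        refine Cls.extn hS f.rangeRestrict f.rangeRestrict_surjective ?_ h3
        rw [MonoidHom.ker_rangeRestrict]
        exact h2
      · -- imprimitive
        obtain ⟨β, γ, hβ, hγ, hγ', e, h1, h2, h3⟩ := exists_blocks H ht hpr
        exact cls_imprim hS e (ih _ (hn ▸ h1) β rfl) (ih _ (hn ▸ h2) γ rfl) H h3 hd
    · -- intransitive
      have hne : Nonempty α := by
        have hp0 := (Fact.out : p.Prime).pos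
        rw [← Finite.card_pos_iff]
        omega
      obtain ⟨a⟩ := hne
      have h1 : ∃ b, b ∉ orbit H a := by
        by_contra hc
        push Not at hc
        apply ht
        exact (isPretransitive_iff_orbit_eq_univ a).2 (Set.eq_univ_of_forall hc)
      obtain ⟨b, hb⟩ := h1
      have hlt1 : Nat.card {x // x ∈ orbit H a} < Nat.card α := by
        apply Finite.card_subtype_lt hb
      have hlt2 : Nat.card {x // ¬ x ∈ orbit H a} < Nat.card α := by
        apply Finite.card_subtype_lt (x := a)
        intro h
        exact h (mem_orbit_self a)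
      refine cls_intrans hS (fun x => x ∈ orbit H a) (ih _ (hn ▸ hlt1) _ rfl)
        (ih _ (hn ▸ hlt2) _ rfl) H ?_ hd
      intro g hg x
      constructor
      · intro h
        have h2 := mem_orbit_of_mem_orbit (⟨g, hg⟩ : H)⁻¹ h
        have h3 : (⟨g, hg⟩ : H)⁻¹ • (g x) = x := inv_smul_smul (⟨g, hg⟩ : H) x
        rwa [h3] at h2
      · intro h
        exact mem_orbit_of_mem_orbit (⟨g, hg⟩ : H) h

theorem her_perm [Fact p.Prime] (hp : 3 ≤ p) (α : Type) [Finite α] : Her p (Alt p) (Perm α) :=
  her_perm_aux hp _ α rfl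

/-- the alternating groups -/
theorem her_alt [Fact p.Prime] (hp : 3 ≤ p) {F : Type} [Group F] [Finite F] (h : Alt p F) :
    Her p (Alt p) F := by
  have hS := alt_simp hp
  obtain ⟨n, hn, ⟨e⟩⟩ := h
  refine Her.congr hS e.symm ?_
  intro H hd
  have hS := alt_simp hp
  have h1 : Cls p (Alt p) (H.map (alternatingGroup (Fin n)).subtype) := by
    apply her_perm hp (Fin n)
    rw [Subgroup.index_map_subtype]
    intro h
    rcases (Fact.out : p.Prime).dvd_mul.1 h with h | h
    · exact hd h
    · have h2 : (alternatingGroup (Fin n)).index = 2 := by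
        have : Nontrivial (Fin n) := Fin.nontrivial_iff_two_le.2 (by omega)
        exact alternatingGroup.index_eq_two
      rw [h2] at h
      have := Nat.le_of_dvd (by norm_num) h
      omega
  exact h1.congr hS (H.equivMapOfInjective _ (Subgroup.subtype_injective _)).symm

end Pool.Agent.Helper57.AN
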