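import Pool.Agent.Helper57.AN.Final
import Pool.Agent.Helper57.AN.PermMain

/-!
# Project AN, block G (G1): it suffices to know that the alternating groups of degree at least `2 p`
are `p`-good
-/

set_option autoImplicit false

open scoped Pointwise IsMulCommutative

namespace Pool.Agent.Helper57.AN

open Pool.Agent.Helper42.INC Pool.Agent.Helper7.MK Pool.Agent.Helper24.S7
open Pool.Agent.Helper42.PL (cyc_of_inj)

theorem pgood_congr {p : ℕ} {S S' : Type} [Group S] [Group S'] (e : S ≃* S') (h : PGood p S') :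
    PGood p S := by
  rintro K _ _ h1 ⟨f⟩ h3
  exact h K h1 ⟨f.trans e⟩ h3

theorem final_alt (p : ℕ) [Fact p.Prime] (h3 : 3 ≤ p)
    (hPG : ∀ m : ℕ, 2 * p ≤ m → PGood p (alternatingGroup (Fin m)))
    (G : Type) [Group G] [Finite G] (n : ℕ) (H : ℕ → Subgroup G) (h0 : H 0 = ⊥) (h1 : H n = ⊤)
    (hs : ∀ i < n, H i ≤ H (i + 1) ∧ ∃ _ : ((H i).subgroupOf (H (i + 1))).Normal,
      (∀ a b : H (i + 1) ⧸ (H i).subgroupOf (H (i + 1)), a * b = b * a) ∨
      (∀ P : Sylow p (H (i + 1) ⧸ (H i).subgroupOf (H (i + 1))), IsCyclic P) ∨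
      ∃ m : ℕ, Nonempty ((H (i + 1) ⧸ (H i).subgroupOf (H (i + 1))) ≃* alternatingGroup (Fin m))) :
    McKayCongr p G := by
  refine final_gen (alt_simp h3) (fun F _ _ h => her_alt h3 h) ?_ G n H h0 h1 ?_
  · rintro F _ _ ⟨m, hm, ⟨e⟩⟩
    exact pgood_congr e (hPG m hm)
  · intro i hi
    obtain ⟨h4, h5, h6⟩ := hs i hi
    refine ⟨h4, h5, ?_⟩
    rcases h6 with h6 | h6 | ⟨m, ⟨e⟩⟩
    · exact Or.inl h6
    · exact Or.inr (Or.inl h6)
    · by_cases hm : 2 * p ≤ m
      · exact Or.inr (Or.inr ⟨m, hm, ⟨e⟩⟩)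
      · refine Or.inr (Or.inl ?_)
        have h7 : ∀ P : Sylow p (Equiv.Perm (Fin m)), IsCyclic P :=
          cyc_perm (by rw [Nat.card_eq_fintype_card, Fintype.card_fin]; omega)
        have h8 := cyc_of_inj (alternatingGroup (Fin m)).subtype (Subgroup.subtype_injective _) h7
        exact cyc_of_inj e.toMonoidHom e.injective h8

end Pool.Agent.Helper57.AN
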