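import Pool.Agent.Helper57.AN.StdT

/-!
# AN-G15 PGoodAlt: the alternating groups of degree at least `2 p` are `p`-good

`5 ≤ p`, `m ≥ 2 p`: `m = p w + r` with `w = m / p ≥ 2`, `r = m % p < p`; `Fintype.card (Pt p w r) = w p + r = m`, `8 ≤ m`. Let `K` be a finite perfect group,
`f : K ⧸ center K ≃* alternatingGroup (Fin m)`. Choose `Fin m ≃ Pt p w r` and `π : K → K ⧸ center K → alternatingGroup (Fin m) → Perm (Fin m) → Perm (Pt p w r)` (`Equiv.permCongrHom`, signs are preserved:
`Perm.sign_permCongr`). `Cov π`: range the alternating group, kernel the center. `good_of_std`.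
-/

set_option autoImplicit false

open Equiv

namespace Pool.Agent.Helper57.AN

open Pool.Agent.Helper42.INC Pool.Agent.Helper7.MK Pool.Agent.Helper81.AN Pool.Agent.Helper24.S7

theorem pgood_alt {p : ℕ} [Fact p.Prime] (h5 : 5 ≤ p)
    (hdat : ∀ (w r : ℕ), 2 ≤ w → r < p → ∀ (K : Type) [Group K] [Finite K]
      (π : K →* Perm (Pt p w r)), Cov π → Dat p K (TT π)) (m : ℕ) (hm : 2 * p ≤ m) :
    PGood p (alternatingGroup (Fin m)) := by
  have hp := (Fact.out : p.Prime).pos
  obtain ⟨w, r, hw, hr, hm'⟩ : ∃ w r : ℕ, 2 ≤ w ∧ r < p ∧ m = p * w + r :=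
    ⟨m / p, m % p, (Nat.le_div_iff_mul_le hp).2 hm, Nat.mod_lt _ hp, (Nat.div_add_mod m p).symm⟩
  rintro K _ _ hperf ⟨f⟩ _
  have hcard : Fintype.card (Pt p w r) = m := by
    rw [Fintype.card_sum, Fintype.card_prod, Fintype.card_fin, Fintype.card_fin, ZMod.card,
      mul_comm, hm']
  let e : Fin m ≃ Pt p w r := Fintype.equivOfCardEq (by rw [Fintype.card_fin, hcard])
  let π : K →* Perm (Pt p w r) := e.permCongrHom.toMonoidHom.comp
    ((alternatingGroup (Fin m)).subtype.comp
      (f.toMonoidHom.comp (QuotientGroup.mk' (Subgroup.center K))))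
  have hπ : ∀ x : K, π x = e.permCongr ((f (QuotientGroup.mk' (Subgroup.center K) x) :
      alternatingGroup (Fin m)) : Perm (Fin m)) := fun x => rfl
  have h : Cov π := by
    refine ⟨hperf, ?_, ?_⟩
    · ext y
      rw [Perm.mem_alternatingGroup]
      constructor
      · rintro ⟨x, rfl⟩
        rw [hπ, Perm.sign_permCongr]
        exact Perm.mem_alternatingGroup.1 (f (QuotientGroup.mk' (Subgroup.center K) x)).2
      · intro hy
        have h1 : e.symm.permCongr y ∈ alternatingGroup (Fin m) := by
          rw [Perm.mem_alternatingGroup, Perm.sign_permCongr, hy]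
        obtain ⟨q, hq⟩ := f.surjective ⟨_, h1⟩
        obtain ⟨x, rfl⟩ := QuotientGroup.mk'_surjective _ q
        refine ⟨x, ?_⟩
        rw [hπ, hq]
        ext t
        simp [Equiv.permCongr_apply]
    · intro x hx
      rw [MonoidHom.mem_ker, hπ] at hx
      have h1 : ((f (QuotientGroup.mk' (Subgroup.center K) x) :
          alternatingGroup (Fin m)) : Perm (Fin m)) = 1 := by
        apply e.permCongr.injective
        rw [hx]
        exact (map_one e.permCongrHom).symm
      have h2 : f (QuotientGroup.mk' (Subgroup.center K) x) = 1 := Subtype.ext h1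
      have h3 : QuotientGroup.mk' (Subgroup.center K) x = 1 := by
        apply f.injective
        rw [h2, map_one]
      exact (QuotientGroup.eq_one_iff x).1 h3
  exact good_of_std (by omega) hw hr (by omega) h (hdat w r hw hr K π h)

end Pool.Agent.Helper57.AN
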