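import Pool.Agent.Helper57.AN.CntLab
import Pool.Agent.Helper57.AN.PGoodAlt
import Pool.Agent.Helper57.AN.FinalAlt
import Pool.Agent.Helper24.AN.LinG
import Pool.Agent.Helper24.AN.LinC
import Pool.Agent.Helper24.LOC.Loc1
import Pool.Agent.Helper81.AN.TrL
import Pool.Agent.Helper81.AN.SpG0
import Pool.Agent.Helper81.AN.SpC

/-!
# AN-F6 FinAsm: the data for the standard subgroup
-/

set_option autoImplicit false

open Equiv

namespace Pool.Agent.Helper57.AN

open Pool.Agent.Helper42.INC Pool.Agent.Helper7.MK Pool.Agent.Helper81.AN Pool.Agent.Helper24.S7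
open Pool.Agent.Helper24.AN (lin_G lin_C)
open Pool.Agent.Helper24.LOC (loc_1)

/-- the statement (LOC2) -/
def LocTwo : Prop := ∀ (p : ℕ) [Fact p.Prime] (m : ℕ) (_ : 2 * m + 1 = p) (_ : 0 < m) (w r : ℕ),
  Nonempty (Lab (BG ((permH (Pt p w r)).comp (permL p w r))) (BG.par _) (BG.z _) (-1)
    (LabZ m w r) LabZ.tw LabZ.dg)

/-- the statement (TRS) -/
def TransS : Prop := ∀ (p : ℕ) [Fact p.Prime] (_ : p ≠ 2) (ι : Type) [Fintype ι] [DecidableEq ι]
    (_ : 8 ≤ Fintype.card ι)
    (K : Type) [Group K] [Finite K] (_ : ⁅(⊤ : Subgroup K), (⊤ : Subgroup K)⁆ = ⊤)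
    (π : K →* Perm ι) (_ : π.range = alternatingGroup ι)
    (z : K) (_ : z ≠ 1) (_ : z ∈ Subgroup.center K)
    (_ : ∀ k, π k = 1 ↔ (k = 1 ∨ k = z)) (L : Type) [Group L] [Finite L]
    (h : L →* Perm ι) (_ : Function.Injective h) (s : L) (_ : Perm.sign (h s) = -1)
    (α : MulAut K) (_ : ∀ k, π (α k) = h s * π k * (h s)⁻¹) (d : ZMod p),
    (Even (Fintype.card ι) →
      2 * cF p (h.range.comap π) α z (-1) d =
        lN p (BG.par ((permH ι).comp h)) (BG.z _) (-1) (2 ^ Fintype.card ι * d) ∧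
      cN p (h.range.comap π) α z (-1) d =
        2 * lF p (BG.par ((permH ι).comp h)) (BG.z _) (-1) (4 * (2 ^ Fintype.card ι * d))) ∧
    (Odd (Fintype.card ι) →
      cF p (h.range.comap π) α z (-1) d =
        lF p (BG.par ((permH ι).comp h)) (BG.z _) (-1) (2 ^ (Fintype.card ι + 1) * d) ∧
      cN p (h.range.comap π) α z (-1) d =
        lN p (BG.par ((permH ι).comp h)) (BG.z _) (-1) (2 ^ (Fintype.card ι + 1) * d))

variable {p : ℕ} [Fact p.Prime] {w r : ℕ}

private theorem card_pt : Fintype.card (Pt p w r) = p * w + r := by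
  rw [Fintype.card_sum, Fintype.card_prod, Fintype.card_fin, Fintype.card_fin, ZMod.card,
    mul_comm]

private theorem finLL : Finite (LL p w r) := Finite.of_equiv _ SemidirectProduct.equivProd.symm

/-- linear characters -/
theorem lin_counts (h2 : p ≠ 2) (hr : r < p) (d : ZMod p) (hd : d ≠ 0) :
    lF p (Perm.sign.comp (permL p w r)) 1 1 d =
      lF p (Perm.sign.comp (MonoidHom.id (Perm (Pt p w r)))) 1 1 d ∧
    lN p (Perm.sign.comp (permL p w r)) 1 1 d =
      lN p (Perm.sign.comp (MonoidHom.id (Perm (Pt p w r)))) 1 1 d := by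
  have hp : p.Prime := Fact.out
  have := finLL (p := p) (w := w) (r := r)
  obtain ⟨m, hm⟩ := hp.odd_of_ne_two h2
  let mid : Fin p := ⟨m, by omega⟩
  have hmid : 2 * (mid : ℕ) + 1 = p := hm.symm
  let e : Fin (p * w + r) ≃ Pt p w r := Fintype.equivOfCardEq (by rw [Fintype.card_fin, card_pt])
  have h1 := Lab.congr e.permCongrHom Perm.sign Perm.sign
    (fun x => Perm.sign_permCongr e x) 1 1 (lin_G (p * w + r))
  rw [map_one] at h1
  rw [MonoidHom.comp_id]
  have h3 := count_eq (p := p) (map_one _) h1 (map_one _) (loc_1 p mid hmid w r)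
    (lin_C p hp mid hmid w r hr) d hd
  exact ⟨h3.1.symm, h3.2.symm⟩

theorem par_z {ι L : Type} [Group L] (h : L →* SPerm ι) : BG.par h (BG.z h) = 1 := by
  change SemidirectProduct.lift Cl.par 1 _ (SemidirectProduct.inl Cl.z) = 1
  rw [SemidirectProduct.lift_inl]
  simp [Cl.par]

/-- spin characters -/
theorem spin_counts (hloc : LocTwo) (h2 : p ≠ 2) (hr : r < p) (d : ZMod p) (hd : d ≠ 0) :
    lF p (BG.par ((permH (Pt p w r)).comp (permL p w r))) (BG.z _) (-1) d =
      lF p (BG.par ((permH (Pt p w r)).comp (MonoidHom.id (Perm (Pt p w r))))) (BG.z _) (-1) d ∧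
    lN p (BG.par ((permH (Pt p w r)).comp (permL p w r))) (BG.z _) (-1) d =
      lN p (BG.par ((permH (Pt p w r)).comp (MonoidHom.id (Perm (Pt p w r))))) (BG.z _) (-1) d := by
  have hp : p.Prime := Fact.out
  have := finLL (p := p) (w := w) (r := r)
  have : Finite (BG ((permH (Pt p w r)).comp (permL p w r))) := BG.finite _
  have : Finite (BG (permH (Pt p w r))) := BG.finite _
  obtain ⟨m, hm⟩ := hp.odd_of_ne_two h2
  have hm0 : 0 < m := by
    have := hp.two_le
    omega
  rw [MonoidHom.comp_id]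
  have h3 := count_eq (p := p) (par_z _) (sp_G0 (Pt p w r) (p * w + r) card_pt) (par_z _)
    (hloc p m hm.symm hm0 w r) (sp_C p hp m hm.symm hm0 w r hr) d hd
  exact ⟨h3.1.symm, h3.2.symm⟩

theorem dat_std (hloc : LocTwo) (htr : TransS) (h5 : 5 ≤ p) (hw : 2 ≤ w) (hr : r < p)
    {K : Type} [Group K] [Finite K] {π : K →* Perm (Pt p w r)} (h : Cov π) :
    Dat p K (TT π) := by
  have hp : p.Prime := Fact.out
  have h2 : p ≠ 2 := by omega
  have h3 : 3 ≤ p := by omega
  have hfL := finLL (p := p) (w := w) (r := r)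
  have h8 : 8 ≤ p * w + r := by nlinarith
  have h8' : 8 ≤ Fintype.card (Pt p w r) := by rw [card_pt]; exact h8
  obtain ⟨z, hzc, hzz, hz⟩ := exists_z h h8'
  obtain ⟨l, α, hl, hα, hαT, hα2⟩ := exists_alpha h3 hw h8 h
  have hker := ker_eq h h8'
  have hcen : ∀ k, k ∈ Subgroup.center K ↔ (k = 1 ∨ k = z) := by
    intro k
    rw [← hker, MonoidHom.mem_ker, hz]
  have hzT : z ∈ TT π := by
    change π z ∈ (permL p w r).range
    rw [(hz z).2 (Or.inr rfl)]
    exact one_mem _
  have htop : (⊤ : Subgroup K) = (MonoidHom.id (Perm (Pt p w r))).range.comap π := by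
    ext x
    simp
  have h4 : (4 : ZMod p) ≠ 0 := by
    have h22 : (2 : ZMod p) ≠ 0 := by
      intro h0
      have h5 : ((2 : ℕ) : ZMod p) = 0 := by exact_mod_cast h0
      rw [ZMod.natCast_eq_zero_iff] at h5
      exact h2 ((Nat.prime_dvd_prime_iff_eq hp Nat.prime_two).1 h5)
    have : (4 : ZMod p) = 2 * 2 := by norm_num
    rw [this]
    exact mul_ne_zero h22 h22
  have h22 : (2 : ZMod p) ≠ 0 := by
    intro h0
    apply h4
    have : (4 : ZMod p) = 2 * 2 := by norm_num
    rw [this, h0, mul_zero]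
  refine good_of_counts z hcen (TT π) hzT α hαT hα2
    (fun β hβ => stab_cases h3 hw hr h8 h l α hl hα β hβ) ?_
  intro ν hν d hd
  rw [htop]
  change cF p ((permL p w r).range.comap π) α z ν d = _ ∧
    cN p ((permL p w r).range.comap π) α z ν d = _
  rcases hν with rfl | rfl
  · -- linear characters
    obtain ⟨a1, a2⟩ := trL p h2 (Pt p w r) K π h.range z hz (LL p w r) (permL p w r)
      (permL_injective p w r) l hl α hα d
    obtain ⟨b1, b2⟩ := trL p h2 (Pt p w r) K π h.range z hz (Perm (Pt p w r))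
      (MonoidHom.id _) Function.injective_id (permL p w r l) hl α hα d
    have c1 := (lin_counts (p := p) (w := w) (r := r) h2 hr d hd).2
    have c2 := (lin_counts (p := p) (w := w) (r := r) h2 hr (4 * d) (mul_ne_zero h4 hd)).1
    constructor
    · omega
    · omega
  · by_cases hz1 : z = 1
    · -- no spin characters
      have hF : ∀ S : Subgroup K, cF p S α z (-1) d = 0 := by
        intro S
        unfold cF
        rw [Nat.card_eq_zero]
        left
        refine ⟨fun θ => ?_⟩
        have h5 := θ.2.2.1 1 (by rw [hz1]; rfl)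
        exact irr_one_ne θ.2.1 (by linear_combination h5 / 2)
      have hN : ∀ S : Subgroup K, cN p S α z (-1) d = 0 := by
        intro S
        unfold cN
        rw [Nat.card_eq_zero]
        left
        refine ⟨fun θ => ?_⟩
        have h5 := θ.2.2.1 1 (by rw [hz1]; rfl)
        exact irr_one_ne θ.2.1 (by linear_combination h5 / 2)
      rw [hF, hF, hN, hN]
      exact ⟨rfl, rfl⟩
    · obtain ⟨a1, a2⟩ := htr p h2 (Pt p w r) h8' K h.perf π h.range z hz1 hzc hz (LL p w r)
        (permL p w r) (permL_injective p w r) l hl α hα d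
      obtain ⟨b1, b2⟩ := htr p h2 (Pt p w r) h8' K h.perf π h.range z hz1 hzc hz
        (Perm (Pt p w r)) (MonoidHom.id _) Function.injective_id (permL p w r l) hl α hα d
      rcases Nat.even_or_odd (Fintype.card (Pt p w r)) with he | ho
      · obtain ⟨a1, a1'⟩ := a1 he
        obtain ⟨b1, b1'⟩ := b1 he
        have hd' : (2 ^ Fintype.card (Pt p w r) * d : ZMod p) ≠ 0 :=
          mul_ne_zero (pow_ne_zero _ h22) hd
        have c1 := (spin_counts (p := p) (w := w) (r := r) hloc h2 hr _ hd').2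
        have c2 := (spin_counts (p := p) (w := w) (r := r) hloc h2 hr _ (mul_ne_zero h4 hd')).1
        constructor
        · omega
        · omega
      · obtain ⟨a1, a1'⟩ := a2 ho
        obtain ⟨b1, b1'⟩ := b2 ho
        have hd' : (2 ^ (Fintype.card (Pt p w r) + 1) * d : ZMod p) ≠ 0 :=
          mul_ne_zero (pow_ne_zero _ h22) hd
        have c1 := (spin_counts (p := p) (w := w) (r := r) hloc h2 hr _ hd').1
        have c2 := (spin_counts (p := p) (w := w) (r := r) hloc h2 hr _ hd').2
        constructor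
        · omega
        · omega

/-- the main theorem for `p ≥ 5` -/
theorem mckay_alt (hloc : LocTwo) (htr : TransS) (h5 : 5 ≤ p) (m : ℕ) (hm : 2 * p ≤ m) :
    PGood p (alternatingGroup (Fin m)) :=
  pgood_alt h5 (fun _ _ hw hr _ _ _ _ h => dat_std hloc htr h5 hw hr h) m hm

end Pool.Agent.Helper57.AN
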