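import Mathlib

/-!
# AN-G07 AutA: automorphisms of the alternating group preserve 3-cycles (degree at least 8)

PROOF. Let `n = card ι`, `x` a 3-cycle in `A = alternatingGroup ι`, `y = α x`. `y` has order 3, so its cycle type is `k` times `3`
(`Equiv.Perm.cycleType_prime_order` or `orderOf`/`cycleType` lemmas), `1 ≤ k`, `3 k ≤ n`. The centralizers of `x` and of `y` in `A` are isomorphic
(`α`). Let `C(g)` be the centralizer in `Perm ι`; `|C_A(g)| ≤ |C(g)| ≤ 2 |C_A(g)|` (`C_A(g)` is the kernel of `sign` on `C(g)`). By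
`Equiv.Perm.nat_card_centralizer`: `|C(x)| = (n - 3)! * 3`, `|C(y)| = (n - 3 k)! * 3 ^ k * k!`. So
`(n - 3)! * 3 = |C(x)| ≤ 2 |C_A(x)| = 2 |C_A(y)| ≤ 2 |C(y)| = 2 (n - 3 k)! 3 ^ k k!`.
If `k ≥ 2` this is false: `(n - 3)! = (n - 3 k)! * ((n - 3 k + 1) ⋯ (n - 3))`. `k = 2`: `(n - 3) (n - 4) (n - 5) ≥ 5 * 4 * 3 = 60 > 12 = 2 * 3 * 2!`.
`k ≥ 3`: the product of the `3 k - 3` numbers is at least `(3 k - 3)!` (`Nat.factorial_mul_factorial_dvd...`: `(n - 3)! ≥ (n - 3 k)! (3 k - 3)!`,
`Nat.add_choose` / `Nat.factorial_mul_factorial_le...`), and `(3 k - 3)! > 2 * 3 ^ (k - 1) * k!` by induction on `k ≥ 3`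
(`k = 3`: `720 > 108`; the step multiplies the left side with `(3 k - 2) (3 k - 1) (3 k) ≥ 3 (k + 1)`). So `k = 1`.
(`n ≥ 8` for `k = 2`; `k ≥ 3` gives `n ≥ 9`.)
-/

set_option autoImplicit false

open Equiv

namespace Pool.Agent.Helper57.AN

private theorem aa_fact (k : ℕ) (hk : 3 ≤ k) :
    2 * 3 ^ (k - 1) * k.factorial < (3 * k - 3).factorial := by
  induction k, hk using Nat.le_induction with
  | base => decide
  | succ k hk ih =>
    have h1 : 3 * (k + 1) - 3 = (3 * k - 3) + 3 := by omega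
    rw [h1, Nat.factorial_succ, Nat.factorial_succ, Nat.factorial_succ, Nat.factorial_succ,
      Nat.add_sub_cancel]
    obtain ⟨j, rfl⟩ : ∃ j, k = j + 1 := ⟨k - 1, by omega⟩
    rw [Nat.add_sub_cancel] at ih
    set a := (3 * (j + 1) - 3).factorial with ha
    have h2 : 3 * (j + 1) - 3 = 3 * j := by omega
    rw [h2]
    have h3 : 2 * 3 ^ (j + 1) * ((j + 1 + 1) * (j + 1).factorial) =
        (3 * (j + 2)) * (2 * 3 ^ j * (j + 1).factorial) := by
      rw [pow_succ]
      ring
    rw [h3]
    have h4 : (3 * (j + 2)) * (2 * 3 ^ j * (j + 1).factorial) < (3 * (j + 2)) * a :=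
      Nat.mul_lt_mul_of_pos_left ih (by omega)
    refine lt_of_lt_of_le h4 ?_
    have h5 : 3 * (j + 2) ≤ (3 * j + 2 + 1) * ((3 * j + 1 + 1) * (3 * j + 1)) := by
      have h6 : 1 * 3 ≤ (3 * j + 1 + 1) * (3 * j + 1) :=
        Nat.mul_le_mul (by omega) (by omega)
      calc 3 * (j + 2) ≤ (3 * j + 2 + 1) * (1 * 3) := by omega
        _ ≤ _ := Nat.mul_le_mul_left _ h6
    calc (3 * (j + 2)) * a ≤ ((3 * j + 2 + 1) * ((3 * j + 1 + 1) * (3 * j + 1))) * a :=
          Nat.mul_le_mul_right _ h5
      _ = _ := by ring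

private theorem aa_ineq {n k : ℕ} (hn : 8 ≤ n) (hk1 : 1 ≤ k) (hkn : 3 * k ≤ n)
    (h : (n - 3).factorial * 3 ≤ 2 * ((n - 3 * k).factorial * (3 ^ k * k.factorial))) : k = 1 := by
  by_contra hne
  rcases Nat.lt_or_ge k 3 with hk | hk
  · have hk2 : k = 2 := by omega
    subst hk2
    obtain ⟨m, rfl⟩ : ∃ m, n = m + 6 := ⟨n - 6, by omega⟩
    have h1 : m + 6 - 3 = m + 3 := by omega
    have h2 : m + 6 - 3 * 2 = m := by omega
    rw [h1, h2, Nat.factorial_succ, Nat.factorial_succ, Nat.factorial_succ] at h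
    have h3 : 0 < m.factorial := Nat.factorial_pos m
    have h4 : (Nat.factorial 2) = 2 := rfl
    rw [h4] at h
    have h5 : 2 ≤ m := by omega
    have h6 : 60 ≤ (m + 2 + 1) * ((m + 1 + 1) * (m + 1)) := by
      calc 60 = 5 * (4 * 3) := rfl
        _ ≤ _ := Nat.mul_le_mul (by omega) (Nat.mul_le_mul (by omega) (by omega))
    have h7 : 60 * m.factorial ≤ (m + 2 + 1) * ((m + 1 + 1) * ((m + 1) * m.factorial)) := by
      calc 60 * m.factorial ≤ ((m + 2 + 1) * ((m + 1 + 1) * (m + 1))) * m.factorial :=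
            Nat.mul_le_mul_right _ h6
        _ = _ := by ring
    have h8 : 2 * (m.factorial * (3 ^ 2 * 2)) = 36 * m.factorial := by ring
    rw [h8] at h
    omega
  · have h1 := aa_fact k hk
    have h2 : n - 3 = (n - 3 * k) + (3 * k - 3) := by omega
    have h3 : (n - 3 * k).factorial * (3 * k - 3).factorial ≤ (n - 3).factorial := by
      rw [h2]
      exact Nat.le_of_dvd (Nat.factorial_pos _) (Nat.factorial_mul_factorial_dvd_factorial_add _ _)
    have h4 : 0 < (n - 3 * k).factorial := Nat.factorial_pos _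
    have h5 : 3 ^ k = 3 ^ (k - 1) * 3 := by
      rw [← pow_succ]
      congr 1
      omega
    have h6 : 2 * ((n - 3 * k).factorial * (3 ^ k * k.factorial)) =
        (n - 3 * k).factorial * (2 * 3 ^ (k - 1) * k.factorial) * 3 := by
      rw [h5]
      ring
    rw [h6] at h
    have h7 : (n - 3 * k).factorial * (2 * 3 ^ (k - 1) * k.factorial) <
        (n - 3 * k).factorial * (3 * k - 3).factorial := Nat.mul_lt_mul_of_pos_left h1 h4
    omega

variable {ι : Type} [Fintype ι] [DecidableEq ι]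

private theorem aa_upper (g : alternatingGroup ι) :
    Nat.card (Subgroup.centralizer ({g} : Set (alternatingGroup ι))) ≤
      Nat.card (Subgroup.centralizer ({(g : Perm ι)} : Set (Perm ι))) := by
  refine Nat.card_le_card_of_injective
    (fun h => ⟨((h : alternatingGroup ι) : Perm ι), ?_⟩) ?_
  · have h1 := Subgroup.mem_centralizer_singleton_iff.1 h.2
    rw [Subgroup.mem_centralizer_singleton_iff]
    exact congrArg Subtype.val h1
  · intro a b hab
    apply Subtype.ext
    apply Subtype.ext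
    exact congrArg (fun u : Subgroup.centralizer ({(g : Perm ι)} : Set (Perm ι)) => (u : Perm ι)) hab

private theorem aa_lower (g : alternatingGroup ι) :
    Nat.card (Subgroup.centralizer ({(g : Perm ι)} : Set (Perm ι))) ≤
      2 * Nat.card (Subgroup.centralizer ({g} : Set (alternatingGroup ι))) := by
  classical
  have hex : ∀ s : ℤˣ, ∃ c : Perm ι, c ∈ Subgroup.centralizer ({(g : Perm ι)} : Set (Perm ι)) ∧
      ((∃ u ∈ Subgroup.centralizer ({(g : Perm ι)} : Set (Perm ι)), Perm.sign u = s) →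
        Perm.sign c = s) := by
    intro s
    by_cases h : ∃ u ∈ Subgroup.centralizer ({(g : Perm ι)} : Set (Perm ι)), Perm.sign u = s
    · obtain ⟨u, hu, hs⟩ := h
      exact ⟨u, hu, fun _ => hs⟩
    · exact ⟨1, one_mem _, fun h' => absurd h' h⟩
  choose c hc1 hc2 using hex
  have hmem : ∀ h : Subgroup.centralizer ({(g : Perm ι)} : Set (Perm ι)),
      (c (Perm.sign (h : Perm ι)))⁻¹ * (h : Perm ι) ∈ alternatingGroup ι := by
    intro h
    rw [Perm.mem_alternatingGroup, Perm.sign_mul, Perm.sign_inv, hc2 _ ⟨_, h.2, rfl⟩]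
    exact Int.units_mul_self _
  have hmem2 : ∀ h : Subgroup.centralizer ({(g : Perm ι)} : Set (Perm ι)),
      (⟨_, hmem h⟩ : alternatingGroup ι) ∈
        Subgroup.centralizer ({g} : Set (alternatingGroup ι)) := by
    intro h
    rw [Subgroup.mem_centralizer_singleton_iff]
    apply Subtype.ext
    have h1 : (c (Perm.sign (h : Perm ι)))⁻¹ * (h : Perm ι) ∈
        Subgroup.centralizer ({(g : Perm ι)} : Set (Perm ι)) :=
      mul_mem (inv_mem (hc1 _)) h.2
    exact Subgroup.mem_centralizer_singleton_iff.1 h1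
  have h1 : Nat.card (Subgroup.centralizer ({(g : Perm ι)} : Set (Perm ι))) ≤
      Nat.card (ℤˣ × Subgroup.centralizer ({g} : Set (alternatingGroup ι))) := by
    refine Nat.card_le_card_of_injective
      (fun h => (Perm.sign (h : Perm ι), ⟨⟨_, hmem h⟩, hmem2 h⟩)) ?_
    intro a b hab
    have e1 : Perm.sign (a : Perm ι) = Perm.sign (b : Perm ι) := congrArg Prod.fst hab
    have e2 := congrArg (fun u : ℤˣ × Subgroup.centralizer ({g} : Set (alternatingGroup ι)) =>
      ((u.2 : alternatingGroup ι) : Perm ι)) hab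
    simp only at e2
    rw [e1] at e2
    exact Subtype.ext (mul_left_cancel e2)
  have h2 : Nat.card ℤˣ = 2 := by
    rw [Nat.card_eq_fintype_card]
    rfl
  rw [Nat.card_prod, h2] at h1
  exact h1

theorem aut_three {ι : Type} [Fintype ι] [DecidableEq ι] (h8 : 8 ≤ Fintype.card ι)
    (α : MulAut (alternatingGroup ι)) (x : alternatingGroup ι)
    (hx : (x : Perm ι).IsThreeCycle) : ((α x : alternatingGroup ι) : Perm ι).IsThreeCycle := by
  have ho : orderOf ((α x : alternatingGroup ι) : Perm ι) = 3 := by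
    rw [Subgroup.orderOf_coe, MulEquiv.orderOf_eq, ← Subgroup.orderOf_coe]
    exact hx.orderOf
  have hpr : (orderOf ((α x : alternatingGroup ι) : Perm ι)).Prime := by
    rw [ho]
    exact Nat.prime_three
  obtain ⟨k, hk⟩ := Perm.cycleType_prime_order hpr
  rw [ho] at hk
  have hcx : Nat.card (Subgroup.centralizer ({(x : Perm ι)} : Set (Perm ι))) =
      (Fintype.card ι - 3).factorial * 3 := by
    rw [Perm.nat_card_centralizer, hx.cycleType]
    simp
  have hcy : Nat.card (Subgroup.centralizer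
      ({((α x : alternatingGroup ι) : Perm ι)} : Set (Perm ι))) =
      (Fintype.card ι - 3 * (k + 1)).factorial * (3 ^ (k + 1) * (k + 1).factorial) := by
    rw [Perm.nat_card_centralizer, hk]
    have h1 : (Multiset.replicate (k + 1) 3).toFinset = {3} := by
      ext m
      rw [Multiset.mem_toFinset, Multiset.mem_replicate, Finset.mem_singleton]
      exact ⟨fun h => h.2, fun h => ⟨Nat.succ_ne_zero k, h⟩⟩
    rw [h1, Finset.prod_singleton, Multiset.count_replicate_self, Multiset.prod_replicate,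
      Multiset.sum_replicate, smul_eq_mul, mul_comm (k + 1) 3, mul_assoc]
  have hle : 3 * (k + 1) ≤ Fintype.card ι := by
    have h1 := Perm.sum_cycleType_le ((α x : alternatingGroup ι) : Perm ι)
    rw [hk, Multiset.sum_replicate, smul_eq_mul] at h1
    omega
  have hiso : Nat.card (Subgroup.centralizer ({x} : Set (alternatingGroup ι))) =
      Nat.card (Subgroup.centralizer ({α x} : Set (alternatingGroup ι))) := by
    refine Nat.card_congr (α.toEquiv.subtypeEquiv fun g => ?_)
    change g ∈ Subgroup.centralizer ({x} : Set (alternatingGroup ι)) ↔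
      α g ∈ Subgroup.centralizer ({α x} : Set (alternatingGroup ι))
    rw [Subgroup.mem_centralizer_singleton_iff, Subgroup.mem_centralizer_singleton_iff,
      ← map_mul, ← map_mul]
    exact (α.injective.eq_iff).symm
  have h1 := aa_lower x
  have h2 := aa_upper (α x)
  rw [hcx, hiso] at h1
  rw [hcy] at h2
  have h3 : (Fintype.card ι - 3).factorial * 3 ≤
      2 * ((Fintype.card ι - 3 * (k + 1)).factorial * (3 ^ (k + 1) * (k + 1).factorial)) :=
    h1.trans (Nat.mul_le_mul_left _ h2)
  have h4 := aa_ineq h8 (by omega) hle h3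
  have h5 : k = 0 := by omega
  rw [h5] at hk
  unfold Perm.IsThreeCycle
  rw [hk]
  rfl

end Pool.Agent.Helper57.AN
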