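import Mathlib

/-!
# AN-G02 Gen3: the 3-cycles `(a b i)` generate the alternating group

`cyc a b i` maps `a ↦ b ↦ i ↦ a`.

PROOF of `gen3`. Let `G` be the closure. `≤`: `cyc` is a product of two swaps (or `swap_swap ... isThreeCycle`), so even.
`≥`: by `Equiv.Perm.closure_three_cycles_eq_alternating` it suffices that `G` contains all 3-cycles. Let `N` be the normalizer of `G`. `cyc_conj`: `f (cyc x y z) f⁻¹ = cyc (f x) (f y) (f z)`.
`N` contains `G` (in particular the `cyc a b i`), `swap a b` (it maps `cyc a b i` to `cyc b a i = (cyc a b i)⁻¹`),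
and `swap i j` for `i, j` different from `a, b` (it permutes the generators). Conjugating `swap a b` with `cyc a b i` and its
inverse: `swap b i ∈ N`, `swap a i ∈ N`. So `N` contains all swaps, `N = ⊤` (`Equiv.Perm.closure_isSwap`), `G` is normal in
`Perm ι`. If there is no `i ≠ a, b` then `ι = {a, b}` has no 3-cycles (`IsThreeCycle.card_support`); otherwise `G` contains the 3-cycle `cyc a b i` and hence
all its conjugates: all 3-cycles (`Equiv.Perm.isConj_iff_cycleType_eq`).
(To show that `f` is in the normalizer: the closure is finite, `f G f⁻¹ ≤ G` suffices, check it on generators: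
`Subgroup.closure_le`, or use `Subgroup.mem_normalizer_iff` with `f` and `f⁻¹`.)
-/

set_option autoImplicit false

open Equiv

namespace Pool.Agent.Helper57.AN

/-- the cycle `a ↦ b ↦ i ↦ a` (for different `a, b, i`) -/
def cyc {ι : Type} [DecidableEq ι] (a b i : ι) : Perm ι := swap a b * swap b i

theorem cyc_conj {ι : Type} [DecidableEq ι] (f : Perm ι) (a b i : ι) :
    f * cyc a b i * f⁻¹ = cyc (f a) (f b) (f i) := by
  unfold cyc
  rw [swap_apply_apply, swap_apply_apply]
  group

private theorem cyc_a {ι : Type} [DecidableEq ι] {a b i : ι} (hab : a ≠ b) (hai : a ≠ i) :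
    cyc a b i a = b := by
  rw [cyc, Perm.mul_apply, swap_apply_of_ne_of_ne hab hai, swap_apply_left]

private theorem cyc_b {ι : Type} [DecidableEq ι] {a b i : ι} (hai : a ≠ i) (hbi : b ≠ i) :
    cyc a b i b = i := by
  rw [cyc, Perm.mul_apply, swap_apply_left, swap_apply_of_ne_of_ne hai.symm hbi.symm]

private theorem cyc_i {ι : Type} [DecidableEq ι] (a b i : ι) :
    cyc a b i i = a := by
  rw [cyc, Perm.mul_apply, swap_apply_right, swap_apply_right]

private theorem cyc_o {ι : Type} [DecidableEq ι] {a b i x : ι} (ha : x ≠ a) (hb : x ≠ b)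
    (hi : x ≠ i) : cyc a b i x = x := by
  rw [cyc, Perm.mul_apply, swap_apply_of_ne_of_ne hb hi, swap_apply_of_ne_of_ne ha hb]

theorem cyc_rot {ι : Type} [DecidableEq ι] {a b i : ι} (hab : a ≠ b) (hai : a ≠ i) (hbi : b ≠ i) :
    cyc a b i = cyc b i a := by
  ext x
  by_cases h1 : x = a
  · subst h1
    rw [cyc_a hab hai, cyc_i]
  · by_cases h2 : x = b
    · subst h2
      rw [cyc_b hai hbi, cyc_a hbi hab.symm]
    · by_cases h3 : x = i
      · subst h3
        rw [cyc_i, cyc_b hab.symm hai.symm]
      · rw [cyc_o h1 h2 h3, cyc_o h2 h3 h1]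

theorem cyc_inv {ι : Type} [DecidableEq ι] {a b i : ι} (hab : a ≠ b) (hai : a ≠ i) (hbi : b ≠ i) :
    (cyc a b i)⁻¹ = cyc b a i := by
  rw [inv_eq_iff_mul_eq_one]
  ext x
  rw [Perm.mul_apply, Perm.one_apply]
  by_cases h1 : x = a
  · subst h1
    rw [cyc_b hbi hai, cyc_i]
  · by_cases h2 : x = b
    · subst h2
      rw [cyc_a hab.symm hbi, cyc_a hab hai]
    · by_cases h3 : x = i
      · subst h3
        rw [cyc_i, cyc_b hai hbi]
      · rw [cyc_o h2 h1 h3, cyc_o h1 h2 h3]

theorem cyc_three {ι : Type} [Fintype ι] [DecidableEq ι] {a b i : ι} (hab : a ≠ b) (hai : a ≠ i)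
    (hbi : b ≠ i) : (cyc a b i).IsThreeCycle := by
  unfold cyc
  rw [swap_comm a b]
  exact Perm.isThreeCycle_swap_mul_swap_same hab.symm hbi hai

/-- every 3-cycle is of this form -/
theorem exists_cyc {ι : Type} [Fintype ι] [DecidableEq ι] {c : Perm ι} (hc : c.IsThreeCycle) :
    ∃ a b i, a ≠ b ∧ a ≠ i ∧ b ≠ i ∧ c = cyc a b i := by
  obtain ⟨x, hx, _⟩ := hc.isCycle
  have h3 : c ^ 3 = 1 := by
    have h := pow_orderOf_eq_one c
    rwa [hc.orderOf] at h
  have h3x : c (c (c x)) = x := by
    have h := congrArg (fun g : Perm ι => g x) h3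
    simpa [pow_succ, Perm.mul_apply] using h
  have h12 : x ≠ c x := fun h => hx h.symm
  have h23 : c x ≠ c (c x) := fun h => hx (c.injective h).symm
  have h13 : x ≠ c (c x) := by
    intro h
    have h4 := congrArg c h
    rw [h3x] at h4
    exact hx h4
  refine ⟨x, c x, c (c x), h12, h13, h23, ?_⟩
  have hsub : ({x, c x, c (c x)} : Finset ι) ⊆ c.support := by
    intro y hy
    simp only [Finset.mem_insert, Finset.mem_singleton] at hy
    rw [Perm.mem_support]
    rcases hy with rfl | rfl | rfl
    · exact hx
    · exact h23.symm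
    · rw [h3x]; exact h13
  have hcard : ({x, c x, c (c x)} : Finset ι).card = 3 := by
    rw [Finset.card_insert_of_notMem, Finset.card_insert_of_notMem, Finset.card_singleton]
    · simpa using h23
    · simp only [Finset.mem_insert, Finset.mem_singleton, not_or]
      exact ⟨h12, h13⟩
  have heq : ({x, c x, c (c x)} : Finset ι) = c.support := by
    refine Finset.eq_of_subset_of_card_le hsub ?_
    rw [hcard, hc.card_support]
  ext y
  by_cases h1 : y = x
  · subst h1
    rw [cyc_a h12 h13]
  · by_cases h2 : y = c x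
    · rw [h2, cyc_b h13 h23]
    · by_cases h3' : y = c (c x)
      · rw [h3', cyc_i, h3x]
      · rw [cyc_o h1 h2 h3']
        have h4 : y ∉ c.support := by
          rw [← heq]
          simp only [Finset.mem_insert, Finset.mem_singleton, not_or]
          exact ⟨h1, h2, h3'⟩
        exact Perm.notMem_support.1 h4

theorem gen3 {ι : Type} [Fintype ι] [DecidableEq ι] {a b : ι} (hab : a ≠ b) :
    Subgroup.closure {c : Perm ι | ∃ i, i ≠ a ∧ i ≠ b ∧ c = cyc a b i} = alternatingGroup ι := by
  set G := Subgroup.closure {c : Perm ι | ∃ i, i ≠ a ∧ i ≠ b ∧ c = cyc a b i} with hG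
  have hmem : ∀ i, i ≠ a → i ≠ b → cyc a b i ∈ G := fun i h1 h2 =>
    Subgroup.subset_closure ⟨i, h1, h2, rfl⟩
  apply le_antisymm
  · rw [hG, Subgroup.closure_le]
    rintro _ ⟨i, h1, h2, rfl⟩
    exact (cyc_three hab h1.symm h2.symm).mem_alternatingGroup
  · rw [← Perm.closure_three_cycles_eq_alternating, Subgroup.closure_le]
    intro c hc
    by_cases hex : ∃ i, i ≠ a ∧ i ≠ b
    · obtain ⟨i₀, hia, hib⟩ := hex
      -- elements normalizing `G`
      have hone : ∀ f : Perm ι, (∀ i, i ≠ a → i ≠ b → cyc (f a) (f b) (f i) ∈ G) →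
          ∀ h ∈ G, f * h * f⁻¹ ∈ G := by
        intro f hf h hh
        have h1 : G ≤ G.comap (MulAut.conj f).toMonoidHom := by
          conv_lhs => rw [hG]
          rw [Subgroup.closure_le]
          rintro _ ⟨i, h1, h2, rfl⟩
          change f * cyc a b i * f⁻¹ ∈ G
          rw [cyc_conj]
          exact hf i h1 h2
        exact h1 hh
      have hsw : ∀ f : Perm ι, f⁻¹ = f → (∀ i, i ≠ a → i ≠ b → cyc (f a) (f b) (f i) ∈ G) →
          f ∈ Subgroup.normalizer (G : Set (Perm ι)) := by
        intro f hf1 hf
        rw [Subgroup.mem_normalizer_iff]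
        intro h
        refine ⟨fun hh => hone f hf h hh, fun hh => ?_⟩
        have h1 := hone f hf _ hh
        have h2 : f * (f * h * f⁻¹) * f⁻¹ = h := by
          have h3 : f * f = 1 := by
            nth_rewrite 1 [← hf1]
            exact inv_mul_cancel f
          rw [hf1, mul_assoc, mul_assoc, mul_assoc, h3, mul_one, ← mul_assoc, h3, one_mul]
        rw [h2] at h1
        exact h1
      have sab : swap a b ∈ Subgroup.normalizer (G : Set (Perm ι)) := by
        refine hsw _ (swap_inv a b) (fun i h1 h2 => ?_)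
        rw [swap_apply_left, swap_apply_right, swap_apply_of_ne_of_ne h1 h2,
          ← cyc_inv hab h1.symm h2.symm]
        exact inv_mem (hmem i h1 h2)
      have sij : ∀ i j, i ≠ a → i ≠ b → j ≠ a → j ≠ b →
          swap i j ∈ Subgroup.normalizer (G : Set (Perm ι)) := by
        intro i j h1 h2 h3 h4
        refine hsw _ (swap_inv i j) (fun k h5 h6 => ?_)
        rw [swap_apply_of_ne_of_ne h1.symm h3.symm, swap_apply_of_ne_of_ne h2.symm h4.symm]
        refine hmem _ ?_ ?_
        · intro h
          have h7 := congrArg (swap i j) h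
          rw [swap_apply_self, swap_apply_of_ne_of_ne h1.symm h3.symm] at h7
          exact h5 h7
        · intro h
          have h7 := congrArg (swap i j) h
          rw [swap_apply_self, swap_apply_of_ne_of_ne h2.symm h4.symm] at h7
          exact h6 h7
      have hGN : ∀ g ∈ G, g ∈ Subgroup.normalizer (G : Set (Perm ι)) := fun g hg =>
        Subgroup.le_normalizer hg
      have sbi : ∀ i, i ≠ a → i ≠ b → swap b i ∈ Subgroup.normalizer (G : Set (Perm ι)) := by
        intro i h1 h2
        have h3 := mul_mem (mul_mem (hGN _ (hmem i h1 h2)) sab) (inv_mem (hGN _ (hmem i h1 h2)))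
        rwa [← swap_apply_apply, cyc_a hab h1.symm, cyc_b h1.symm h2.symm] at h3
      have sia : ∀ i, i ≠ a → i ≠ b → swap i a ∈ Subgroup.normalizer (G : Set (Perm ι)) := by
        intro i h1 h2
        have h3 := mul_mem (mul_mem (hGN _ (hmem i h1 h2)) (sbi i h1 h2))
          (inv_mem (hGN _ (hmem i h1 h2)))
        rwa [← swap_apply_apply, cyc_b h1.symm h2.symm, cyc_i] at h3
      have sall : ∀ x y, x ≠ y → swap x y ∈ Subgroup.normalizer (G : Set (Perm ι)) := by
        intro x y hxy
        by_cases hxa : x = a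
        · subst hxa
          by_cases hyb : y = b
          · subst hyb; exact sab
          · rw [swap_comm]; exact sia y hxy.symm hyb
        · by_cases hxb : x = b
          · subst hxb
            by_cases hya : y = a
            · subst hya; rw [swap_comm]; exact sab
            · exact sbi y hya hxy.symm
          · by_cases hya : y = a
            · subst hya; exact sia x hxa hxb
            · by_cases hyb : y = b
              · subst hyb; rw [swap_comm]; exact sbi x hxa hxb
              · exact sij x y hxa hxb hya hyb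
      have htop : Subgroup.normalizer (G : Set (Perm ι)) = ⊤ := by
        rw [eq_top_iff, ← Perm.closure_isSwap, Subgroup.closure_le]
        rintro _ ⟨x, y, hxy, rfl⟩
        exact sall x y hxy
      have h5 : IsConj (cyc a b i₀) c := by
        rw [Perm.isConj_iff_cycleType_eq]
        rw [(cyc_three hab hia.symm hib.symm : (cyc a b i₀).cycleType = {3}),
          (hc : c.cycleType = {3})]
      obtain ⟨f, hf⟩ := isConj_iff.1 h5
      have h6 : f ∈ Subgroup.normalizer (G : Set (Perm ι)) := by rw [htop]; trivial
      have h7 := (Subgroup.mem_normalizer_iff.1 h6 (cyc a b i₀)).1 (hmem i₀ hia hib)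
      change c ∈ G
      rwa [hf] at h7
    · exfalso
      obtain ⟨x, y, z, hxy, hxz, hyz, _⟩ := exists_cyc hc
      have h1 : ∀ t, t = a ∨ t = b := by
        intro t
        by_contra h
        rw [not_or] at h
        exact hex ⟨t, h.1, h.2⟩
      rcases h1 x with h | h <;> rcases h1 y with h' | h' <;> rcases h1 z with h'' | h'' <;>
        simp_all

end Pool.Agent.Helper57.AN
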