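import Pool.Agent.Helper57.AN.AutA
import Pool.Agent.Helper57.AN.Gen3

/-!
# AN-G08 AutB: automorphisms of the alternating group are conjugations (degree at least 8)

`pair`: two different 3-cycles `x, y` with `(x y) ^ 2 = 1` and `x y ≠ 1` have the form `cyc p q r`, `cyc p q s` with `p, q, r, s` different.
PROOF. `exists_cyc` for `x` and `y`. `x y` is an even permutation with square `1`, not `1`. Case distinction on the intersection of the supports (or on how many of the three
points of `y` are points of `x`): disjoint supports: `x y` has order 3. One common point `a`: write `x = cyc a b c`, `y = cyc a d e` (`cyc_rot`): `x y` maps `e ↦ a ↦ b`, `b ↦ c`; `(x y) ^ 2 e = c ≠ e`.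
Two common points: `x = cyc p q r`, and up to `cyc_rot` `y = cyc p q s` or `y = cyc q p s`; in the second case `x y`: `p ↦ s`, `s ↦ q ↦ r`, so `(x y) ^ 2 p = r ≠ p`. Three common points:
`y = x` or `y = x⁻¹`: excluded.
(For different `p, q, r, s`: `cyc p q r * cyc p q s = swap p r * swap q s`.)

`three`: if `cyc p q r`, `cyc p q s` (`r ≠ s`) and the 3-cycle `y` satisfy the pair condition for `y` with both, then `y = cyc p q t` with `t ≠ p, q, r, s`.
PROOF. `y` with `x = cyc p q r`: they share an ordered pair `(u, y u) = (u, x u)`, both `u, x u` in the supports, so `y p = q` or `y q = r` or `y r = p`. With `cyc p q s`: `y p = q` or `y q = s` or `y s = p`.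
If `y p ≠ q` then (`y q = r` or `y r = p`) and (`y q = s` or `y s = p`): `y q = r = s` impossible; `y q = r` and `y s = p`: the support of `y` contains `q, r, s, p`: four points, impossible; `y r = p = y s` impossible; `y r = p`, `y q = s`: again four points.
So `y p = q` and `y = cyc p q t` with `t = y q`.

`aut_alt`: choose `a ≠ b`. For `i ≠ a, b` let `c i = cyc a b i ∈ A`, `y i = α (c i)`, a 3-cycle (`aut_three`). For `i ≠ j`: `(c i c j) ^ 2 = 1`, `c i c j ≠ 1`, `c i ≠ c j`, so the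
same for `y i`, `y j`. Fix two indices `i1 ≠ i2`: `y i1 = cyc p q r`, `y i2 = cyc p q s` (`pair`). By `three` every `y i` is `cyc p q (t i)`; `t` is injective
(`α` is), `t i ≠ p, q`. Let `s : ι → ι`, `a ↦ p`, `b ↦ q`, `i ↦ t i`: injective, so a permutation (`Equiv.ofBijective`, `Finite.injective_iff_bijective`). `α (c i) = s (c i) s⁻¹` (`cyc_conj`). The set of `x ∈ A` with
`α x = s x s⁻¹` is a subgroup, it contains the `c i`, which generate `A` (`gen3`).
-/

set_option autoImplicit false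

open Equiv

namespace Pool.Agent.Helper57.AN

private theorem cyc_fst {ι : Type} [DecidableEq ι] {a b i : ι} (hab : a ≠ b) (hai : a ≠ i) :
    cyc a b i a = b := by
  rw [cyc, Perm.mul_apply, swap_apply_of_ne_of_ne hab hai, swap_apply_left]

private theorem cyc_snd {ι : Type} [DecidableEq ι] {a b i : ι} (hai : a ≠ i) (hbi : b ≠ i) :
    cyc a b i b = i := by
  rw [cyc, Perm.mul_apply, swap_apply_left, swap_apply_of_ne_of_ne hai.symm hbi.symm]

private theorem cyc_thd {ι : Type} [DecidableEq ι] (a b i : ι) : cyc a b i i = a := by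
  rw [cyc, Perm.mul_apply, swap_apply_right, swap_apply_right]

private theorem cyc_other {ι : Type} [DecidableEq ι] {a b i z : ι} (ha : z ≠ a) (hb : z ≠ b)
    (hi : z ≠ i) : cyc a b i z = z := by
  rw [cyc, Perm.mul_apply, swap_apply_of_ne_of_ne hb hi, swap_apply_of_ne_of_ne ha hb]

/-- a 3-cycle with `y p = q` -/
private theorem cyc_of {ι : Type} [Fintype ι] [DecidableEq ι] {y : Perm ι} (hy : y.IsThreeCycle)
    {p q : ι} (hpq : p ≠ q) (h : y p = q) :
    y q ≠ p ∧ y q ≠ q ∧ y = cyc p q (y q) ∧ y (y q) = p := by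
  obtain ⟨a, b, i, hab, hai, hbi, rfl⟩ := exists_cyc hy
  by_cases h1 : p = a
  · subst h1
    rw [cyc_fst hab hai] at h
    subst h
    rw [cyc_snd hai hbi]
    exact ⟨hai.symm, hbi.symm, rfl, cyc_thd _ _ _⟩
  by_cases h2 : p = b
  · subst h2
    rw [cyc_snd hai hbi] at h
    subst h
    rw [cyc_thd]
    exact ⟨h1 ∘ Eq.symm, hai, cyc_rot hab hai hbi, cyc_fst hab hai⟩
  by_cases h3 : p = i
  · subst h3
    rw [cyc_thd] at h
    subst h
    rw [cyc_fst hab hai]
    refine ⟨hbi, hab.symm, ?_, cyc_snd hai hbi⟩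
    rw [cyc_rot hab hai hbi, cyc_rot hbi hab.symm hai.symm]
  · exact absurd (h ▸ (cyc_other h1 h2 h3).symm) hpq

private theorem share {ι : Type} [Fintype ι] [DecidableEq ι] {x y : Perm ι} (hx : x.IsThreeCycle)
    (hy : y.IsThreeCycle) (h1 : x * y ≠ 1) (h2 : (x * y) ^ 2 = 1) : ∃ p, x p ≠ p ∧ x p = y p := by
  have hxyx : ∀ e, y (x (y (x e))) = e := by
    intro e
    have h3 : y * x * (y * x) = 1 := by
      have h4 : x * y * (x * y) = 1 := by rw [← pow_two]; exact h2
      calc y * x * (y * x) = x⁻¹ * (x * y * (x * y)) * x := by group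
        _ = 1 := by rw [h4]; group
    have h5 := congrArg (fun f : Perm ι => f e) h3
    simpa [Perm.mul_apply] using h5
  obtain ⟨a, b, i, hab, hai, hbi, rfl⟩ := exists_cyc hx
  by_cases hsup : ∃ e, y e ≠ e ∧ cyc a b i e = e
  · obtain ⟨e, he, hxe⟩ := hsup
    -- `y (x (y e)) = e`
    have h3 := hxyx e
    rw [hxe] at h3
    obtain ⟨g1, g2, g3, h4⟩ := cyc_of hy (Ne.symm he) rfl
    have h5 : cyc a b i (y e) = y (y e) := y.injective (h3.trans h4.symm)
    exact ⟨y e, by rw [h5]; exact g2, h5⟩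
  · push Not at hsup
    have hin : ∀ e, y e ≠ e → e = a ∨ e = b ∨ e = i := by
      intro e he
      by_contra hcon
      push Not at hcon
      exact hsup e he (cyc_other hcon.1 hcon.2.1 hcon.2.2)
    have hsub : y.support ⊆ (cyc a b i).support := by
      intro e he
      rw [Perm.mem_support] at he ⊢
      rcases hin e he with rfl | rfl | rfl
      · rw [cyc_fst hab hai]; exact hab.symm
      · rw [cyc_snd hai hbi]; exact hbi.symm
      · rw [cyc_thd]; exact hai
    have heq : y.support = (cyc a b i).support := by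
      apply Finset.eq_of_subset_of_card_le hsub
      rw [hx.card_support, hy.card_support]
    have ha : y a ≠ a := by
      have h3 : a ∈ (cyc a b i).support := by
        rw [Perm.mem_support, cyc_fst hab hai]
        exact hab.symm
      rw [← heq, Perm.mem_support] at h3
      exact h3
    rcases hin (y a) (fun h => ha (y.injective h)) with h3 | h3 | h3
    · exact absurd h3 ha
    · exact ⟨a, by rw [cyc_fst hab hai]; exact hab.symm, by rw [cyc_fst hab hai, h3]⟩
    · exfalso
      apply h1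
      obtain ⟨g1, g2, g3, -⟩ := cyc_of hy hai h3
      rcases hin (y i) (fun h => g2 (y.injective h)) with h4 | h4 | h4
      · exact absurd h4 g1
      · rw [g3, h4, cyc_rot hai hab hbi.symm, cyc_rot hbi.symm hai.symm hab.symm,
          ← cyc_inv hab hai hbi, mul_inv_cancel]
      · exact absurd h4 g2

theorem pair {ι : Type} [Fintype ι] [DecidableEq ι] {x y : Perm ι} (hx : x.IsThreeCycle)
    (hy : y.IsThreeCycle) (hne : x ≠ y) (h1 : x * y ≠ 1) (h2 : (x * y) ^ 2 = 1) :
    ∃ p q r s, p ≠ q ∧ p ≠ r ∧ p ≠ s ∧ q ≠ r ∧ q ≠ s ∧ r ≠ s ∧ x = cyc p q r ∧ y = cyc p q s := by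
  obtain ⟨p, hp, hxy⟩ := share hx hy h1 h2
  obtain ⟨a1, a2, a3, -⟩ := cyc_of hx (Ne.symm hp) rfl
  obtain ⟨b1, b2, b3, -⟩ := cyc_of hy (Ne.symm hp) hxy.symm
  refine ⟨p, x p, x (x p), y (x p), Ne.symm hp, Ne.symm a1, Ne.symm b1, Ne.symm a2, Ne.symm b2,
    ?_, a3, b3⟩
  intro h
  apply hne
  rw [a3, b3, ← h]

theorem three {ι : Type} [Fintype ι] [DecidableEq ι] {p q r s : ι} (hpq : p ≠ q) (hpr : p ≠ r)
    (hps : p ≠ s) (hqr : q ≠ r) (hqs : q ≠ s) (hrs : r ≠ s) {y : Perm ι} (hy : y.IsThreeCycle)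
    (h1 : cyc p q r ≠ y ∧ cyc p q r * y ≠ 1 ∧ (cyc p q r * y) ^ 2 = 1)
    (h2 : cyc p q s ≠ y ∧ cyc p q s * y ≠ 1 ∧ (cyc p q s * y) ^ 2 = 1) :
    ∃ t, t ≠ p ∧ t ≠ q ∧ y = cyc p q t := by
  have key : ∀ r : ι, p ≠ r → q ≠ r →
      (cyc p q r ≠ y ∧ cyc p q r * y ≠ 1 ∧ (cyc p q r * y) ^ 2 = 1) →
      y p = q ∨ y q = r ∨ y r = p := by
    intro r hpr hqr h
    obtain ⟨u, hu, hxu⟩ := share (cyc_three hpq hpr hqr) hy h.2.1 h.2.2
    by_cases e1 : u = p
    · subst e1
      left
      rw [← hxu, cyc_fst hpq hpr]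
    by_cases e2 : u = q
    · subst e2
      right; left
      rw [← hxu, cyc_snd hpr hqr]
    by_cases e3 : u = r
    · subst e3
      right; right
      rw [← hxu, cyc_thd]
    · exact absurd (cyc_other e1 e2 e3) hu
  by_cases hp : y p = q
  · obtain ⟨a1, a2, a3, -⟩ := cyc_of hy hpq hp
    exact ⟨y q, a1, a2, a3⟩
  exfalso
  have moved : ∀ a b e : ι, a ≠ b → y a = b → y e ≠ e → e ≠ a → e ≠ b → e = y b := by
    intro a b e hab h he h3 h4
    obtain ⟨-, -, a3, -⟩ := cyc_of hy hab h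
    by_contra h5
    apply he
    rw [a3]
    exact cyc_other h3 h4 h5
  rcases key r hpr hqr h1 with h | h | h
  · exact hp h
  · rcases key s hps hqs h2 with h' | h' | h'
    · exact hp h'
    · exact hrs (h.symm.trans h')
    · -- `y q = r`, `y s = p`
      have h3 := moved q r s hqr h (by rw [h']; exact hps) hqs.symm hrs.symm
      obtain ⟨-, -, -, a3⟩ := cyc_of hy hqr h
      have h4 : y s = q := by
        rw [h3]
        exact a3
      exact hpq (h'.symm.trans h4)
  · rcases key s hps hqs h2 with h' | h' | h'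
    · exact hp h'
    · exact hp (moved r p q hpr.symm h (by rw [h']; exact hqs.symm) hqr hpq.symm).symm
    · exact hrs (y.injective (h.trans h'.symm))

/-- the product of two of the generators -/
private theorem prod_sq {ι : Type} [Fintype ι] [DecidableEq ι] {a b i j : ι} (hab : a ≠ b)
    (hai : a ≠ i) (hbi : b ≠ i) (haj : a ≠ j) (hbj : b ≠ j) (hij : i ≠ j) :
    (cyc a b i * cyc a b j) ^ 2 = 1 := by
  have ha : (cyc a b i * cyc a b j) a = i := by
    rw [Perm.mul_apply, cyc_fst hab haj, cyc_snd hai hbi]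
  have hi : (cyc a b i * cyc a b j) i = a := by
    rw [Perm.mul_apply, cyc_other hai.symm hbi.symm hij, cyc_thd]
  have hb : (cyc a b i * cyc a b j) b = j := by
    rw [Perm.mul_apply, cyc_snd haj hbj, cyc_other haj.symm hbj.symm hij.symm]
  have hj : (cyc a b i * cyc a b j) j = b := by
    rw [Perm.mul_apply, cyc_thd, cyc_fst hab hai]
  ext z
  rw [pow_two, Perm.mul_apply, Perm.one_apply]
  by_cases h1 : z = a
  · rw [h1, ha, hi]
  by_cases h2 : z = b
  · rw [h2, hb, hj]
  by_cases h3 : z = i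
  · rw [h3, hi, ha]
  by_cases h4 : z = j
  · rw [h4, hj, hb]
  · have h5 : (cyc a b i * cyc a b j) z = z := by
      rw [Perm.mul_apply, cyc_other h1 h2 h4, cyc_other h1 h2 h3]
    rw [h5, h5]

theorem aut_alt {ι : Type} [Fintype ι] [DecidableEq ι] (h8 : 8 ≤ Fintype.card ι)
    (α : MulAut (alternatingGroup ι)) :
    ∃ s : Perm ι, ∀ x : alternatingGroup ι, ((α x : alternatingGroup ι) : Perm ι) =
      s * x * s⁻¹ := by
  obtain ⟨a, b, hab⟩ : ∃ a b : ι, a ≠ b := by
    have : 1 < Fintype.card ι := by omega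
    exact Fintype.exists_pair_of_one_lt_card this
  -- two more points
  obtain ⟨i1, hi1⟩ : ∃ i1, i1 ∉ ({a, b} : Finset ι) := by
    by_contra hcon
    push Not at hcon
    have h1 : Fintype.card ι ≤ ({a, b} : Finset ι).card :=
      Finset.card_le_card (fun x _ => hcon x)
    have h2 := Finset.card_le_two (a := a) (b := b)
    omega
  obtain ⟨i2, hi2⟩ : ∃ i2, i2 ∉ ({a, b, i1} : Finset ι) := by
    by_contra hcon
    push Not at hcon
    have h1 : Fintype.card ι ≤ ({a, b, i1} : Finset ι).card :=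
      Finset.card_le_card (fun x _ => hcon x)
    have h2 := Finset.card_le_three (a := a) (b := b) (c := i1)
    omega
  simp only [Finset.mem_insert, Finset.mem_singleton, not_or] at hi1 hi2
  obtain ⟨hi1a, hi1b⟩ := hi1
  obtain ⟨hi2a, hi2b, hi21⟩ := hi2
  -- the generators
  have hmem : ∀ i, i ≠ a → i ≠ b → cyc a b i ∈ alternatingGroup ι := by
    intro i hia hib
    rw [Perm.mem_alternatingGroup]
    exact (cyc_three hab hia.symm hib.symm).sign
  obtain ⟨J, hJ⟩ : ∃ J : Type, J = {i : ι // i ≠ a ∧ i ≠ b} := ⟨_, rfl⟩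
  subst hJ
  obtain ⟨c, hc⟩ : ∃ c : {i : ι // i ≠ a ∧ i ≠ b} → alternatingGroup ι,
      ∀ i, (c i : Perm ι) = cyc a b i := ⟨fun i => ⟨_, hmem i.1 i.2.1 i.2.2⟩, fun i => rfl⟩
  have hcinj : ∀ i j, c i = c j → i = j := by
    intro i j h
    have h1 : cyc a b i = cyc a b j := by rw [← hc, ← hc, h]
    have h2 := congrArg (fun f : Perm ι => f b) h1
    simp only [cyc_snd i.2.1.symm i.2.2.symm, cyc_snd j.2.1.symm j.2.2.symm] at h2
    exact Subtype.ext h2
  have hy3 : ∀ i, ((α (c i) : alternatingGroup ι) : Perm ι).IsThreeCycle := by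
    intro i
    apply aut_three h8
    rw [hc]
    exact cyc_three hab i.2.1.symm i.2.2.symm
  have hyne : ∀ i j, i ≠ j → ((α (c i) : alternatingGroup ι) : Perm ι) ≠ α (c j) := by
    intro i j hij h
    exact hij (hcinj i j (α.injective (Subtype.ext h)))
  have hcc : ∀ i j, i ≠ j → c i * c j ≠ 1 ∧ (c i * c j) ^ 2 = 1 := by
    intro i j hij
    have hij' : (i : ι) ≠ j := fun h => hij (Subtype.ext h)
    constructor
    · intro h
      have h1 : cyc a b i * cyc a b j = 1 := by
        rw [← hc, ← hc, ← Subgroup.coe_mul, h, Subgroup.coe_one]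
      have h2 := congrArg (fun f : Perm ι => f a) h1
      simp only [Perm.mul_apply, cyc_fst hab j.2.1.symm, cyc_snd i.2.1.symm i.2.2.symm,
        Perm.one_apply] at h2
      exact i.2.1 h2
    · apply Subtype.ext
      rw [Subgroup.coe_pow, Subgroup.coe_mul, hc, hc, Subgroup.coe_one]
      exact prod_sq hab i.2.1.symm i.2.2.symm j.2.1.symm j.2.2.symm hij'
  have hyy : ∀ i j, i ≠ j → ((α (c i) : alternatingGroup ι) : Perm ι) * α (c j) ≠ 1 ∧
      (((α (c i) : alternatingGroup ι) : Perm ι) * α (c j)) ^ 2 = 1 := by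
    intro i j hij
    obtain ⟨h1, h2⟩ := hcc i j hij
    constructor
    · intro h
      apply h1
      apply α.injective
      rw [map_mul, map_one]
      apply Subtype.ext
      rw [Subgroup.coe_mul, h, Subgroup.coe_one]
    · rw [← Subgroup.coe_mul, ← map_mul, ← Subgroup.coe_pow, ← map_pow, h2, map_one,
        Subgroup.coe_one]
  -- the images
  have h12 : (⟨i1, hi1a, hi1b⟩ : {i : ι // i ≠ a ∧ i ≠ b}) ≠ ⟨i2, hi2a, hi2b⟩ := by
    intro h
    exact hi21 (congrArg Subtype.val h).symm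
  obtain ⟨p, q, r, s, hpq, hpr, hps, hqr, hqs, hrs, e1, e2⟩ :=
    pair (hy3 ⟨i1, hi1a, hi1b⟩) (hy3 ⟨i2, hi2a, hi2b⟩) (hyne _ _ h12) (hyy _ _ h12).1
      (hyy _ _ h12).2
  have ht : ∀ i : {i : ι // i ≠ a ∧ i ≠ b}, ∃ t, t ≠ p ∧ t ≠ q ∧
      ((α (c i) : alternatingGroup ι) : Perm ι) = cyc p q t := by
    intro i
    by_cases g1 : (⟨i1, hi1a, hi1b⟩ : {i : ι // i ≠ a ∧ i ≠ b}) = i
    · exact ⟨r, hpr.symm, hqr.symm, by rw [← g1, e1]⟩
    by_cases g2 : (⟨i2, hi2a, hi2b⟩ : {i : ι // i ≠ a ∧ i ≠ b}) = i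
    · exact ⟨s, hps.symm, hqs.symm, by rw [← g2, e2]⟩
    have g3 := hyne _ _ g1
    have g4 := hyy _ _ g1
    have g5 := hyne _ _ g2
    have g6 := hyy _ _ g2
    rw [e1] at g3 g4
    rw [e2] at g5 g6
    exact three hpq hpr hps hqr hqs hrs (hy3 i) ⟨g3, g4⟩ ⟨g5, g6⟩
  choose t htp htq hty using ht
  have htinj : ∀ i j, t i = t j → i = j := by
    intro i j h
    by_contra hij
    exact hyne i j hij (by rw [hty, hty, h])
  obtain ⟨f, hf⟩ : ∃ f : ι → ι, f = fun z =>
      if h1 : z = a then p else if h2 : z = b then q else t ⟨z, h1, h2⟩ := ⟨_, rfl⟩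
  have hfa : f a = p := by rw [hf]; simp
  have hfb : f b = q := by rw [hf]; simp [hab.symm]
  have hft : ∀ i : {i : ι // i ≠ a ∧ i ≠ b}, f i = t i := by
    intro i
    rw [hf]
    simp only [dif_neg i.2.1, dif_neg i.2.2]
  have hcase : ∀ z, z = a ∨ z = b ∨ ∃ i : {i : ι // i ≠ a ∧ i ≠ b}, z = i := by
    intro z
    by_cases h1 : z = a
    · exact Or.inl h1
    by_cases h2 : z = b
    · exact Or.inr (Or.inl h2)
    · exact Or.inr (Or.inr ⟨⟨z, h1, h2⟩, rfl⟩)
  have hfinj : Function.Injective f := by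
    intro z w h
    rcases hcase z with rfl | rfl | ⟨i, rfl⟩ <;> rcases hcase w with rfl | rfl | ⟨j, rfl⟩
    · rfl
    · exact absurd (hfa.symm.trans (h.trans hfb)) hpq
    · exact absurd (hfa.symm.trans (h.trans (hft j))).symm (htp j)
    · exact absurd (hfa.symm.trans (h.symm.trans hfb)) hpq
    · rfl
    · exact absurd (hfb.symm.trans (h.trans (hft j))).symm (htq j)
    · exact absurd ((hft i).symm.trans (h.trans hfa)) (htp i)
    · exact absurd ((hft i).symm.trans (h.trans hfb)) (htq i)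
    · rw [htinj i j ((hft i).symm.trans (h.trans (hft j)))]
  obtain ⟨σ, hσ⟩ : ∃ σ : Perm ι, ∀ z, σ z = f z :=
    ⟨Equiv.ofBijective f (Finite.injective_iff_bijective.1 hfinj), fun z => rfl⟩
  refine ⟨σ, fun x => ?_⟩
  let f1 : alternatingGroup ι →* Perm ι := (alternatingGroup ι).subtype.comp α.toMonoidHom
  let f2 : alternatingGroup ι →* Perm ι :=
    (MulAut.conj σ).toMonoidHom.comp (alternatingGroup ι).subtype
  have hgen : Subgroup.closure {c : Perm ι | ∃ i, i ≠ a ∧ i ≠ b ∧ c = cyc a b i} ≤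
      (MonoidHom.eqLocus f1 f2).map (alternatingGroup ι).subtype := by
    rw [Subgroup.closure_le]
    rintro _ ⟨i, hia, hib, rfl⟩
    refine ⟨c ⟨i, hia, hib⟩, ?_, hc _⟩
    change ((α (c ⟨i, hia, hib⟩) : alternatingGroup ι) : Perm ι) =
      σ * (c ⟨i, hia, hib⟩ : Perm ι) * σ⁻¹
    rw [hc, cyc_conj, hσ, hσ, hσ, hfa, hfb, hty, ← hft]
  rw [gen3 hab] at hgen
  obtain ⟨e, he, hex⟩ := hgen x.2
  have h1 : e = x := Subtype.ext hex
  rw [h1] at he
  exact he

end Pool.Agent.Helper57.AN
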