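import Pool.Agent.Helper57.AN.Cover
import Pool.Agent.Helper57.AN.AutB

/-!
# AN-G13 AutK: automorphisms of the covers of the alternating groups

`h : Cov π`, `8 ≤ card ι`.
`ker_eq`: `π.ker = center M`: `π` maps the center of `M` to central elements of `alternatingGroup ι` (`h.range`), which is simple and not abelian (`alternatingGroup.isSimpleGroup`; or use a 3-cycle and its conjugates), so with trivial center.
`aut_ext`: `β x = γ x * c x` with `c x = (γ x)⁻¹ β x ∈ π.ker` central; `c` is a homomorphism `M → center M` (commutative), trivial because `M` is perfect.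
`aut_ind`: `β` maps `π.ker = center M` onto itself, so it induces an automorphism of `alternatingGroup ι` (`M ⧸ π.ker ≃* π.range`; or define it with `MonoidHom.liftOfSurjective` / `Function.surjInv` of `π.codRestrict`), to which `aut_alt` applies.
`exists_z`: `cover_bound`: `π.ker` has one or two elements.
`exists_aut`: `π' x = s π(x) s⁻¹` (`(MulAut.conj s).toMonoidHom.comp π`) satisfies `Cov` (the alternating group is normal in `Perm ι`) and has the same kernel. If `|π.ker| = 2`: `cover_unique` for `π', π`: `e` with `π (e x) = π' x`. If `|π.ker| = 1`: `π` and `π'` are injective with the same range: `e x` is the unique element with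
`π (e x) = s π(x) s⁻¹`.
-/

set_option autoImplicit false

open Equiv

namespace Pool.Agent.Helper57.AN

variable {ι : Type} [Fintype ι] [DecidableEq ι] {M : Type} [Group M] {π : M →* Perm ι}

/-- `π` as a map to the alternating group -/
private def rho (h : Cov π) : M →* alternatingGroup ι :=
  π.codRestrict _ (fun x => by rw [← h.range]; exact ⟨x, rfl⟩)

private theorem rho_surj (h : Cov π) : Function.Surjective (rho h) := by
  rintro ⟨y, hy⟩
  rw [← h.range] at hy
  obtain ⟨x, rfl⟩ := hy
  exact ⟨x, rfl⟩

private theorem rho_ker (h : Cov π) : (rho h).ker = π.ker := by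
  ext x
  rw [MonoidHom.mem_ker, MonoidHom.mem_ker]
  constructor
  · intro hx
    exact congrArg Subtype.val hx
  · intro hx
    exact Subtype.ext hx

theorem ker_eq (h : Cov π) (h8 : 8 ≤ Fintype.card ι) : π.ker = Subgroup.center M := by
  refine le_antisymm h.ker ?_
  intro z hz
  have hs : IsSimpleGroup (alternatingGroup ι) :=
    alternatingGroup.isSimpleGroup (by rw [Nat.card_eq_fintype_card]; omega)
  have h1 : rho h z ∈ Subgroup.center (alternatingGroup ι) := by
    rw [Subgroup.mem_center_iff]
    intro g
    obtain ⟨x, rfl⟩ := rho_surj h g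
    rw [← map_mul, ← map_mul, Subgroup.mem_center_iff.1 hz x]
  have h2 : Subgroup.center (alternatingGroup ι) = ⊥ := by
    rcases hs.eq_bot_or_eq_top_of_normal (Subgroup.center (alternatingGroup ι)) inferInstance with
      h3 | h3
    · exact h3
    · exfalso
      have h4 : ∀ a b : alternatingGroup ι, a * b = b * a := by
        intro a b
        have hb : b ∈ Subgroup.center (alternatingGroup ι) := by rw [h3]; trivial
        exact Subgroup.mem_center_iff.1 hb a
      have h5 : commutator (alternatingGroup ι) = ⊤ :=
        commutator_alternatingGroup_eq_top (by rw [Nat.card_eq_fintype_card]; omega)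
      have h6 : commutator (alternatingGroup ι) = ⊥ := by
        rw [eq_bot_iff, commutator_def, Subgroup.commutator_le]
        intro a _ b _
        rw [Subgroup.mem_bot, commutatorElement_eq_one_iff_mul_comm]
        exact h4 a b
      rw [h5] at h6
      exact top_ne_bot h6
  rw [h2, Subgroup.mem_bot] at h1
  rw [← rho_ker h]
  exact MonoidHom.mem_ker.2 h1

theorem aut_ext (h : Cov π) (β γ : MulAut M) (hβ : ∀ x, π (β x) = π (γ x)) : β = γ := by
  have hc : ∀ x, (γ x)⁻¹ * β x ∈ Subgroup.center M := by
    intro x
    apply h.ker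
    rw [MonoidHom.mem_ker, map_mul, map_inv, hβ, inv_mul_cancel]
  let c : M →* Subgroup.center M :=
    { toFun := fun x => ⟨(γ x)⁻¹ * β x, hc x⟩
      map_one' := by
        apply Subtype.ext
        simp
      map_mul' := by
        intro x y
        apply Subtype.ext
        change (γ (x * y))⁻¹ * β (x * y) = (γ x)⁻¹ * β x * ((γ y)⁻¹ * β y)
        rw [map_mul, map_mul, mul_inv_rev]
        have h1 := Subgroup.mem_center_iff.1 (hc x) (γ y)⁻¹
        calc (γ y)⁻¹ * (γ x)⁻¹ * (β x * β y) = ((γ y)⁻¹ * ((γ x)⁻¹ * β x)) * β y := by group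
          _ = (((γ x)⁻¹ * β x) * (γ y)⁻¹) * β y := by rw [h1]
          _ = _ := by group }
  have h2 : c.ker = ⊤ := by
    rw [eq_top_iff]
    rw [← h.perf, Subgroup.commutator_le]
    intro a _ b _
    rw [MonoidHom.mem_ker, map_commutatorElement, commutatorElement_eq_one_iff_mul_comm]
    apply Subtype.ext
    exact (Subgroup.mem_center_iff.1 (c a).2 (c b : M)).symm
  ext x
  have h3 : x ∈ c.ker := by rw [h2]; trivial
  have h4 : (γ x)⁻¹ * β x = 1 := congrArg Subtype.val (MonoidHom.mem_ker.1 h3)
  exact (inv_mul_eq_one.1 h4).symm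

theorem aut_ind (h : Cov π) (h8 : 8 ≤ Fintype.card ι) (β : MulAut M) :
    ∃ s : Perm ι, ∀ x, π (β x) = s * π x * s⁻¹ := by
  have hcen : ∀ x, β x ∈ Subgroup.center M ↔ x ∈ Subgroup.center M := by
    intro x
    rw [Subgroup.mem_center_iff, Subgroup.mem_center_iff]
    constructor
    · intro hx g
      apply β.injective
      rw [map_mul, map_mul, hx]
    · intro hx g
      obtain ⟨g, rfl⟩ := β.surjective g
      rw [← map_mul, ← map_mul, hx]
  have hk : (rho h).ker = ((rho h).comp β.toMonoidHom).ker := by
    ext x
    have h1 : x ∈ ((rho h).comp β.toMonoidHom).ker ↔ β x ∈ (rho h).ker := Iff.rfl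
    rw [h1, rho_ker, ker_eq h h8, hcen]
  have hs2 : Function.Surjective ((rho h).comp β.toMonoidHom) := (rho_surj h).comp β.surjective
  let α : MulAut (alternatingGroup ι) :=
    (QuotientGroup.quotientKerEquivOfSurjective (rho h) (rho_surj h)).symm.trans
      ((QuotientGroup.quotientMulEquivOfEq hk).trans
        (QuotientGroup.quotientKerEquivOfSurjective _ hs2))
  have hα : ∀ x, α (rho h x) = rho h (β x) := by
    intro x
    have h1 : (QuotientGroup.quotientKerEquivOfSurjective (rho h) (rho_surj h)).symm (rho h x) =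
        (x : M ⧸ (rho h).ker) := by
      rw [MulEquiv.symm_apply_eq]
      rfl
    change (QuotientGroup.quotientKerEquivOfSurjective _ hs2)
      ((QuotientGroup.quotientMulEquivOfEq hk)
        ((QuotientGroup.quotientKerEquivOfSurjective (rho h) (rho_surj h)).symm (rho h x))) = _
    rw [h1]
    rfl
  obtain ⟨s, hs⟩ := aut_alt h8 α
  refine ⟨s, fun x => ?_⟩
  have h2 := hs (rho h x)
  rw [hα] at h2
  exact h2

theorem exists_z [Finite M] (h : Cov π) (h8 : 8 ≤ Fintype.card ι) :
    ∃ z : M, z ∈ Subgroup.center M ∧ z * z = 1 ∧ ∀ x, π x = 1 ↔ (x = 1 ∨ x = z) := by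
  have hb := cover_bound h8 h
  by_cases hc : ∃ z, π z = 1 ∧ z ≠ 1
  · obtain ⟨z, hz, hz1⟩ := hc
    have key : ∀ x, π x = 1 → x = 1 ∨ x = z := by
      intro x hx
      by_contra hn
      push Not at hn
      have h3 : 3 ≤ Nat.card π.ker := by
        let f : Fin 3 → π.ker := ![⟨1, one_mem _⟩, ⟨z, hz⟩, ⟨x, hx⟩]
        have hf : Function.Injective f := by
          intro i j hij
          have hij' : ((f i : π.ker) : M) = f j := congrArg Subtype.val hij
          fin_cases i <;> fin_cases j <;> simp [f] at hij' ⊢
          · exact hz1 hij'.symm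
          · exact hn.1 hij'.symm
          · exact hz1 hij'
          · exact hn.2 hij'.symm
          · exact hn.1 hij'
          · exact hn.2 hij'
        have := Nat.card_le_card_of_injective f hf
        rwa [Nat.card_eq_fintype_card, Fintype.card_fin] at this
      omega
    refine ⟨z, h.ker hz, ?_, fun x => ⟨key x, ?_⟩⟩
    · rcases key (z * z) (by rw [map_mul, hz, one_mul]) with h1 | h1
      · exact h1
      · exact absurd (mul_eq_left.1 h1) hz1
    · rintro (rfl | rfl)
      · exact map_one π
      · exact hz
  · push Not at hc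
    refine ⟨1, one_mem _, one_mul 1, fun x => ⟨fun hx => Or.inl (hc x hx), ?_⟩⟩
    rintro (rfl | rfl) <;> exact map_one π

theorem exists_aut [Finite M] (h : Cov π) (h8 : 8 ≤ Fintype.card ι) (s : Perm ι) :
    ∃ α : MulAut M, ∀ x, π (α x) = s * π x * s⁻¹ := by
  let π' : M →* Perm ι := (MulAut.conj s).toMonoidHom.comp π
  have hπ' : ∀ x, π' x = s * π x * s⁻¹ := fun x => rfl
  have hker : π'.ker = π.ker := by
    ext x
    rw [MonoidHom.mem_ker, MonoidHom.mem_ker, hπ', conj_eq_one_iff]
  have hran : π'.range = alternatingGroup ι := by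
    ext y
    constructor
    · rintro ⟨x, rfl⟩
      have h1 : π x ∈ alternatingGroup ι := by rw [← h.range]; exact ⟨x, rfl⟩
      rw [Perm.mem_alternatingGroup] at h1 ⊢
      rw [hπ', map_mul, map_mul, h1, map_inv]
      simp
    · intro hy
      have h1 : s⁻¹ * y * s ∈ π.range := by
        rw [h.range]
        rw [Perm.mem_alternatingGroup] at hy ⊢
        rw [map_mul, map_mul, hy, map_inv]
        simp
      obtain ⟨x, hx⟩ := h1
      refine ⟨x, ?_⟩
      rw [hπ', hx]
      group
  have h' : Cov π' := ⟨h.perf, hran, by rw [hker]; exact h.ker⟩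
  have hb := cover_bound h8 h
  have hpos : 0 < Nat.card π.ker := Nat.card_pos
  rcases (by omega : Nat.card π.ker = 1 ∨ Nat.card π.ker = 2) with h1 | h1
  · have hbot : π.ker = ⊥ := Subgroup.card_eq_one.1 h1
    have hi : Function.Injective π := (MonoidHom.ker_eq_bot_iff π).1 hbot
    have hi' : Function.Injective π' := (MonoidHom.ker_eq_bot_iff π').1 (by rw [hker, hbot])
    let e : M ≃* M := (MonoidHom.ofInjective hi').trans
      ((MulEquiv.subgroupCongr (hran.trans h.range.symm)).trans (MonoidHom.ofInjective hi).symm)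
    refine ⟨e, fun x => ?_⟩
    have h2 : (MonoidHom.ofInjective hi) (e x) =
        (MulEquiv.subgroupCongr (hran.trans h.range.symm)) ((MonoidHom.ofInjective hi') x) :=
      (MonoidHom.ofInjective hi).apply_symm_apply _
    have h3 := congrArg Subtype.val h2
    exact h3
  · obtain ⟨e, he⟩ := cover_unique h8 h' (by rw [hker]; exact h1) h h1
    exact ⟨e, fun x => by rw [he, hπ']⟩

end Pool.Agent.Helper57.AN
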