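import Mathlib

/-!
# AN-G01 Carm: Carmichael's coset enumeration

`Z` is central, `v i ^ 3 = 1`, `(v i * v j) ^ 2 ∈ Z` for `i ≠ j` (`i, j < m`). Then the group generated by `Z` and
the `v i` has at most `(m + 2)! / 2 * |Z|` elements.

PROOF. Induction on `m` (`Fin (m + 1)`: `v ∘ Fin.castSucc` and `v (Fin.last m)`). `m = 0`: the group is `Z`.
Step: let `L` be the group generated by `Z` and the `v i`, `i < m` (the subgroup for `v ∘ Fin.castSucc`), `t = v (last)`, `L'` the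
group for all of `v`. CLAIM: every element of `L'` is in
`U = L ∪ L t ∪ L t ^ 2 ∪ ⋃ j, L t ^ 2 v j`. Then the map from `L × Option (Option (Option (Fin m)))` to `K`, `(l, none) ↦ l`,
`(l, some none) ↦ l t`, `(l, some (some none)) ↦ l t ^ 2`, `(l, some (some (some j))) ↦ l t ^ 2 v j` hits `L'`,
so `|L'| ≤ (m + 3) |L|`, and `2 |L'| ≤ (m + 3) (m + 2)! |Z| = (m + 3)! |Z|`.
CLAIM: `1 ∈ U`, and `U` is closed under right multiplication with `Z` (central, contained in `L`), with `t` and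
with the `v i`, `i < m`; as `x⁻¹ = x ^ 2` for these generators it is closed under right multiplication with their
inverses too (`Subgroup.closure_induction_right` for the set `Z ∪ range v`; `Z ⊔ closure s = closure (Z ∪ s)`).
Relations (`z` denotes some element of `Z`, central): for `i ≠ j` in `Fin (m + 1)`: `v i v j = z (v j)⁻¹ (v i)⁻¹`, and
`(v i v j)⁻¹ = z⁻¹ v i v j`. For `l ∈ L`, `i, j < m`:
(a) `l (v i) ∈ L`, `l t` ok. (b) `(l t) t` ok; `(l t) (v i) = l z (v i)⁻¹ t⁻¹ = (l z (v i)⁻¹) t ^ 2`.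
(c) `(l t ^ 2) t = l`; `(l t ^ 2) (v i)` ok.
(d) `(l t ^ 2 v j) t = l t⁻¹ (v j t) = l t⁻¹ z t⁻¹ (v j)⁻¹ = l z t (v j)⁻¹ = l z (t v j) v j = l z z' (v j)⁻¹ t⁻¹ v j
= (l z z' (v j)⁻¹) t ^ 2 v j`;
`(l t ^ 2 v j) (v j) = l t⁻¹ (v j)⁻¹ = l (v j t)⁻¹ = (l z⁻¹ v j) t`;
`i ≠ j`: `(l t ^ 2 v j) (v i) = l t⁻¹ z (v i)⁻¹ (v j)⁻¹ = l z (v i t)⁻¹ (v j)⁻¹ = l z z' v i t (v j)⁻¹ =
(l z z' v i) (t v j) v j = (l z z' z'' v i (v j)⁻¹) t⁻¹ v j`, i.e. in `L t ^ 2 v j`.
-/

set_option autoImplicit false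

namespace Pool.Agent.Helper57.AN

private theorem ca_inv {K : Type} [Group K] {x : K} (h : x ^ 3 = 1) : x * x = x⁻¹ := by
  rw [eq_inv_iff_mul_eq_one]
  have h1 : x * x * x = x ^ 3 := by rw [pow_succ, pow_two]
  rw [h1, h]

/-- the union of cosets -/
private def caU {K : Type} [Group K] (L : Subgroup K) (t : K) {m : ℕ} (v : Fin m → K) (x : K) :
    Prop :=
  x ∈ L ∨ (∃ l ∈ L, x = l * t) ∨ (∃ l ∈ L, x = l * t⁻¹) ∨ ∃ j, ∃ l ∈ L, x = l * t⁻¹ * v j

private theorem ca_Z {K : Type} [Group K] {L Z : Subgroup K} (hZ : Z ≤ Subgroup.center K)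
    (hZL : Z ≤ L) {t : K} {m : ℕ} {v : Fin m → K} {x z : K} (hz : z ∈ Z) (hx : caU L t v x) :
    caU L t v (x * z) := by
  have hc : ∀ g : K, g * z = z * g := fun g => (Subgroup.mem_center_iff.1 (hZ hz) g)
  rcases hx with h | ⟨l, hl, rfl⟩ | ⟨l, hl, rfl⟩ | ⟨j, l, hl, rfl⟩
  · exact Or.inl (mul_mem h (hZL hz))
  · refine Or.inr (Or.inl ⟨l * z, mul_mem hl (hZL hz), ?_⟩)
    rw [mul_assoc, hc t, mul_assoc]
  · refine Or.inr (Or.inr (Or.inl ⟨l * z, mul_mem hl (hZL hz), ?_⟩))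
    rw [mul_assoc, hc t⁻¹, mul_assoc]
  · refine Or.inr (Or.inr (Or.inr ⟨j, l * z, mul_mem hl (hZL hz), ?_⟩))
    rw [mul_assoc (l * t⁻¹), hc (v j), ← mul_assoc, mul_assoc l, hc t⁻¹, ← mul_assoc]

private theorem ca_t {K : Type} [Group K] {L Z : Subgroup K} (hZ : Z ≤ Subgroup.center K)
    (hZL : Z ≤ L) {t : K} (ht : t ^ 3 = 1) {m : ℕ} {v : Fin m → K} (hv : ∀ i, v i ∈ L)
    (h3 : ∀ i, v i ^ 3 = 1) (htv : ∀ i, (t * v i) ^ 2 ∈ Z) (hvt : ∀ i, (v i * t) ^ 2 ∈ Z) {x : K}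
    (hx : caU L t v x) : caU L t v (x * t) := by
  rcases hx with h | ⟨l, hl, rfl⟩ | ⟨l, hl, rfl⟩ | ⟨j, l, hl, rfl⟩
  · exact Or.inr (Or.inl ⟨x, h, rfl⟩)
  · refine Or.inr (Or.inr (Or.inl ⟨l, hl, ?_⟩))
    rw [mul_assoc, ca_inv ht]
  · refine Or.inl ?_
    rw [inv_mul_cancel_right]
    exact hl
  · refine Or.inr (Or.inr (Or.inr ⟨j, l * (v j * t) ^ 2 * (t * v j) ^ 2 * (v j)⁻¹,
      mul_mem (mul_mem (mul_mem hl (hZL (hvt j))) (hZL (htv j))) (inv_mem (hv j)), ?_⟩))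
    have hc : t⁻¹ * (v j * t) ^ 2 = (v j * t) ^ 2 * t⁻¹ :=
      Subgroup.mem_center_iff.1 (hZ (hvt j)) t⁻¹
    calc l * t⁻¹ * v j * t = l * (t⁻¹ * (v j * t) ^ 2) * t⁻¹ * (v j)⁻¹ := by
          simp only [pow_two]
          group
      _ = l * (v j * t) ^ 2 * (t⁻¹ * t⁻¹) * (v j)⁻¹ := by
          rw [hc]
          simp only [mul_assoc]
      _ = l * (v j * t) ^ 2 * t * (v j * v j) := by
          rw [← ca_inv (h3 j), ← mul_inv_rev, ca_inv ht, inv_inv]
      _ = l * (v j * t) ^ 2 * (t * v j) ^ 2 * (v j)⁻¹ * t⁻¹ * v j := by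
          simp only [pow_two]
          group

private theorem ca_v {K : Type} [Group K] {L Z : Subgroup K} (hZ : Z ≤ Subgroup.center K)
    (hZL : Z ≤ L) {t : K} {m : ℕ} {v : Fin m → K} (hv : ∀ i, v i ∈ L)
    (h3 : ∀ i, v i ^ 3 = 1) (htv : ∀ i, (t * v i) ^ 2 ∈ Z) (hvt : ∀ i, (v i * t) ^ 2 ∈ Z)
    (hvv : ∀ i j, i ≠ j → (v i * v j) ^ 2 ∈ Z) (i : Fin m) {x : K}
    (hx : caU L t v x) : caU L t v (x * v i) := by
  rcases hx with h | ⟨l, hl, rfl⟩ | ⟨l, hl, rfl⟩ | ⟨j, l, hl, rfl⟩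
  · exact Or.inl (mul_mem h (hv i))
  · refine Or.inr (Or.inr (Or.inl ⟨l * (t * v i) ^ 2 * (v i)⁻¹,
      mul_mem (mul_mem hl (hZL (htv i))) (inv_mem (hv i)), ?_⟩))
    simp only [pow_two]
    group
  · exact Or.inr (Or.inr (Or.inr ⟨i, l, hl, rfl⟩))
  · by_cases hij : i = j
    · subst hij
      refine Or.inr (Or.inl ⟨l * ((v i * t) ^ 2)⁻¹ * v i,
        mul_mem (mul_mem hl (inv_mem (hZL (hvt i)))) (hv i), ?_⟩)
      rw [mul_assoc (l * t⁻¹), ca_inv (h3 i)]
      simp only [pow_two]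
      group
    · refine Or.inr (Or.inr (Or.inr ⟨j,
        l * (v j * v i) ^ 2 * ((v i * t) ^ 2)⁻¹ * v i * (t * v j) ^ 2 * (v j)⁻¹,
        mul_mem (mul_mem (mul_mem (mul_mem (mul_mem hl (hZL (hvv j i (Ne.symm hij))))
          (inv_mem (hZL (hvt i)))) (hv i)) (hZL (htv j))) (inv_mem (hv j)), ?_⟩))
      have hc : t⁻¹ * (v j * v i) ^ 2 = (v j * v i) ^ 2 * t⁻¹ :=
        Subgroup.mem_center_iff.1 (hZ (hvv j i (Ne.symm hij))) t⁻¹
      calc l * t⁻¹ * v j * v i = l * (t⁻¹ * (v j * v i) ^ 2) * (v i)⁻¹ * (v j)⁻¹ := by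
            simp only [pow_two]
            group
        _ = l * (v j * v i) ^ 2 * t⁻¹ * (v i)⁻¹ * (v j * v j) := by
            rw [hc, ca_inv (h3 j)]
            simp only [mul_assoc]
        _ = l * (v j * v i) ^ 2 * ((v i * t) ^ 2)⁻¹ * v i * (t * v j) ^ 2 * (v j)⁻¹ * t⁻¹ * v j := by
            simp only [pow_two]
            group

private theorem ca_step {K : Type} [Group K] [Finite K] (Z : Subgroup K)
    (hZ : Z ≤ Subgroup.center K) (m : ℕ)
    (v : Fin (m + 1) → K) (h3 : ∀ i, v i ^ 3 = 1) (h2 : ∀ i j, i ≠ j → (v i * v j) ^ 2 ∈ Z) :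
    Nat.card (Z ⊔ Subgroup.closure (Set.range v) : Subgroup K) ≤
      (m + 3) * Nat.card (Z ⊔ Subgroup.closure (Set.range fun i : Fin m => v i.castSucc) :
        Subgroup K) := by
  classical
  set L : Subgroup K := Z ⊔ Subgroup.closure (Set.range fun i : Fin m => v i.castSucc) with hL
  set t := v (Fin.last m) with ht
  set w : Fin m → K := fun i => v i.castSucc with hw
  have hZL : Z ≤ L := le_sup_left
  have hwL : ∀ i, w i ∈ L := fun i =>
    (le_sup_right : Subgroup.closure (Set.range w) ≤ L) (Subgroup.subset_closure ⟨i, rfl⟩)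
  have hne : ∀ i : Fin m, i.castSucc ≠ Fin.last m := fun i => (Fin.castSucc_lt_last i).ne
  have htv : ∀ i, (t * w i) ^ 2 ∈ Z := fun i => h2 _ _ (hne i).symm
  have hvt : ∀ i, (w i * t) ^ 2 ∈ Z := fun i => h2 _ _ (hne i)
  have hvv : ∀ i j, i ≠ j → (w i * w j) ^ 2 ∈ Z := fun i j hij =>
    h2 _ _ fun h => hij (Fin.castSucc_injective _ h)
  have hstep : ∀ y ∈ ((Z : Set K) ∪ Set.range v), ∀ x, caU L t w x → caU L t w (x * y) := by
    rintro y (hy | ⟨i, rfl⟩) x hx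
    · exact ca_Z hZ hZL hy hx
    · refine Fin.lastCases ?_ (fun j => ?_) i
      · exact ca_t hZ hZL (h3 _) hwL (fun i => h3 _) htv hvt hx
      · exact ca_v hZ hZL hwL (fun i => h3 _) htv hvt hvv j hx
  have hstep' : ∀ y ∈ ((Z : Set K) ∪ Set.range v), ∀ x, caU L t w x → caU L t w (x * y⁻¹) := by
    rintro y (hy | ⟨i, rfl⟩) x hx
    · exact ca_Z hZ hZL (inv_mem hy) hx
    · rw [← ca_inv (h3 i), ← mul_assoc]
      exact hstep _ (Or.inr ⟨i, rfl⟩) _ (hstep _ (Or.inr ⟨i, rfl⟩) _ hx)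
  have hcl : (Z ⊔ Subgroup.closure (Set.range v) : Subgroup K) =
      Subgroup.closure ((Z : Set K) ∪ Set.range v) := by
    rw [Subgroup.closure_union, Subgroup.closure_eq]
  have hall : ∀ x ∈ (Z ⊔ Subgroup.closure (Set.range v) : Subgroup K), caU L t w x := by
    intro x hx
    rw [hcl] at hx
    induction hx using Subgroup.closure_induction_right with
    | one => exact Or.inl (one_mem L)
    | mul_right x _ y hy ih => exact hstep y hy x ih
    | mul_inv_cancel x _ y hy ih => exact hstep' y hy x ih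
  -- counting
  let c : Option (Option (Option (Fin m))) → K := fun o =>
    match o with
    | none => 1
    | some none => t
    | some (some none) => t⁻¹
    | some (some (some j)) => t⁻¹ * w j
  have hex : ∀ x : (Z ⊔ Subgroup.closure (Set.range v) : Subgroup K),
      ∃ p : L × Option (Option (Option (Fin m))), (x : K) = (p.1 : K) * c p.2 := by
    rintro ⟨x, hx⟩
    rcases hall x hx with h | ⟨l, hl, h⟩ | ⟨l, hl, h⟩ | ⟨j, l, hl, h⟩
    · exact ⟨(⟨x, h⟩, none), (mul_one x).symm⟩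
    · exact ⟨(⟨l, hl⟩, some none), h⟩
    · exact ⟨(⟨l, hl⟩, some (some none)), h⟩
    · exact ⟨(⟨l, hl⟩, some (some (some j))), by
        change x = l * (t⁻¹ * w j)
        rw [h, mul_assoc]⟩
  choose g hg using hex
  have hinj : Function.Injective g := by
    intro x y hxy
    apply Subtype.ext
    rw [hg x, hg y, hxy]
  have hcard := Nat.card_le_card_of_injective g hinj
  have h5 : Nat.card (L × Option (Option (Option (Fin m)))) = (m + 3) * Nat.card L := by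
    rw [Nat.card_prod, Nat.card_eq_fintype_card (α := Option (Option (Option (Fin m)))),
      Fintype.card_option, Fintype.card_option, Fintype.card_option, Fintype.card_fin, mul_comm]
  rw [h5] at hcard
  exact hcard

theorem carm {K : Type} [Group K] [Finite K] (Z : Subgroup K) (hZ : Z ≤ Subgroup.center K) (m : ℕ)
    (v : Fin m → K) (h3 : ∀ i, v i ^ 3 = 1) (h2 : ∀ i j, i ≠ j → (v i * v j) ^ 2 ∈ Z) :
    2 * Nat.card (Z ⊔ Subgroup.closure (Set.range v) : Subgroup K) ≤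
      (m + 2).factorial * Nat.card Z := by
  induction m with
  | zero =>
    have h1 : Set.range v = ∅ := Set.range_eq_empty v
    rw [h1, Subgroup.closure_empty, sup_bot_eq]
    simp [Nat.factorial]
  | succ m ih =>
    have h1 := ih (fun i => v i.castSucc) (fun i => h3 _)
      (fun i j hij => h2 _ _ fun h => hij (Fin.castSucc_injective _ h))
    have h4 := ca_step Z hZ m v h3 h2
    have h5 : (m + 1 + 2).factorial = (m + 3) * (m + 2).factorial := Nat.factorial_succ (m + 2)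
    rw [h5]
    calc 2 * Nat.card (Z ⊔ Subgroup.closure (Set.range v) : Subgroup K)
        ≤ 2 * ((m + 3) * Nat.card (Z ⊔ Subgroup.closure (Set.range fun i : Fin m => v i.castSucc) :
          Subgroup K)) := Nat.mul_le_mul_left _ h4
      _ = (m + 3) * (2 * Nat.card (Z ⊔ Subgroup.closure (Set.range fun i : Fin m => v i.castSucc) :
          Subgroup K)) := by ring
      _ ≤ (m + 3) * ((m + 2).factorial * Nat.card Z) := Nat.mul_le_mul_left _ h1
      _ = (m + 3) * (m + 2).factorial * Nat.card Z := by ring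

end Pool.Agent.Helper57.AN
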