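import Pool.Agent.Helper42.PL.Cls

/-!
# Project AN, block G: classes of groups with prescribed simple factors, closure properties

`𝓕` is a class of simple groups. (Copy of `Helper42/PL/Cls.lean`, with `PSL(2, k)` replaced by `𝓕`.)
-/

open scoped Pointwise

namespace Pool.Agent.Helper57.AN

open Pool.Agent.Helper42.PL (cyc_of_surj cyc_of_inj)

/-- the admissible factors: abelian groups, groups with cyclic Sylow `p`-subgroups, and the groups
of the class `𝓕` -/
def Fac (p : ℕ) (𝓕 : (F : Type) → [Group F] → Prop) (F : Type) [Group F] : Prop :=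
  (∀ a b : F, a * b = b * a) ∨ (∀ P : Sylow p F, IsCyclic P) ∨ 𝓕 F

/-- the groups with a subnormal series with admissible factors -/
inductive Cls (p : ℕ) (𝓕 : (F : Type) → [Group F] → Prop) : (G : Type) → [Group G] → Prop
  | triv (G : Type) [Group G] [Subsingleton G] : Cls p 𝓕 G
  | ext (G : Type) [Group G] (N : Subgroup G) [N.Normal]
      (hN : Cls p 𝓕 N) (hQ : Fac p 𝓕 (G ⧸ N)) : Cls p 𝓕 G

/-- a class of simple groups, closed under isomorphism -/
structure Simp (𝓕 : (F : Type) → [Group F] → Prop) : Prop where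
  congr : ∀ (X Y : Type) [Group X] [Group Y], (X ≃* Y) → 𝓕 X → 𝓕 Y
  simple : ∀ (X : Type) [Group X], 𝓕 X → IsSimpleGroup X

variable {p : ℕ} {𝓕 : (F : Type) → [Group F] → Prop}

lemma Fac.surj [Fact p.Prime] (hS : Simp 𝓕) {X Y : Type} [Group X] [Group Y] [Finite X]
    (f : X →* Y) (hf : Function.Surjective f) (h : Fac p 𝓕 X) : Fac p 𝓕 Y := by
  rcases h with h | h | h
  · left
    intro a b
    obtain ⟨a, rfl⟩ := hf a
    obtain ⟨b, rfl⟩ := hf b
    rw [← map_mul, h, map_mul]
  · right; left
    exact cyc_of_surj f hf h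
  · have hX : IsSimpleGroup X := hS.simple X h
    rcases hX.eq_bot_or_eq_top_of_normal f.ker inferInstance with hk | hk
    · right; right
      exact hS.congr X Y (MulEquiv.ofBijective f ⟨(MonoidHom.ker_eq_bot_iff f).1 hk, hf⟩) h
    · left
      intro a b
      obtain ⟨a, rfl⟩ := hf a
      obtain ⟨b, rfl⟩ := hf b
      have ha : f a = 1 := by rw [← MonoidHom.mem_ker, hk]; trivial
      have hb : f b = 1 := by rw [← MonoidHom.mem_ker, hk]; trivial
      rw [ha, hb]

lemma Fac.congr [Fact p.Prime] (hS : Simp 𝓕) {X Y : Type} [Group X] [Group Y] [Finite X]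
    (e : X ≃* Y) (h : Fac p 𝓕 X) : Fac p 𝓕 Y := h.surj hS e.toMonoidHom e.surjective

lemma Cls.surj_aux [Fact p.Prime] (hS : Simp 𝓕) {X : Type} [Group X] (h : Cls p 𝓕 X) : Finite X →
    ∀ (Y : Type) [Group Y] (f : X →* Y), Function.Surjective f → Cls p 𝓕 Y := by
  induction h with
  | triv X =>
    intro _ Y _ f hf
    have : Subsingleton Y := hf.subsingleton
    exact Cls.triv Y
  | ext X N hN hQ ih =>
    intro hfin Y _ f hf
    have hN' : (N.map f).Normal := Subgroup.Normal.map inferInstance f hf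
    have h1 : Cls p 𝓕 (N.map f) := ih inferInstance _ (f.subgroupMap N) (f.subgroupMap_surjective N)
    refine Cls.ext Y (N.map f) h1 ?_
    refine hQ.surj hS (QuotientGroup.map N (N.map f) f (Subgroup.le_comap_map f N)) ?_
    intro y
    obtain ⟨y, rfl⟩ := QuotientGroup.mk'_surjective _ y
    obtain ⟨x, rfl⟩ := hf y
    exact ⟨QuotientGroup.mk' N x, rfl⟩

theorem Cls.surj [Fact p.Prime] (hS : Simp 𝓕) {X Y : Type} [Group X] [Group Y] [Finite X]
    (f : X →* Y) (hf : Function.Surjective f) (h : Cls p 𝓕 X) : Cls p 𝓕 Y :=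
  h.surj_aux hS inferInstance Y f hf

theorem Cls.congr [Fact p.Prime] (hS : Simp 𝓕) {X Y : Type} [Group X] [Group Y] [Finite X]
    (e : X ≃* Y) (h : Cls p 𝓕 X) : Cls p 𝓕 Y := h.surj hS e.toMonoidHom e.surjective

lemma Cls.of_fac [Fact p.Prime] (hS : Simp 𝓕) {X : Type} [Group X] [Finite X] (h : Fac p 𝓕 X) :
    Cls p 𝓕 X := by
  refine Cls.ext X ⊥ (Cls.triv _) ?_
  exact h.congr hS (QuotientGroup.quotientBot).symm

lemma Cls.of_comm [Fact p.Prime] (hS : Simp 𝓕) {X : Type} [Group X] [Finite X]
    (h : ∀ a b : X, a * b = b * a) : Cls p 𝓕 X := Cls.of_fac hS (Or.inl h)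

lemma Cls.extn_aux [Fact p.Prime] (hS : Simp 𝓕) {Q : Type} [Group Q] (h : Cls p 𝓕 Q) :
    ∀ (X : Type) [Group X] [Finite X] (f : X →* Q), Function.Surjective f → Cls p 𝓕 f.ker →
      Cls p 𝓕 X := by
  induction h with
  | triv Q =>
    intro X _ _ f hf hk
    have h1 : f.ker = ⊤ := by
      rw [eq_top_iff]
      intro x _
      exact Subsingleton.elim _ _
    rw [h1] at hk
    exact hk.congr hS Subgroup.topEquiv
  | ext Q M hM hQ ih =>
    intro X _ _ f hf hk
    have h1 : Cls p 𝓕 (M.comap f) := by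
      refine ih (M.comap f) (f.subgroupComap M) (f.subgroupComap_surjective_of_surjective M hf) ?_
      have e : f.ker ≃* (f.subgroupComap M).ker :=
        { toFun := fun x => ⟨⟨x.1, by
            rw [Subgroup.mem_comap, MonoidHom.mem_ker.1 x.2]; exact M.one_mem⟩, by
            rw [MonoidHom.mem_ker]; exact Subtype.ext (MonoidHom.mem_ker.1 x.2)⟩
          invFun := fun x => ⟨x.1.1, by
            rw [MonoidHom.mem_ker]; exact congrArg Subtype.val (MonoidHom.mem_ker.1 x.2)⟩
          left_inv := fun x => rfl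
          right_inv := fun x => rfl
          map_mul' := fun x y => rfl }
      exact hk.congr hS e
    have hfinQ : Finite Q := Finite.of_surjective f hf
    refine Cls.ext X (M.comap f) h1 ?_
    let g : X →* Q ⧸ M := (QuotientGroup.mk' M).comp f
    have hg : Function.Surjective g := (QuotientGroup.mk'_surjective M).comp hf
    have hker : g.ker = M.comap f := by
      ext x
      rw [MonoidHom.mem_ker, Subgroup.mem_comap]
      exact QuotientGroup.eq_one_iff (f x)
    have e2 : X ⧸ M.comap f ≃* Q ⧸ M :=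
      (QuotientGroup.quotientMulEquivOfEq hker.symm).trans
        (QuotientGroup.quotientKerEquivOfSurjective g hg)
    exact hQ.congr hS e2.symm

theorem Cls.extn [Fact p.Prime] (hS : Simp 𝓕) {X Q : Type} [Group X] [Group Q] [Finite X]
    (f : X →* Q) (hf : Function.Surjective f) (hk : Cls p 𝓕 f.ker) (h : Cls p 𝓕 Q) : Cls p 𝓕 X :=
  h.extn_aux hS X f hf hk

/-- a relation between groups and subgroups which is inherited by normal subgroups and quotients -/
lemma Cls.sub_ind [Fact p.Prime] (hS : Simp 𝓕) (R : ∀ (G : Type) [Group G], Subgroup G → Prop)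
    (h1 : ∀ (G : Type) [Group G] [Finite G] (N : Subgroup G) [N.Normal] (H : Subgroup G),
      R G H → R N (H.subgroupOf N))
    (h2 : ∀ (G : Type) [Group G] [Finite G] (N : Subgroup G) [N.Normal] (H : Subgroup G),
      R G H → R (G ⧸ N) (H.map (QuotientGroup.mk' N)))
    (h3 : ∀ (G : Type) [Group G] [Finite G], Fac p 𝓕 G → ∀ H : Subgroup G, R G H → Cls p 𝓕 H)
    {G : Type} [Group G] (h : Cls p 𝓕 G) : Finite G → ∀ H : Subgroup G, R G H → Cls p 𝓕 H := by
  induction h with
  | triv G =>
    intro _ H _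
    exact Cls.triv H
  | ext G N hN hQ ih =>
    intro hfin H hR
    have hA : Cls p 𝓕 (H.subgroupOf N) := ih inferInstance _ (h1 G N H hR)
    have hB : Cls p 𝓕 (H.map (QuotientGroup.mk' N)) := h3 _ hQ _ (h2 G N H hR)
    let f : H →* H.map (QuotientGroup.mk' N) := (QuotientGroup.mk' N).subgroupMap H
    refine hB.extn_aux hS H f (MonoidHom.subgroupMap_surjective _ _) ?_
    have e : H.subgroupOf N ≃* f.ker :=
      { toFun := fun x => ⟨⟨x.1.1, x.2⟩, by
          rw [MonoidHom.mem_ker]
          apply Subtype.ext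
          exact (QuotientGroup.eq_one_iff (x.1.1)).2 x.1.2⟩
        invFun := fun x => ⟨⟨x.1.1, by
          have := congrArg Subtype.val (MonoidHom.mem_ker.1 x.2)
          exact (QuotientGroup.eq_one_iff (x.1.1)).1 this⟩, x.1.2⟩
        left_inv := fun x => rfl
        right_inv := fun x => rfl
        map_mul' := fun x y => rfl }
    exact hA.congr hS e

/-- normal subgroups -/
theorem Cls.normal [Fact p.Prime] (hS : Simp 𝓕) {G : Type} [Group G] [Finite G] (h : Cls p 𝓕 G)
    (M : Subgroup G) (hM : M.Normal) : Cls p 𝓕 M := by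
  refine Cls.sub_ind hS (fun G _ H => H.Normal) ?_ ?_ ?_ h inferInstance M hM
  · intro G _ _ N _ H hH
    exact hH.subgroupOf N
  · intro G _ _ N _ H hH
    exact hH.map _ (QuotientGroup.mk'_surjective N)
  · intro G _ _ hF H hH
    rcases hF with hF | hF | hF
    · apply Cls.of_comm hS
      intro a b
      exact Subtype.ext (hF a b)
    · apply Cls.of_fac hS
      right; left
      exact cyc_of_inj H.subtype H.subtype_injective hF
    · have hX : IsSimpleGroup G := hS.simple G hF
      rcases hX.eq_bot_or_eq_top_of_normal H hH with h | h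
      · subst h
        exact Cls.triv _
      · subst h
        refine Cls.of_fac hS ?_
        right; right
        exact hS.congr G _ Subgroup.topEquiv.symm hF

/-- simple groups in the class -/
theorem Cls.simple [Fact p.Prime] (hS : Simp 𝓕) {S : Type} [Group S] [Finite S] (h : Cls p 𝓕 S)
    (hs : IsSimpleGroup S) : Fac p 𝓕 S := by
  have key : ∀ (G : Type) [Group G], Cls p 𝓕 G → Finite G → G ≃* S → Fac p 𝓕 S := by
    intro G _ h
    induction h with
    | triv G =>
      intro _ e
      have : Subsingleton S := e.symm.toEquiv.subsingleton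
      exact absurd hs.toNontrivial (not_nontrivial S)
    | ext G N hN hQ ih =>
      intro hfin e
      have hG : IsSimpleGroup G := by
        have : Nontrivial G := e.toEquiv.nontrivial
        exact IsSimpleGroup.isSimpleGroup_of_surjective e.symm.toMonoidHom e.symm.surjective
      rcases hG.eq_bot_or_eq_top_of_normal N inferInstance with h | h
      · subst h
        exact hQ.congr hS (QuotientGroup.quotientBot.trans e)
      · subst h
        exact ih inferInstance (Subgroup.topEquiv.trans e)
  exact key S h inferInstance (MulEquiv.refl S)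

/-- central kernels -/
theorem Cls.central [Fact p.Prime] (hS : Simp 𝓕) {X Y : Type} [Group X] [Group Y] [Finite X]
    (f : X →* Y) (hf : f.ker ≤ Subgroup.center X) (h : Cls p 𝓕 f.range) : Cls p 𝓕 X := by
  refine Cls.extn hS f.rangeRestrict f.rangeRestrict_surjective ?_ h
  apply Cls.of_comm hS
  intro a b
  apply Subtype.ext
  have h1 : (a : X) ∈ f.ker := by
    rw [← MonoidHom.ker_rangeRestrict]
    exact a.2
  exact (Subgroup.mem_center_iff.1 (hf h1) (b : X)).symm

lemma relIndex_sup_eq {G : Type} [Group G] [Finite G] (H N : Subgroup G) [N.Normal] :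
    H.relIndex (H ⊔ N) = H.relIndex N := by
  have e1 := Subgroup.relIndex_mul_relIndex ⊥ N (H ⊔ N) bot_le le_sup_right
  have e2 := Subgroup.relIndex_mul_relIndex ⊥ H (H ⊔ N) bot_le le_sup_left
  have e3 := Subgroup.relIndex_mul_relIndex ⊥ (H ⊓ N) H bot_le inf_le_left
  have e4 := Subgroup.relIndex_mul_relIndex ⊥ (H ⊓ N) N bot_le inf_le_right
  rw [Subgroup.inf_relIndex_right] at e4
  rw [Subgroup.inf_relIndex_left] at e3
  rw [Subgroup.relIndex_sup_right] at e1
  simp only [Subgroup.relIndex_bot_left] at e1 e2 e3 e4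
  have p1 : 0 < Nat.card (H ⊓ N : Subgroup G) := Nat.card_pos
  have p2 : 0 < Nat.card H := Nat.card_pos
  have h : (Nat.card (H ⊓ N : Subgroup G) * Nat.card H) * H.relIndex (H ⊔ N) =
      (Nat.card (H ⊓ N : Subgroup G) * Nat.card H) * H.relIndex N := by
    calc (Nat.card (H ⊓ N : Subgroup G) * Nat.card H) * H.relIndex (H ⊔ N)
        = Nat.card (H ⊓ N : Subgroup G) * (Nat.card H * H.relIndex (H ⊔ N)) := by ring
      _ = Nat.card (H ⊓ N : Subgroup G) * (Nat.card N * N.relIndex H) := by rw [e2, e1]
      _ = Nat.card N * (Nat.card (H ⊓ N : Subgroup G) * N.relIndex H) := by ring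
      _ = (Nat.card (H ⊓ N : Subgroup G) * H.relIndex N) *
          (Nat.card (H ⊓ N : Subgroup G) * N.relIndex H) := by rw [e4]
      _ = (Nat.card (H ⊓ N : Subgroup G) * H.relIndex N) * Nat.card H := by rw [e3]
      _ = _ := by ring
  exact Nat.eq_of_mul_eq_mul_left (Nat.mul_pos p1 p2) h

/-- all subgroups of `G` of index prime to `p` are in the class -/
def Her (p : ℕ) (𝓕 : (F : Type) → [Group F] → Prop) (G : Type) [Group G] : Prop :=
  ∀ H : Subgroup G, ¬ p ∣ H.index → Cls p 𝓕 H

lemma her_idx1 {G : Type} [Group G] [Finite G] (N : Subgroup G) [N.Normal] (H : Subgroup G)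
    (hH : ¬ p ∣ H.index) : ¬ p ∣ (H.subgroupOf N).index := by
  intro hd
  apply hH
  refine hd.trans ?_
  have h1 : H.relIndex (H ⊔ N) = H.relIndex N := relIndex_sup_eq H N
  change H.relIndex N ∣ _
  rw [← h1]
  exact Subgroup.relIndex_dvd_index_of_le le_sup_left

/-- `Her` is closed under extensions -/
theorem Her.extn [Fact p.Prime] (hS : Simp 𝓕) {X Q : Type} [Group X] [Group Q] [Finite X]
    (f : X →* Q) (hf : Function.Surjective f) (hk : Her p 𝓕 f.ker) (h : Her p 𝓕 Q) :
    Her p 𝓕 X := by
  intro H hH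
  have hA : Cls p 𝓕 (H.subgroupOf f.ker) := hk _ (her_idx1 f.ker H hH)
  have hB : Cls p 𝓕 (H.map f) := h _ fun hd => hH (hd.trans (Subgroup.index_map_dvd H hf))
  let g : H →* H.map f := f.subgroupMap H
  refine hB.extn_aux hS H g (MonoidHom.subgroupMap_surjective _ _) ?_
  have e : H.subgroupOf f.ker ≃* g.ker :=
    { toFun := fun x => ⟨⟨x.1.1, x.2⟩, by
        rw [MonoidHom.mem_ker]
        apply Subtype.ext
        exact MonoidHom.mem_ker.1 x.1.2⟩
      invFun := fun x => ⟨⟨x.1.1, by
        have := congrArg Subtype.val (MonoidHom.mem_ker.1 x.2)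
        exact MonoidHom.mem_ker.2 this⟩, x.1.2⟩
      left_inv := fun x => rfl
      right_inv := fun x => rfl
      map_mul' := fun x y => rfl }
  exact hA.congr hS e

theorem Her.congr [Fact p.Prime] (hS : Simp 𝓕) {X Y : Type} [Group X] [Group Y] [Finite X]
    (e : X ≃* Y) (h : Her p 𝓕 X) : Her p 𝓕 Y := by
  intro H hH
  have h1 : Cls p 𝓕 (H.comap e.toMonoidHom) := by
    apply h
    rw [Subgroup.index_comap_of_surjective H e.surjective]
    exact hH
  have : Finite (H.comap e.toMonoidHom) := inferInstance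
  exact h1.surj hS (e.toMonoidHom.subgroupComap H)
    (e.toMonoidHom.subgroupComap_surjective_of_surjective H e.surjective)

/-- subgroups of index prime to `p` -/
theorem Cls.idx [Fact p.Prime] (hS : Simp 𝓕)
    (hF : ∀ (F : Type) [Group F] [Finite F], 𝓕 F → Her p 𝓕 F)
    {G : Type} [Group G] [Finite G] (h : Cls p 𝓕 G) (H : Subgroup G)
    (hH : ¬ p ∣ H.index) : Cls p 𝓕 H := by
  refine Cls.sub_ind hS (fun G _ H => ¬ p ∣ H.index) ?_ ?_ ?_ h inferInstance H hH
  · intro G _ _ N _ H hH
    exact her_idx1 N H hH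
  · intro G _ _ N _ H hH hd
    exact hH (hd.trans (Subgroup.index_map_dvd H (QuotientGroup.mk'_surjective N)))
  · intro G _ _ hG H hH
    rcases hG with h | h | h
    · apply Cls.of_comm hS
      intro a b
      exact Subtype.ext (h a b)
    · apply Cls.of_fac hS
      right; left
      exact cyc_of_inj H.subtype H.subtype_injective h
    · exact hF G h H hH

end Pool.Agent.Helper57.AN
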