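import Pool.Agent.Helper57.AN.FinOne
import Pool.Agent.Helper42.INC.Red2

/-!
# AN-F4 CntLab: the counts in terms of labels
-/

set_option autoImplicit false

namespace Pool.Agent.Helper57.AN

open Pool.Agent.Helper42.INC Pool.Agent.Helper7.MK Pool.Agent.Helper81.AN

theorem lab_count {p : ℕ} {X : Type} [Group X] [Finite X] {ε : X →* ℤˣ} {z : X} {ν : ℂ}
    {L : Type} {tw : L → L} {dg : L → ℕ} (hεz : ε z = 1) (l : Lab X ε z ν L tw dg)
    (d : ZMod p) :
    lF p ε z ν d = Nat.card {q : L // (dg q : ZMod p) ^ 2 = d ∧ tw q = q} ∧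
    lN p ε z ν d = Nat.card {q : L // (dg q : ZMod p) ^ 2 = d ∧ ¬ tw q = q} ∧
    ∀ q, dg (tw q) = dg q := by
  -- the twist
  let sg : IrrZ z ν → IrrZ z ν := fun χ =>
    ⟨fun x => (((ε x : ℤˣ) : ℤ) : ℂ) * χ.1 x,
      irr_linTwist ((Units.map (Int.castRingHom ℂ : ℤ →* ℂ)).comp ε) χ.2.1, by
      change (((ε z : ℤˣ) : ℤ) : ℂ) * χ.1 z = ν * ((((ε 1 : ℤˣ) : ℤ) : ℂ) * χ.1 1)
      rw [hεz, map_one, Units.val_one, Int.cast_one, one_mul, one_mul]
      exact χ.2.2⟩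
  have hsg : ∀ χ x, (sg χ).1 x = (((ε x : ℤˣ) : ℤ) : ℂ) * χ.1 x := fun χ x => rfl
  have htw : ∀ χ, l.e (sg χ) = tw (l.e χ) := fun χ => l.twist χ (sg χ) (hsg χ)
  have hfix : ∀ χ : IrrZ z ν, (∀ x, (((ε x : ℤˣ) : ℤ) : ℂ) * χ.1 x = χ.1 x) ↔
      tw (l.e χ) = l.e χ := by
    intro χ
    rw [← htw, l.e.apply_eq_iff_eq]
    constructor
    · intro h
      apply Subtype.ext
      funext x
      exact h x
    · intro h x
      exact congrFun (congrArg Subtype.val h) x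
  have hdeg : ∀ χ : IrrZ z ν, deg χ.1 = dg (l.e χ) := fun χ => deg_eq (l.deg χ)
  refine ⟨?_, ?_, ?_⟩
  · refine Nat.card_congr
      { toFun := fun χ => ⟨l.e ⟨χ.1, χ.2.1⟩, ?_, ?_⟩
        invFun := fun q => ⟨(l.e.symm q.1).1, (l.e.symm q.1).2, ?_, ?_⟩
        left_inv := fun χ => by
          apply Subtype.ext
          change (l.e.symm (l.e ⟨χ.1, χ.2.1⟩)).1 = χ.1
          rw [Equiv.symm_apply_apply]
        right_inv := fun q => by
          apply Subtype.ext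
          change l.e ⟨(l.e.symm q.1).1, (l.e.symm q.1).2⟩ = q.1
          exact l.e.apply_symm_apply q.1 }
    · rw [← hdeg]
      exact χ.2.2.1
    · rw [← hfix]
      exact χ.2.2.2
    · rw [hdeg (l.e.symm q.1), Equiv.apply_symm_apply]
      exact q.2.1
    · rw [hfix (l.e.symm q.1), Equiv.apply_symm_apply]
      exact q.2.2
  · refine Nat.card_congr
      { toFun := fun χ => ⟨l.e ⟨χ.1, χ.2.1⟩, ?_, ?_⟩
        invFun := fun q => ⟨(l.e.symm q.1).1, (l.e.symm q.1).2, ?_, ?_⟩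
        left_inv := fun χ => by
          apply Subtype.ext
          change (l.e.symm (l.e ⟨χ.1, χ.2.1⟩)).1 = χ.1
          rw [Equiv.symm_apply_apply]
        right_inv := fun q => by
          apply Subtype.ext
          change l.e ⟨(l.e.symm q.1).1, (l.e.symm q.1).2⟩ = q.1
          exact l.e.apply_symm_apply q.1 }
    · rw [← hdeg]
      exact χ.2.2.1
    · rw [← hfix]
      exact χ.2.2.2
    · rw [hdeg (l.e.symm q.1), Equiv.apply_symm_apply]
      exact q.2.1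
    · rw [hfix (l.e.symm q.1), Equiv.apply_symm_apply]
      exact q.2.2
  · intro q
    have h1 := hdeg (sg (l.e.symm q))
    rw [htw, Equiv.apply_symm_apply] at h1
    have h2 := hdeg (l.e.symm q)
    rw [Equiv.apply_symm_apply] at h2
    rw [← h1, ← h2]
    unfold deg
    rw [hsg, map_one, Units.val_one, Int.cast_one, one_mul]

theorem count_eq {p : ℕ} [Fact p.Prime] {X X' : Type} [Group X] [Finite X] [Group X'] [Finite X']
    {ε : X →* ℤˣ} {z : X} {ν : ℂ} {L : Type} {tw : L → L} {dg : L → ℕ} (hεz : ε z = 1)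
    (hl : Nonempty (Lab X ε z ν L tw dg)) {ε' : X' →* ℤˣ} {z' : X'} {ν' : ℂ} {L' : Type}
    {tw' : L' → L'} {dg' : L' → ℕ} (hεz' : ε' z' = 1)
    (hl' : Nonempty (Lab X' ε' z' ν' L' tw' dg'))
    (hE : ∃ e : {l : L // ¬ p ∣ dg l} ≃ {q : L' // ¬ p ∣ dg' q},
      (∀ l l', l'.1 = tw l.1 → (e l').1 = tw' (e l).1) ∧
      ∀ l, ((dg' (e l).1 : ℕ) : ZMod p) ^ 2 = (dg l.1 : ZMod p) ^ 2) (d : ZMod p) (hd : d ≠ 0) :
    lF p ε z ν d = lF p ε' z' ν' d ∧ lN p ε z ν d = lN p ε' z' ν' d := by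
  obtain ⟨l⟩ := hl
  obtain ⟨l'⟩ := hl'
  obtain ⟨e, he1, he2⟩ := hE
  obtain ⟨h1, h2, h3⟩ := lab_count (p := p) hεz l d
  obtain ⟨h1', h2', h3'⟩ := lab_count (p := p) hεz' l' d
  rw [h1, h2, h1', h2']
  have hnd : ∀ n : ℕ, (n : ZMod p) ^ 2 = d → ¬ p ∣ n := by
    rintro n hn hp
    apply hd
    rw [← hn, (ZMod.natCast_eq_zero_iff _ _).2 hp, zero_pow two_ne_zero]
  have hfix : ∀ q : {l : L // ¬ p ∣ dg l}, tw q.1 = q.1 ↔ tw' (e q).1 = (e q).1 := by
    intro q
    constructor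
    · intro h
      exact (he1 q q h.symm).symm
    · intro h
      have h4 := he1 q ⟨tw q.1, by rw [h3]; exact q.2⟩ rfl
      rw [h] at h4
      exact congrArg Subtype.val (e.injective (Subtype.ext h4))
  constructor
  · refine Nat.card_congr
      { toFun := fun q => ⟨(e ⟨q.1, hnd _ q.2.1⟩).1, ?_, ?_⟩
        invFun := fun q => ⟨(e.symm ⟨q.1, hnd _ q.2.1⟩).1, ?_, ?_⟩
        left_inv := fun q => by
          apply Subtype.ext
          change (e.symm ⟨(e ⟨q.1, hnd _ q.2.1⟩).1, _⟩).1 = q.1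
          rw [Subtype.coe_eta, Equiv.symm_apply_apply]
        right_inv := fun q => by
          apply Subtype.ext
          change (e ⟨(e.symm ⟨q.1, hnd _ q.2.1⟩).1, _⟩).1 = q.1
          rw [Subtype.coe_eta, Equiv.apply_symm_apply] }
    · rw [he2]
      exact q.2.1
    · exact (hfix ⟨q.1, hnd _ q.2.1⟩).1 q.2.2
    · rw [← he2, Equiv.apply_symm_apply]
      exact q.2.1
    · rw [hfix, Equiv.apply_symm_apply]
      exact q.2.2
  · refine Nat.card_congr
      { toFun := fun q => ⟨(e ⟨q.1, hnd _ q.2.1⟩).1, ?_, ?_⟩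
        invFun := fun q => ⟨(e.symm ⟨q.1, hnd _ q.2.1⟩).1, ?_, ?_⟩
        left_inv := fun q => by
          apply Subtype.ext
          change (e.symm ⟨(e ⟨q.1, hnd _ q.2.1⟩).1, _⟩).1 = q.1
          rw [Subtype.coe_eta, Equiv.symm_apply_apply]
        right_inv := fun q => by
          apply Subtype.ext
          change (e ⟨(e.symm ⟨q.1, hnd _ q.2.1⟩).1, _⟩).1 = q.1
          rw [Subtype.coe_eta, Equiv.apply_symm_apply] }
    · rw [he2]
      exact q.2.1
    · intro h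
      exact q.2.2 ((hfix ⟨q.1, hnd _ q.2.1⟩).2 h)
    · rw [← he2, Equiv.apply_symm_apply]
      exact q.2.1
    · rw [hfix, Equiv.apply_symm_apply]
      exact q.2.2

end Pool.Agent.Helper57.AN
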