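import Pool.Agent.Helper57.AN.LiftC
import Pool.Agent.Helper57.AN.Carm

/-!
# AN-G06 Cover: the order and the uniqueness of the double cover

Let `n = card ι`, `a ≠ b`, `{i // i ≠ a ∧ i ≠ b} ≃ Fin (n - 2)`.

`cover_bound`: `exists_carm`; `Z = Subgroup.zpowers J` is central of order at most 2 (`J ^ 2 = 1`). `carm` (with `m = n - 2`): `2 |M| ≤ n! |Z| ≤ 2 n!`
(`Z ⊔ closure = ⊤`). `|M| = |π.ker| |alternatingGroup ι|`, `2 |alternatingGroup ι| = n!`. So `|π.ker| n! = 2 |M| ≤ 2 n!`.

`cover_unique`: `exists_carm` for both, with the same `a, b`: `v, J` and `v', J'`. In `M × M'` put `V i = (v i, v' i)`, `Z = zpowers (J, J')` (central, order at most 2),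
`F = Z ⊔ closure (range V)`. `carm`: `2 |F| ≤ n! |Z| ≤ 2 n!`, so `|F| ≤ n!`. All `x ∈ F` satisfy `π x.1 = π' x.2` (true for the generators; the set of these `x` is a subgroup). `F → M`, `x ↦ x.1`, is surjective (the image contains the
`v i`), `|M| = 2 (n! / 2) = n! ≥ |F|`, so it is bijective (`Finite.injective_iff_surjective_of_equiv` or by cardinality: `Function.Surjective.bijective_of_nat_card_le`); the same for `F → M'`. `e` is the composition of the inverse of the first with the second.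
-/

set_option autoImplicit false

open Equiv

namespace Pool.Agent.Helper57.AN

private theorem carm_sub {ι : Type} [Fintype ι] [DecidableEq ι] (h8 : 8 ≤ Fintype.card ι) {a b : ι}
    (hab : a ≠ b) {K : Type} [Group K] [Finite K] (Z : Subgroup K) (hZ : Z ≤ Subgroup.center K)
    (hZ2 : Nat.card Z ≤ 2) (v : {i : ι // i ≠ a ∧ i ≠ b} → K) (h3 : ∀ i, v i ^ 3 = 1)
    (h2 : ∀ i j, i ≠ j → (v i * v j) ^ 2 ∈ Z) :
    Nat.card (Z ⊔ Subgroup.closure (Set.range v) : Subgroup K) ≤ (Fintype.card ι).factorial := by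
  have hc : Fintype.card {i : ι // i ≠ a ∧ i ≠ b} = Fintype.card ι - 2 := by
    rw [Fintype.card_subtype]
    have e : (Finset.univ.filter fun i : ι => i ≠ a ∧ i ≠ b) =
        (Finset.univ.erase a).erase b := by
      ext i
      simp only [Finset.mem_filter, Finset.mem_univ, true_and, Finset.mem_erase, and_true]
      exact and_comm
    rw [e, Finset.card_erase_of_mem (Finset.mem_erase.2 ⟨hab.symm, Finset.mem_univ b⟩),
      Finset.card_erase_of_mem (Finset.mem_univ a), Finset.card_univ]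
    omega
  have e := Fintype.equivFinOfCardEq hc
  have h := carm Z hZ (Fintype.card ι - 2) (v ∘ e.symm) (fun i => h3 _)
    (fun i j hij => h2 _ _ fun h => hij (e.symm.injective h))
  rw [e.symm.surjective.range_comp v] at h
  have e2 : Fintype.card ι - 2 + 2 = Fintype.card ι := by omega
  rw [e2] at h
  have h4 := Nat.mul_le_mul_left (Fintype.card ι).factorial hZ2
  omega

private theorem card_zpowers_le {K : Type} [Group K] {J : K} (hJ : J ^ 2 = 1) :
    Nat.card (Subgroup.zpowers J) ≤ 2 := by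
  rw [Nat.card_zpowers]
  exact orderOf_le_of_pow_eq_one two_pos hJ

private theorem card_cov {ι : Type} [Fintype ι] [DecidableEq ι] (h8 : 8 ≤ Fintype.card ι)
    {M : Type} [Group M] [Finite M] {π : M →* Perm ι} (h : Cov π) :
    2 * Nat.card M = Nat.card π.ker * (Fintype.card ι).factorial := by
  have h1 := Subgroup.card_mul_index π.ker
  rw [Subgroup.index_ker, h.range] at h1
  have : Nontrivial ι := Fintype.one_lt_card_iff_nontrivial.1 (by omega)
  have h2 := two_mul_nat_card_alternatingGroup (α := ι)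
  rw [Nat.card_perm, Nat.card_eq_fintype_card (α := ι)] at h2
  rw [← h1, ← h2]
  ring

theorem cover_bound {ι : Type} [Fintype ι] [DecidableEq ι] (h8 : 8 ≤ Fintype.card ι)
    {M : Type} [Group M] [Finite M] {π : M →* Perm ι} (h : Cov π) : Nat.card π.ker ≤ 2 := by
  obtain ⟨a, b, hab⟩ := Fintype.exists_pair_of_one_lt_card (α := ι) (by omega)
  obtain ⟨v, J, hJ, hπJ, hJ2, hv, hv3, hvJ, hcl⟩ := exists_carm h h8 hab
  have h1 := carm_sub h8 hab (Subgroup.zpowers J) (Subgroup.zpowers_le.2 hJ) (card_zpowers_le hJ2)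
    (fun i => v i.1) (fun i => hv3 _ i.2.1 i.2.2)
    (fun i j hij => by
      rw [hvJ _ _ i.2.1 i.2.2 j.2.1 j.2.2 fun he => hij (Subtype.ext he)]
      exact Subgroup.mem_zpowers J)
  have h2 : Subgroup.zpowers J ⊔ Subgroup.closure
      (Set.range fun i : {i : ι // i ≠ a ∧ i ≠ b} => v i.1) = ⊤ := by
    rw [eq_top_iff, ← hcl]
    refine le_trans (Subgroup.closure_mono ?_) le_sup_right
    rintro _ ⟨i, hi1, hi2, rfl⟩
    exact ⟨⟨i, hi1, hi2⟩, rfl⟩
  rw [h2, Subgroup.card_top] at h1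
  have h3 := card_cov h8 h
  have h4 : Nat.card π.ker * (Fintype.card ι).factorial ≤ 2 * (Fintype.card ι).factorial := by
    rw [← h3]
    omega
  exact Nat.le_of_mul_le_mul_right h4 (Nat.factorial_pos _)

private theorem gen_le {ι : Type} {a b : ι} {M M' : Type} [Group M] [Group M'] (v : ι → M)
    (v' : ι → M') (J : M × M') (hcl : Subgroup.closure {x : M | ∃ i, i ≠ a ∧ i ≠ b ∧ x = v i} = ⊤) :
    Function.Surjective ((MonoidHom.fst M M').comp (Subgroup.zpowers J ⊔ Subgroup.closure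
      (Set.range fun i : {i : ι // i ≠ a ∧ i ≠ b} => (v i.1, v' i.1))).subtype) := by
  rw [← MonoidHom.range_eq_top, eq_top_iff, ← hcl, Subgroup.closure_le]
  rintro _ ⟨i, hi1, hi2, rfl⟩
  exact ⟨⟨(v i, v' i), Subgroup.mem_sup_right (Subgroup.subset_closure ⟨⟨i, hi1, hi2⟩, rfl⟩)⟩, rfl⟩

private theorem gen_le' {ι : Type} {a b : ι} {M M' : Type} [Group M] [Group M'] (v : ι → M)
    (v' : ι → M') (J : M × M')
    (hcl : Subgroup.closure {x : M' | ∃ i, i ≠ a ∧ i ≠ b ∧ x = v' i} = ⊤) :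
    Function.Surjective ((MonoidHom.snd M M').comp (Subgroup.zpowers J ⊔ Subgroup.closure
      (Set.range fun i : {i : ι // i ≠ a ∧ i ≠ b} => (v i.1, v' i.1))).subtype) := by
  rw [← MonoidHom.range_eq_top, eq_top_iff, ← hcl, Subgroup.closure_le]
  rintro _ ⟨i, hi1, hi2, rfl⟩
  exact ⟨⟨(v i, v' i), Subgroup.mem_sup_right (Subgroup.subset_closure ⟨⟨i, hi1, hi2⟩, rfl⟩)⟩, rfl⟩

theorem cover_unique {ι : Type} [Fintype ι] [DecidableEq ι] (h8 : 8 ≤ Fintype.card ι)
    {M M' : Type} [Group M] [Finite M] [Group M'] [Finite M'] {π : M →* Perm ι} (h : Cov π)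
    (hc : Nat.card π.ker = 2) {π' : M' →* Perm ι} (h' : Cov π') (hc' : Nat.card π'.ker = 2) :
    ∃ e : M ≃* M', ∀ x, π' (e x) = π x := by
  obtain ⟨a, b, hab⟩ := Fintype.exists_pair_of_one_lt_card (α := ι) (by omega)
  obtain ⟨v, J, hJ, hπJ, hJ2, hv, hv3, hvJ, hcl⟩ := exists_carm h h8 hab
  obtain ⟨v', J', hJ', hπJ', hJ2', hv', hv3', hvJ', hcl'⟩ := exists_carm h' h8 hab
  have hcen : (J, J') ∈ Subgroup.center (M × M') := by
    rw [Subgroup.mem_center_iff]
    rintro ⟨x, y⟩
    exact Prod.ext (Subgroup.mem_center_iff.1 hJ x) (Subgroup.mem_center_iff.1 hJ' y)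
  set F : Subgroup (M × M') := Subgroup.zpowers (J, J') ⊔ Subgroup.closure
      (Set.range fun i : {i : ι // i ≠ a ∧ i ≠ b} => (v i.1, v' i.1)) with hF
  have h1 : Nat.card F ≤ (Fintype.card ι).factorial :=
    carm_sub h8 hab (Subgroup.zpowers (J, J')) (Subgroup.zpowers_le.2 hcen)
      (card_zpowers_le (Prod.ext hJ2 hJ2'))
      (fun i => (v i.1, v' i.1)) (fun i => Prod.ext (hv3 _ i.2.1 i.2.2) (hv3' _ i.2.1 i.2.2))
      (fun i j hij => by
        have e : ((v i.1, v' i.1) * (v j.1, v' j.1) : M × M') ^ 2 = (J, J') :=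
          Prod.ext (hvJ _ _ i.2.1 i.2.2 j.2.1 j.2.2 fun he => hij (Subtype.ext he))
            (hvJ' _ _ i.2.1 i.2.2 j.2.1 j.2.2 fun he => hij (Subtype.ext he))
        rw [e]
        exact Subgroup.mem_zpowers _)
  have hE : F ≤ (π.comp (MonoidHom.fst M M')).eqLocus (π'.comp (MonoidHom.snd M M')) := by
    rw [hF, sup_le_iff, Subgroup.zpowers_le, Subgroup.closure_le]
    refine ⟨hπJ.trans hπJ'.symm, ?_⟩
    rintro _ ⟨i, rfl⟩
    exact (hv _ i.2.1 i.2.2).trans (hv' _ i.2.1 i.2.2).symm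
  have c1 : Nat.card M = (Fintype.card ι).factorial := by
    have := card_cov h8 h
    rw [hc] at this
    omega
  have c2 : Nat.card M' = (Fintype.card ι).factorial := by
    have := card_cov h8 h'
    rw [hc'] at this
    omega
  have s1 : Function.Surjective ((MonoidHom.fst M M').comp F.subtype) := gen_le v v' (J, J') hcl
  have s2 : Function.Surjective ((MonoidHom.snd M M').comp F.subtype) := gen_le' v v' (J, J') hcl'
  have b1 : Function.Bijective ((MonoidHom.fst M M').comp F.subtype) :=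
    s1.bijective_of_nat_card_le (by rw [c1]; exact h1)
  have b2 : Function.Bijective ((MonoidHom.snd M M').comp F.subtype) :=
    s2.bijective_of_nat_card_le (by rw [c2]; exact h1)
  refine ⟨(MulEquiv.ofBijective _ b1).symm.trans (MulEquiv.ofBijective _ b2), fun x => ?_⟩
  obtain ⟨y, rfl⟩ := (MulEquiv.ofBijective _ b1).surjective x
  rw [MulEquiv.trans_apply, MulEquiv.symm_apply_apply]
  exact (hE y.2).symm

end Pool.Agent.Helper57.AN
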