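import Pool.Agent.Helper24.S7.Defs

/-!
# AN-G12 GoodStd: `Good` from the data for one subgroup

`Dat p K T` is the second half of `Good p K` (a bijection `F`) for the subgroup `T`.

`Dat.map`: `e : MulAut K`, `T' = e(T)`. For `θ ∈ IrrP p K` let `θ ∘ e ∈ IrrP p K` (`irr_comp` of `Helper42/INC/Basic.lean`), and for a function `φ` on `T` let `e_* φ = φ ∘ (e|T)⁻¹` on `T'`
(`e|T : T ≃* T'`, e.g. `Subgroup.equivMapOfInjective` or `MulEquiv.subgroupMap`). Put `F' θ = e_* (F (θ ∘ e))`; it is a bijection (composition of three bijections).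
EQUIVARIANCE: let `α` stabilize `T'`, `θ' = θ ∘ α`, `t' = α t` in `T'`. `β = e⁻¹ * α * e` stabilizes `T`; `θ' ∘ e = (θ ∘ e) ∘ β`; `e⁻¹ t' = β (e⁻¹ t)`; apply the property of `F` to `β`.
DEGREE: the value at `1`. MATCHED: from `D, R` for `T, θ ∘ e, F (θ ∘ e)` take `D' (k, t) = D (e⁻¹ k, (e|T)⁻¹ t)`, `R' α = R (e⁻¹ α e)` (`α ∈ AutTh T' θ` implies `e⁻¹ α e ∈ AutTh T (θ ∘ e)`; `α = conj t` implies `e⁻¹ α e = conj (e⁻¹ t)`).

`good_of_dat`: let `Q'` be a Sylow subgroup; `Q' = k Q k⁻¹` (`MulAction.exists_smul_eq`). Take `T' = T.map (conj k)`, `Dat.map` with `e = conj k`. `N(Q') = k N(Q) k⁻¹ ≤ T'`, `T' ≠ ⊤`; if `α` stabilizes `Q'` then `(conj k)⁻¹ α (conj k)` stabilizes `Q`, so `T`, so `α` stabilizes `T'`.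
-/

set_option autoImplicit false

namespace Pool.Agent.Helper57.AN

open Pool.Agent.Helper42.INC Pool.Agent.Helper7.MK

/-- the data of `Good` for the subgroup `T` -/
def Dat (p : ℕ) (K : Type) [Group K] (T : Subgroup K) : Prop :=
  ∃ F : IrrP p K ≃ IrrP p T,
    (∀ α : MulAut K, (∀ x, α x ∈ T ↔ x ∈ T) → ∀ θ θ' : IrrP p K,
      (∀ x, θ'.1 x = θ.1 (α x)) → ∀ t t' : T, (t' : K) = α t → (F θ').1 t = (F θ).1 t') ∧
    (∀ θ, (deg (F θ).1 : ZMod p) ^ 2 = (deg θ.1 : ZMod p) ^ 2) ∧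
    ∀ θ, MatchedAut T θ.1 (F θ).1

private theorem gsd_comp {p : ℕ} {G G' : Type} [Group G] [Group G'] [Finite G] [Finite G']
    (e : G ≃* G') {χ : G' → ℂ} (h : χ ∈ IrrP p G') : (fun x => χ (e x)) ∈ IrrP p G := by
  obtain ⟨n, hn, hp⟩ := h.2
  exact ⟨irr_comp e h.1, n, by show χ (e 1) = n; rw [map_one, hn], hp⟩

private def gsd_equiv (p : ℕ) {G G' : Type} [Group G] [Group G'] [Finite G] [Finite G']
    (e : G ≃* G') : IrrP p G' ≃ IrrP p G where
  toFun χ := ⟨fun x => χ.1 (e x), gsd_comp e χ.2⟩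
  invFun χ := ⟨fun x => χ.1 (e.symm x), gsd_comp e.symm χ.2⟩
  left_inv χ := by
    apply Subtype.ext
    funext x
    show χ.1 (e (e.symm x)) = χ.1 x
    rw [e.apply_symm_apply]
  right_inv χ := by
    apply Subtype.ext
    funext x
    show χ.1 (e.symm (e x)) = χ.1 x
    rw [e.symm_apply_apply]

private theorem gsd_mem {K : Type} [Group K] {T : Subgroup K} (e : MulAut K) {x : K} :
    x ∈ T.map e.toMonoidHom ↔ e⁻¹ x ∈ T := by
  constructor
  · rintro ⟨y, hy, rfl⟩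
    show e⁻¹ (e y) ∈ T
    rw [MulAut.inv_apply_self]
    exact hy
  · intro h
    exact ⟨e⁻¹ x, h, MulAut.apply_inv_self _ e x⟩

private def gsd_eT {K : Type} [Group K] (T : Subgroup K) (e : MulAut K) :
    T.map e.toMonoidHom ≃* T where
  toFun t := ⟨e⁻¹ t, (gsd_mem e).1 t.2⟩
  invFun t := ⟨e t, ⟨t, t.2, rfl⟩⟩
  left_inv t := Subtype.ext (MulAut.apply_inv_self _ e t)
  right_inv t := Subtype.ext (MulAut.inv_apply_self _ e t)
  map_mul' a b := Subtype.ext (map_mul e⁻¹ (a : K) (b : K))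

private theorem gsd_eT_coe {K : Type} [Group K] (T : Subgroup K) (e : MulAut K)
    (t : T.map e.toMonoidHom) : ((gsd_eT T e t : T) : K) = e⁻¹ t := rfl

private theorem gsd_stab {K : Type} [Group K] {T : Subgroup K} {e α : MulAut K}
    (h : ∀ x, α x ∈ T.map e.toMonoidHom ↔ x ∈ T.map e.toMonoidHom) (x : K) :
    (e⁻¹ * α * e) x ∈ T ↔ x ∈ T := by
  have h1 := h (e x)
  rw [gsd_mem, gsd_mem, MulAut.inv_apply_self] at h1
  exact h1

private theorem gsd_aut {K : Type} [Group K] {T : Subgroup K} {e : MulAut K} {θ : K → ℂ}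
    {α : MulAut K} (h : α ∈ AutTh (T.map e.toMonoidHom) θ) :
    e⁻¹ * α * e ∈ AutTh T (fun x => θ (e x)) := by
  refine ⟨gsd_stab h.1, fun x => ?_⟩
  show θ (e (e⁻¹ (α (e x)))) = θ (e x)
  rw [MulAut.apply_inv_self, h.2]

private def gsd_R {K : Type} [Group K] (T : Subgroup K) (e : MulAut K) (θ : K → ℂ) :
    AutTh (T.map e.toMonoidHom) θ →* AutTh T (fun x => θ (e x)) where
  toFun α := ⟨e⁻¹ * α.1 * e, gsd_aut α.2⟩
  map_one' := by
    apply Subtype.ext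
    show e⁻¹ * 1 * e = 1
    group
  map_mul' a b := by
    apply Subtype.ext
    show e⁻¹ * (a.1 * b.1) * e = (e⁻¹ * a.1 * e) * (e⁻¹ * b.1 * e)
    group

private theorem gsd_matched {K : Type} [Group K] {T : Subgroup K} (e : MulAut K)
    {θ : K → ℂ} {φ : T → ℂ} (h : MatchedAut T (fun x => θ (e x)) φ) :
    MatchedAut (T.map e.toMonoidHom) θ (fun t => φ (gsd_eT T e t)) := by
  obtain ⟨d, D, R, h1, h2, h3⟩ := h
  refine ⟨d, D.comp ((e⁻¹ : MulAut K).toMonoidHom.prodMap (gsd_eT T e).toMonoidHom),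
    R.comp (gsd_R T e θ), fun k t => ?_, fun α k t t' ht => ?_, fun α t ht => ?_⟩
  · show (D (e⁻¹ k, gsd_eT T e t)).trace = θ k * φ (gsd_eT T e t⁻¹)
    rw [h1, map_inv]
    show θ (e (e⁻¹ k)) * _ = _
    rw [MulAut.apply_inv_self]
  · show R (gsd_R T e θ α) * D (e⁻¹ k, gsd_eT T e t) =
      D (e⁻¹ (α.1 k), gsd_eT T e t') * R (gsd_R T e θ α)
    rw [h2 (gsd_R T e θ α) (e⁻¹ k) (gsd_eT T e t) (gsd_eT T e t')]
    · have h4 : (gsd_R T e θ α).1 (e⁻¹ k) = e⁻¹ (α.1 k) := by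
        show e⁻¹ (α.1 (e (e⁻¹ k))) = e⁻¹ (α.1 k)
        rw [MulAut.apply_inv_self]
      rw [h4]
    · show e⁻¹ (t' : K) = e⁻¹ (α.1 (e (e⁻¹ (t : K))))
      rw [MulAut.apply_inv_self, ht]
  · show R (gsd_R T e θ α) = D (e⁻¹ (t : K), gsd_eT T e t)
    rw [h3 (gsd_R T e θ α) (gsd_eT T e t)]
    · rfl
    · apply MulEquiv.ext
      intro x
      show e⁻¹ (α.1 (e x)) = (e⁻¹ (t : K)) * x * (e⁻¹ (t : K))⁻¹
      rw [ht, MulAut.conj_apply, map_mul, map_mul, map_inv, MulAut.inv_apply_self]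

theorem Dat.map {p : ℕ} {K : Type} [Group K] [Finite K] {T : Subgroup K} (h : Dat p K T)
    (e : MulAut K) : Dat p K (T.map e.toMonoidHom) := by
  obtain ⟨F, hF1, hF2, hF3⟩ := h
  obtain ⟨F', hF'⟩ : ∃ F' : IrrP p K ≃ IrrP p (T.map e.toMonoidHom), F' =
    (gsd_equiv p e).trans (F.trans (gsd_equiv p (gsd_eT T e))) := ⟨_, rfl⟩
  have hF : ∀ θ t, (F' θ).1 t = (F (gsd_equiv p e θ)).1 (gsd_eT T e t) := by
    intro θ t
    rw [hF']
    rfl
  have hFd : ∀ θ, (F' θ).1 = fun t => (F (gsd_equiv p e θ)).1 (gsd_eT T e t) :=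
    fun θ => funext (hF θ)
  refine ⟨F', fun α hα θ θ' hθ t t' ht => ?_, fun θ => ?_, fun θ => ?_⟩
  · rw [hF, hF]
    refine hF1 (e⁻¹ * α * e) (gsd_stab hα) _ _ (fun x => ?_) _ _ ?_
    · show θ'.1 (e x) = θ.1 (e (e⁻¹ (α (e x))))
      rw [MulAut.apply_inv_self, hθ]
    · show e⁻¹ (t' : K) = e⁻¹ (α (e (e⁻¹ (t : K))))
      rw [MulAut.apply_inv_self, ht]
  · have h1 : deg (F' θ).1 = deg (F (gsd_equiv p e θ)).1 := by
      unfold deg
      rw [hF, map_one]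
    have h2 : deg (gsd_equiv p e θ).1 = deg θ.1 := by
      unfold deg
      show ⌊(θ.1 (e 1)).re⌋₊ = _
      rw [map_one]
    rw [h1, hF2, h2]
  · rw [hFd]
    exact gsd_matched e (hF3 (gsd_equiv p e θ))

theorem good_of_dat {p : ℕ} [Fact p.Prime] {K : Type} [Group K] [Finite K] {T : Subgroup K}
    (hd : Dat p K T) (hT : T ≠ ⊤) (Q : Sylow p K) (hN : Subgroup.normalizer (Q : Set K) ≤ T)
    (hst : ∀ α : MulAut K, (∀ x, α x ∈ Q ↔ x ∈ Q) → ∀ x, α x ∈ T ↔ x ∈ T) : Good p K := by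
  intro Q'
  obtain ⟨k, hk⟩ := MulAction.exists_smul_eq K Q Q'
  have hQ : ∀ x, x ∈ Q' ↔ (MulAut.conj k)⁻¹ x ∈ Q := by
    intro x
    rw [← hk]
    show x ∈ ((k • Q : Sylow p K) : Subgroup K) ↔ _
    rw [Sylow.smul_def, Sylow.pointwise_smul_def, Subgroup.mem_pointwise_smul_iff_inv_smul_mem]
    rfl
  refine ⟨T.map (MulAut.conj k).toMonoidHom, ?_, ?_, ?_, hd.map (MulAut.conj k)⟩
  · intro x hx
    rw [gsd_mem]
    apply hN
    rw [Subgroup.mem_set_normalizer_iff] at hx ⊢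
    intro y
    have h1 := hx (MulAut.conj k y)
    rw [SetLike.mem_coe, SetLike.mem_coe, hQ, hQ, MulAut.inv_apply_self] at h1
    rw [SetLike.mem_coe, SetLike.mem_coe, h1, map_mul, map_mul, map_inv, MulAut.inv_apply_self]
  · intro h1
    apply hT
    rw [eq_top_iff]
    intro x _
    have h2 : MulAut.conj k x ∈ T.map (MulAut.conj k).toMonoidHom := by
      rw [h1]
      exact Subgroup.mem_top _
    rw [gsd_mem, MulAut.inv_apply_self] at h2
    exact h2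
  · intro α hα x
    have h1 : ∀ y, ((MulAut.conj k)⁻¹ * α * MulAut.conj k) y ∈ Q ↔ y ∈ Q := by
      intro y
      have h2 := hα (MulAut.conj k y)
      rw [hQ, hQ, MulAut.inv_apply_self] at h2
      exact h2
    have h3 := hst _ h1 ((MulAut.conj k)⁻¹ x)
    rw [gsd_mem, gsd_mem, ← h3]
    show _ ↔ (MulAut.conj k)⁻¹ (α (MulAut.conj k ((MulAut.conj k)⁻¹ x))) ∈ T
    rw [MulAut.apply_inv_self]

end Pool.Agent.Helper57.AN
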