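import Pool.Agent.Helper57.PL.Rep
import Pool.Agent.Helper42.INC.Inflate

/-!
# AN-F2 MatchTwo: matched characters if the group of automorphisms has at most two cosets of
the inner automorphisms
-/

set_option autoImplicit false

open Matrix
open scoped IsMulCommutative

namespace Pool.Agent.Helper57.AN

open Pool.Agent.Helper42.INC Pool.Agent.Helper7.MK Pool.Agent.Helper57.PL.Rep
open Pool.Agent.Helper42.IR.F (exists_D)

theorem hom_of_rel {A M : Type} [Group A] [Monoid M] (S : A → M → Prop) (h1 : S 1 1)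
    (hmul : ∀ a b x y, S a x → S b y → S (a * b) (x * y))
    (huniq : ∀ a x y, S a x → S a y → x = y) (htot : ∀ a, ∃ x, S a x) :
    ∃ R : A →* M, ∀ a, S a (R a) := by
  choose R hR using htot
  exact ⟨{ toFun := R
           map_one' := huniq _ _ _ (hR 1) h1
           map_mul' := fun a b => huniq _ _ _ (hR _) (hmul a b _ _ (hR a) (hR b)) }, hR⟩

variable {K : Type} [Group K] [Finite K] {T : Subgroup K} {θ : K → ℂ} {φ : T → ℂ}

/-- `D (t, t) = 1` for central `t` -/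
theorem D_central (hθ : θ ∈ Irr K) (hφ : φ ∈ Irr T)
    (hz : ∀ t : T, (t : K) ∈ Subgroup.center K → θ t * φ 1 = θ 1 * φ t) {d : ℕ}
    (D : K × T →* Matrix (Fin d) (Fin d) ℂ)
    (hD : ∀ k t, (D (k, t)).trace = θ k * φ t⁻¹)
    (hS : ∀ A : Matrix (Fin d) (Fin d) ℂ, (∀ x, A * D x = D x * A) →
        ∃ c : ℂ, A = c • (1 : Matrix (Fin d) (Fin d) ℂ)) (t : T)
    (ht : (t : K) ∈ Subgroup.center K) : D ((t : K), t) = 1 := by
  obtain ⟨c, hc⟩ := hS (D ((t : K), t)) (by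
    rintro ⟨k, s⟩
    rw [← map_mul, ← map_mul]
    congr 1
    refine Prod.ext ?_ (Subtype.ext ?_)
    · exact (Subgroup.mem_center_iff.1 ht k).symm
    · exact (Subgroup.mem_center_iff.1 ht (s : K)).symm)
  -- central characters
  obtain ⟨ν, hν⟩ := exists_central (Subgroup.center K).subtype (fun c => c.2) hθ
  obtain ⟨μ, hμ⟩ := exists_central (Subgroup.center T).subtype (fun c => c.2) hφ
  have htC : t ∈ Subgroup.center T := by
    rw [Subgroup.mem_center_iff]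
    intro s
    apply Subtype.ext
    exact Subgroup.mem_center_iff.1 ht (s : K)
  obtain ⟨n, hn0, hn⟩ := irr_one hθ
  obtain ⟨m, hm0, hm⟩ := irr_one hφ
  have hn' : θ 1 ≠ 0 := by rw [hn]; exact_mod_cast hn0.ne'
  have hm' : φ 1 ≠ 0 := by rw [hm]; exact_mod_cast hm0.ne'
  have e1 : θ t = (ν ⟨t, ht⟩ : ℂ) * θ 1 := by
    have := hν ⟨t, ht⟩ 1
    simpa using this
  have e2 : φ t = (μ ⟨t, htC⟩ : ℂ) * φ 1 := by
    have := hμ ⟨t, htC⟩ 1
    simpa using this
  have e3 : φ t⁻¹ = (μ ⟨t, htC⟩ : ℂ)⁻¹ * φ 1 := by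
    have := hμ ⟨t, htC⟩⁻¹ 1
    rw [map_inv] at this
    simpa using this
  have e4 : (ν ⟨t, ht⟩ : ℂ) = (μ ⟨t, htC⟩ : ℂ) := by
    have h1 := hz t ht
    rw [e1, e2] at h1
    have h2 : ((ν ⟨t, ht⟩ : ℂ) - (μ ⟨t, htC⟩ : ℂ)) * (θ 1 * φ 1) = 0 := by
      linear_combination h1
    rcases mul_eq_zero.1 h2 with h3 | h3
    · exact sub_eq_zero.1 h3
    · exact absurd h3 (mul_ne_zero hn' hm')
  have hμ0 : (μ ⟨t, htC⟩ : ℂ) ≠ 0 := Units.ne_zero _
  have htr : (D ((t : K), t)).trace = (D (1, 1)).trace := by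
    rw [hD, hD, e1, e3, e4, inv_one]
    field_simp
  have h1 : (D ((1 : K), (1 : T))) = 1 := map_one D
  rw [h1, hc, Matrix.trace_smul, smul_eq_mul] at htr
  have hd : (1 : Matrix (Fin d) (Fin d) ℂ).trace ≠ 0 := by
    rw [← h1, hD, inv_one]
    exact mul_ne_zero hn' hm'
  have hc1 : c = 1 := by
    have h2 : (c - 1) * (1 : Matrix (Fin d) (Fin d) ℂ).trace = 0 := by linear_combination htr
    rcases mul_eq_zero.1 h2 with h3 | h3
    · exact sub_eq_zero.1 h3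
    · exact absurd h3 hd
  rw [hc, hc1, one_smul]

/-- `D (t, t)` only depends on the inner automorphism -/
theorem D_uniq (hθ : θ ∈ Irr K) (hφ : φ ∈ Irr T)
    (hz : ∀ t : T, (t : K) ∈ Subgroup.center K → θ t * φ 1 = θ 1 * φ t) {d : ℕ}
    (D : K × T →* Matrix (Fin d) (Fin d) ℂ)
    (hD : ∀ k t, (D (k, t)).trace = θ k * φ t⁻¹)
    (hS : ∀ A : Matrix (Fin d) (Fin d) ℂ, (∀ x, A * D x = D x * A) →
        ∃ c : ℂ, A = c • (1 : Matrix (Fin d) (Fin d) ℂ)) (t t' : T)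
    (h : MulAut.conj (t : K) = MulAut.conj (t' : K)) : D ((t : K), t) = D ((t' : K), t') := by
  have hc : ((t⁻¹ * t' : T) : K) ∈ Subgroup.center K := by
    rw [Subgroup.mem_center_iff]
    intro g
    have h1 := DFunLike.congr_fun h g
    simp only [MulAut.conj_apply] at h1
    have h2 : g = (t : K)⁻¹ * ((t' : K) * g * (t' : K)⁻¹) * t := by
      rw [← h1]
      group
    change g * ((t : K)⁻¹ * t') = (t : K)⁻¹ * t' * g
    rw [eq_comm]
    calc (t : K)⁻¹ * t' * g = ((t : K)⁻¹ * ((t' : K) * g * (t' : K)⁻¹) * t) * ((t : K)⁻¹ * t') := by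
          group
      _ = _ := by rw [← h2]
  have h3 := D_central hθ hφ hz D hD hS (t⁻¹ * t') hc
  have h4 : (((t : K), t) * ((((t⁻¹ * t' : T) : K)), t⁻¹ * t') : K × T) = ((t' : K), t') := by
    refine Prod.ext ?_ (Subtype.ext ?_)
    · change (t : K) * ((t : K)⁻¹ * t') = t'
      group
    · change (t : K) * ((t : K)⁻¹ * t') = t'
      group
  rw [← h4, map_mul, h3, mul_one]

omit [Finite K] in
theorem conj_D {d : ℕ} (D : K × T →* Matrix (Fin d) (Fin d) ℂ) (t s s' : T) (k : K)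
    (h : (s' : K) = MulAut.conj (t : K) s) :
    D ((t : K), t) * D (k, s) = D (MulAut.conj (t : K) k, s') * D ((t : K), t) := by
  rw [← map_mul, ← map_mul]
  congr 1
  refine Prod.ext ?_ (Subtype.ext ?_)
  · change (t : K) * k = (t : K) * k * (t : K)⁻¹ * t
    group
  · change (t : K) * s = (s' : K) * t
    rw [h, MulAut.conj_apply]
    group

theorem matched_inner (hθ : θ ∈ Irr K) (hφ : φ ∈ Irr T)
    (hz : ∀ t : T, (t : K) ∈ Subgroup.center K → θ t * φ 1 = θ 1 * φ t)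
    (hβ : ∀ β ∈ AutTh T θ, ∃ t : T, β = MulAut.conj (t : K)) : MatchedAut T θ φ := by
  obtain ⟨d, D, -, hD, hS⟩ := exists_D hθ hφ
  obtain ⟨R, hR⟩ := hom_of_rel (A := AutTh T θ) (M := Matrix (Fin d) (Fin d) ℂ)
    (fun β Z => ∃ t : T, β.1 = MulAut.conj (t : K) ∧ Z = D ((t : K), t))
    ⟨1, by simp, (map_one D).symm⟩
    (by
      rintro a b x y ⟨t, ht, rfl⟩ ⟨s, hs, rfl⟩
      refine ⟨t * s, ?_, ?_⟩
      · change a.1 * b.1 = _
        rw [ht, hs, Subgroup.coe_mul, map_mul]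
      · rw [← map_mul]
        rfl)
    (by
      rintro a x y ⟨t, ht, rfl⟩ ⟨s, hs, rfl⟩
      exact D_uniq hθ hφ hz D hD hS t s (ht.symm.trans hs))
    (by
      intro a
      obtain ⟨t, ht⟩ := hβ a.1 a.2
      exact ⟨_, t, ht, rfl⟩)
  refine ⟨d, D, R, hD, ?_, ?_⟩
  · intro α k s s' h
    obtain ⟨t, ht, hRt⟩ := hR α
    rw [hRt, ht]
    rw [ht] at h
    exact conj_D D t s s' k h
  · intro α t h
    obtain ⟨s, hs, hRs⟩ := hR α
    rw [hRs]
    exact D_uniq hθ hφ hz D hD hS s t (hs.symm.trans h)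

theorem matched_two (hθ : θ ∈ Irr K) (hφ : φ ∈ Irr T)
    (hz : ∀ t : T, (t : K) ∈ Subgroup.center K → θ t * φ 1 = θ 1 * φ t)
    (α : MulAut K) (hαT : ∀ x, α x ∈ T ↔ x ∈ T) (t0 : T)
    (hα2 : α * α = MulAut.conj (t0 : K)) (hαθ : ∀ x, θ (α x) = θ x)
    (hαφ : ∀ t t' : T, (t' : K) = α t → φ t' = φ t)
    (hnot : ∀ t : T, α ≠ MulAut.conj (t : K))
    (hβ : ∀ β ∈ AutTh T θ, ∃ t : T, β = MulAut.conj (t : K) ∨ β = α * MulAut.conj (t : K)) :
    MatchedAut T θ φ := by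
  obtain ⟨d, D, hd, hD, hS⟩ := exists_D hθ hφ
  -- the action of `α` on `K × T`
  let αT : T →* T :=
    { toFun := fun t => ⟨α t, (hαT t).2 t.2⟩
      map_one' := Subtype.ext (map_one α)
      map_mul' := fun a b => Subtype.ext (map_mul α _ _) }
  have hαTv : ∀ t : T, ((αT t : T) : K) = α t := fun t => rfl
  let αX : K × T →* K × T := α.toMonoidHom.prodMap αT
  have hαX : ∀ k t, αX (k, t) = (α k, αT t) := fun k t => rfl
  obtain ⟨P0, Q0, hPQ, hQP, hP, -⟩ := gl_conj D (D.comp αX) (by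
    rintro ⟨k, t⟩
    change (D (k, t)).trace = (D (α k, αT t)).trace
    rw [hD, hD, hαθ]
    congr 1
    have h1 : (αT t)⁻¹ = αT t⁻¹ := (map_inv αT t).symm
    rw [h1]
    exact (hαφ t⁻¹ (αT t⁻¹) rfl).symm)
  have hP' : ∀ k t, P0 * D (k, t) = D (α k, αT t) * P0 := fun k t => hP (k, t)
  have hα2' : ∀ x, α (α x) = (t0 : K) * x * (t0 : K)⁻¹ := by
    intro x
    have := DFunLike.congr_fun hα2 x
    exact this
  have hα2T : ∀ s : T, αT (αT s) = t0 * s * t0⁻¹ := fun s => Subtype.ext (hα2' s)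
  -- the square is a scalar multiple of `D (t0, t0)`
  obtain ⟨c, hc⟩ := hS (D ((t0 : K)⁻¹, t0⁻¹) * (P0 * P0)) (by
    rintro ⟨k, s⟩
    have h1 : P0 * P0 * D (k, s) = D ((t0 : K) * k * (t0 : K)⁻¹, t0 * s * t0⁻¹) * (P0 * P0) := by
      rw [Matrix.mul_assoc, hP', ← Matrix.mul_assoc, hP', hα2', hα2T, Matrix.mul_assoc]
    have h2 : (((t0 : K)⁻¹, t0⁻¹) * ((t0 : K) * k * (t0 : K)⁻¹, t0 * s * t0⁻¹) : K × T) =
        (k, s) * ((t0 : K)⁻¹, t0⁻¹) := by
      refine Prod.ext ?_ ?_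
      · change (t0 : K)⁻¹ * ((t0 : K) * k * (t0 : K)⁻¹) = k * (t0 : K)⁻¹
        group
      · change t0⁻¹ * (t0 * s * t0⁻¹) = s * t0⁻¹
        group
    calc D ((t0 : K)⁻¹, t0⁻¹) * (P0 * P0) * D (k, s)
        = D ((t0 : K)⁻¹, t0⁻¹) * (P0 * P0 * D (k, s)) := Matrix.mul_assoc _ _ _
      _ = (D ((t0 : K)⁻¹, t0⁻¹) * D ((t0 : K) * k * (t0 : K)⁻¹, t0 * s * t0⁻¹)) * (P0 * P0) := by
          rw [h1, ← Matrix.mul_assoc]
      _ = (D (k, s) * D ((t0 : K)⁻¹, t0⁻¹)) * (P0 * P0) := by rw [← map_mul, h2, map_mul]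
      _ = _ := Matrix.mul_assoc _ _ _)
  have hP2 : P0 * P0 = c • D ((t0 : K), t0) := by
    have h1 : D ((t0 : K), t0) * (D ((t0 : K)⁻¹, t0⁻¹) * (P0 * P0)) = P0 * P0 := by
      rw [← Matrix.mul_assoc, ← map_mul]
      have h2 : (((t0 : K), t0) * ((t0 : K)⁻¹, t0⁻¹) : K × T) = 1 := by
        refine Prod.ext ?_ ?_
        · exact mul_inv_cancel _
        · exact mul_inv_cancel _
      rw [h2, map_one, Matrix.one_mul]
    rw [← h1, hc, Matrix.mul_smul, Matrix.mul_one]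
  have hc0 : c ≠ 0 := by
    rintro rfl
    rw [zero_smul] at hP2
    have h1 : (1 : Matrix (Fin d) (Fin d) ℂ) = 0 := by
      calc (1 : Matrix (Fin d) (Fin d) ℂ) = Q0 * (Q0 * (P0 * P0)) := by
            rw [← Matrix.mul_assoc Q0 P0, hQP, Matrix.one_mul, hQP]
        _ = 0 := by rw [hP2, Matrix.mul_zero, Matrix.mul_zero]
    have h2 := congrFun (congrFun h1 ⟨0, hd⟩) ⟨0, hd⟩
    simp at h2
  obtain ⟨e, he⟩ : ∃ e : ℂ, e * e = c⁻¹ := by
    obtain ⟨e, he⟩ := IsAlgClosed.exists_pow_nat_eq (c⁻¹) (n := 2) (by norm_num)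
    exact ⟨e, by rw [← he, sq]⟩
  set P : Matrix (Fin d) (Fin d) ℂ := e • P0 with hPdef
  have hPD : ∀ k t, P * D (k, t) = D (α k, αT t) * P := by
    intro k t
    rw [hPdef, Matrix.smul_mul, hP', Matrix.mul_smul]
  have hPP : P * P = D ((t0 : K), t0) := by
    rw [hPdef, Matrix.smul_mul, Matrix.mul_smul, smul_smul, hP2, smul_smul, he,
      inv_mul_cancel₀ hc0, one_smul]
  have hαinv : ∀ t : T, ∃ u : T, α (u : K) = t := by
    intro t
    refine ⟨⟨α⁻¹ t, ?_⟩, ?_⟩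
    · rw [← hαT, MulAut.apply_inv_self]
      exact t.2
    · exact MulAut.apply_inv_self _ α (t : K)
  have hconjα : ∀ u t : T, α (u : K) = t → MulAut.conj (t : K) * α = α * MulAut.conj (u : K) := by
    intro u t h
    ext x
    simp only [MulAut.mul_apply, MulAut.conj_apply, map_mul, map_inv, h]
  have hDα : ∀ u t : T, α (u : K) = t → D ((t : K), t) * P = P * D ((u : K), u) := by
    intro u t h
    rw [hPD]
    congr 2
    exact Prod.ext h.symm (Subtype.ext h.symm)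
  obtain ⟨R, hR⟩ := hom_of_rel (A := AutTh T θ) (M := Matrix (Fin d) (Fin d) ℂ)
    (fun β Z => ∃ t : T, (β.1 = MulAut.conj (t : K) ∧ Z = D ((t : K), t)) ∨
      (β.1 = α * MulAut.conj (t : K) ∧ Z = P * D ((t : K), t)))
    ⟨1, Or.inl ⟨by simp, (map_one D).symm⟩⟩
    (by
      rintro a b x y ⟨t, ⟨ht, rfl⟩ | ⟨ht, rfl⟩⟩ ⟨s, ⟨hs, rfl⟩ | ⟨hs, rfl⟩⟩
      · refine ⟨t * s, Or.inl ⟨?_, ?_⟩⟩
        · change a.1 * b.1 = _
          rw [ht, hs, Subgroup.coe_mul, map_mul]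
        · rw [← map_mul]
          rfl
      · obtain ⟨u, hu⟩ := hαinv t
        refine ⟨u * s, Or.inr ⟨?_, ?_⟩⟩
        · change a.1 * b.1 = _
          rw [ht, hs, ← mul_assoc, hconjα u t hu, mul_assoc, Subgroup.coe_mul, map_mul]
        · rw [← Matrix.mul_assoc, hDα u t hu, Matrix.mul_assoc, ← map_mul]
          rfl
      · refine ⟨t * s, Or.inr ⟨?_, ?_⟩⟩
        · change a.1 * b.1 = _
          rw [ht, hs, Subgroup.coe_mul, map_mul, mul_assoc]
        · rw [Matrix.mul_assoc, ← map_mul]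
          rfl
      · obtain ⟨u, hu⟩ := hαinv t
        refine ⟨t0 * (u * s), Or.inl ⟨?_, ?_⟩⟩
        · change a.1 * b.1 = _
          rw [ht, hs, Subgroup.coe_mul, Subgroup.coe_mul, map_mul, map_mul, ← hα2]
          calc α * MulAut.conj (t : K) * (α * MulAut.conj (s : K))
              = α * (MulAut.conj (t : K) * α) * MulAut.conj (s : K) := by simp only [mul_assoc]
            _ = α * (α * MulAut.conj (u : K)) * MulAut.conj (s : K) := by rw [hconjα u t hu]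
            _ = _ := by simp only [mul_assoc]
        · calc P * D ((t : K), t) * (P * D ((s : K), s))
              = P * (D ((t : K), t) * P) * D ((s : K), s) := by simp only [Matrix.mul_assoc]
            _ = (P * P) * (D ((u : K), u) * D ((s : K), s)) := by
                rw [hDα u t hu]
                simp only [Matrix.mul_assoc]
            _ = _ := by
                rw [hPP, ← map_mul, ← map_mul]
                rfl)
    (by
      rintro a x y ⟨t, ⟨ht, rfl⟩ | ⟨ht, rfl⟩⟩ ⟨s, ⟨hs, rfl⟩ | ⟨hs, rfl⟩⟩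
      · exact D_uniq hθ hφ hz D hD hS t s (ht.symm.trans hs)
      · exfalso
        apply hnot (t * s⁻¹)
        have h1 := ht.symm.trans hs
        rw [Subgroup.coe_mul, Subgroup.coe_inv, map_mul, map_inv]
        exact (eq_mul_inv_of_mul_eq h1.symm)
      · exfalso
        apply hnot (s * t⁻¹)
        have h1 := hs.symm.trans ht
        rw [Subgroup.coe_mul, Subgroup.coe_inv, map_mul, map_inv]
        exact (eq_mul_inv_of_mul_eq h1.symm)
      · rw [D_uniq hθ hφ hz D hD hS t s (mul_left_cancel (ht.symm.trans hs))])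
    (by
      intro a
      obtain ⟨t, ht | ht⟩ := hβ a.1 a.2
      · exact ⟨_, t, Or.inl ⟨ht, rfl⟩⟩
      · exact ⟨_, t, Or.inr ⟨ht, rfl⟩⟩)
  refine ⟨d, D, R, hD, ?_, ?_⟩
  · intro β k s s' h
    obtain ⟨t, ⟨ht, hRt⟩ | ⟨ht, hRt⟩⟩ := hR β
    · rw [hRt, ht]
      rw [ht] at h
      exact conj_D D t s s' k h
    · rw [hRt, ht]
      rw [ht] at h
      have h1 : (t * s * t⁻¹ : T) = (⟨MulAut.conj (t : K) s, (t * s * t⁻¹).2⟩ : T) := rfl
      have h2 := conj_D D t s (t * s * t⁻¹) k rfl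
      rw [Matrix.mul_assoc, h2, ← Matrix.mul_assoc, hPD, Matrix.mul_assoc]
      congr 2
      exact Prod.ext rfl (Subtype.ext h.symm)
  · intro β t h
    obtain ⟨s, ⟨hs, hRs⟩ | ⟨hs, hRs⟩⟩ := hR β
    · rw [hRs]
      exact D_uniq hθ hφ hz D hD hS s t (hs.symm.trans h)
    · exfalso
      apply hnot (t * s⁻¹)
      have h1 := h.symm.trans hs
      rw [Subgroup.coe_mul, Subgroup.coe_inv, map_mul, map_inv]
      exact (eq_mul_inv_of_mul_eq h1.symm)

end Pool.Agent.Helper57.AN
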