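import Pool.Agent.Helper57.AN.Invol
import Pool.Agent.Helper57.AN.MatchTwo
import Pool.Agent.Helper57.AN.GoodStd
import Pool.Agent.Helper81.AN.CntDefs

/-!
# AN-F3 FinOne: equality of counts gives the data `Dat p K T`
-/

set_option autoImplicit false

open scoped IsMulCommutative

namespace Pool.Agent.Helper57.AN

open Pool.Agent.Helper42.INC Pool.Agent.Helper7.MK Pool.Agent.Helper81.AN

section res

variable {p : ℕ} {K : Type} [Group K] (S : Subgroup K) (α : MulAut K)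
  (hS : ∀ x, α x ∈ S ↔ x ∈ S)

/-- the restriction of an automorphism -/
def resA : S ≃* S where
  toFun t := ⟨α t, (hS t).2 t.2⟩
  invFun t := ⟨α⁻¹ t, by
    rw [← hS, MulAut.apply_inv_self]
    exact t.2⟩
  left_inv t := Subtype.ext (MulAut.inv_apply_self K α t)
  right_inv t := Subtype.ext (MulAut.apply_inv_self K α t)
  map_mul' a b := Subtype.ext (map_mul α _ _)

theorem resA_coe (t : S) : ((resA S α hS t : S) : K) = α t := rfl

variable [Finite K]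

/-- the twist of a character -/
def twA (φ : IrrP p S) : IrrP p S :=
  ⟨fun t => φ.1 (resA S α hS t), irr_comp (resA S α hS) φ.2.1, by
    obtain ⟨n, hn, hn'⟩ := φ.2.2
    refine ⟨n, ?_, hn'⟩
    change φ.1 (resA S α hS 1) = n
    rw [map_one, hn]⟩

/-- the label of a character -/
noncomputable def labA (z : S) (φ : IrrP p S) : ℂ × ZMod p :=
  (φ.1 z / φ.1 1, (deg φ.1 : ZMod p) ^ 2)

theorem irr_one_ne {G : Type} [Group G] [Finite G] {θ : G → ℂ} (h : θ ∈ Irr G) : θ 1 ≠ 0 := by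
  obtain ⟨n, hn0, hn⟩ := irr_one h
  rw [hn]
  exact_mod_cast hn0.ne'

theorem deg_sq_ne [Fact p.Prime] {G : Type} [Group G] [Finite G] {θ : G → ℂ} (h : θ ∈ IrrP p G) :
    (deg θ : ZMod p) ^ 2 ≠ 0 := by
  obtain ⟨n, hn, hn'⟩ := h.2
  rw [deg_eq hn]
  intro h0
  apply hn'
  rw [← ZMod.natCast_eq_zero_iff]
  exact pow_eq_zero_iff (two_ne_zero) |>.1 h0

theorem irrP_of_deg [Fact p.Prime] {G : Type} [Group G] [Finite G] {θ : G → ℂ} (h : θ ∈ Irr G)
    {d : ZMod p} (hd : d ≠ 0) (h' : (deg θ : ZMod p) ^ 2 = d) : θ ∈ IrrP p G := by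
  refine ⟨h, deg θ, (deg_cast h).symm, fun hp => hd ?_⟩
  rw [← h', (ZMod.natCast_eq_zero_iff _ _).2 hp, zero_pow two_ne_zero]

theorem cF_eq [Fact p.Prime] (z : S) (ν : ℂ) (d : ZMod p) (hd : d ≠ 0) :
    cF p S α z ν d = Nat.card {φ : IrrP p S // labA S z φ = (ν, d) ∧ twA S α hS φ = φ} := by
  refine Nat.card_congr
    { toFun := fun θ => ⟨⟨θ.1, irrP_of_deg θ.2.1 hd θ.2.2.2.1⟩, ?_, ?_⟩
      invFun := fun φ => ⟨φ.1.1, φ.1.2.1, ?_, ?_, ?_⟩
      left_inv := fun θ => rfl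
      right_inv := fun φ => rfl }
  · refine Prod.ext ?_ θ.2.2.2.1
    change θ.1 z / θ.1 1 = ν
    rw [θ.2.2.1 z rfl, mul_div_assoc, div_self (irr_one_ne θ.2.1), mul_one]
  · apply Subtype.ext
    funext t
    exact θ.2.2.2.2 t (resA S α hS t) rfl
  · intro t ht
    have h1 : t = z := Subtype.ext ht
    have h2 : φ.1.1 z / φ.1.1 1 = ν := congrArg Prod.fst φ.2.1
    calc φ.1.1 t = φ.1.1 z := by rw [h1]
      _ = φ.1.1 z / φ.1.1 1 * φ.1.1 1 := (div_mul_cancel₀ _ (irr_one_ne φ.1.2.1)).symm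
      _ = ν * φ.1.1 1 := by rw [h2]
  · exact congrArg Prod.snd φ.2.1
  · intro t t' ht
    have h1 : t' = resA S α hS t := Subtype.ext ht
    rw [h1]
    exact congrFun (congrArg Subtype.val φ.2.2) t

theorem cN_eq [Fact p.Prime] (z : S) (ν : ℂ) (d : ZMod p) (hd : d ≠ 0) :
    cN p S α z ν d = Nat.card {φ : IrrP p S // labA S z φ = (ν, d) ∧ ¬ twA S α hS φ = φ} := by
  refine Nat.card_congr
    { toFun := fun θ => ⟨⟨θ.1, irrP_of_deg θ.2.1 hd θ.2.2.2.1⟩, ?_, ?_⟩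
      invFun := fun φ => ⟨φ.1.1, φ.1.2.1, ?_, ?_, ?_⟩
      left_inv := fun θ => rfl
      right_inv := fun φ => rfl }
  · refine Prod.ext ?_ θ.2.2.2.1
    change θ.1 z / θ.1 1 = ν
    rw [θ.2.2.1 z rfl, mul_div_assoc, div_self (irr_one_ne θ.2.1), mul_one]
  · intro h
    apply θ.2.2.2.2
    intro t t' ht
    have h1 : t' = resA S α hS t := Subtype.ext ht
    rw [h1]
    exact congrFun (congrArg Subtype.val h) t
  · intro t ht
    have h1 : t = z := Subtype.ext ht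
    have h2 : φ.1.1 z / φ.1.1 1 = ν := congrArg Prod.fst φ.2.1
    calc φ.1.1 t = φ.1.1 z := by rw [h1]
      _ = φ.1.1 z / φ.1.1 1 * φ.1.1 1 := (div_mul_cancel₀ _ (irr_one_ne φ.1.2.1)).symm
      _ = ν * φ.1.1 1 := by rw [h2]
  · exact congrArg Prod.snd φ.2.1
  · intro h
    apply φ.2.2
    apply Subtype.ext
    funext t
    exact h t (resA S α hS t) rfl

/-- the value of the central element `z` is one of `1, -1` -/
theorem labA_cases (z : S) (hz : ∀ x : S, z * x = x * z) (hz2 : z * z = 1) (φ : IrrP p S) :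
    (labA S z φ).1 = 1 ∨ (labA S z φ).1 = -1 := by
  have hzc : z ∈ Subgroup.center S := by
    rw [Subgroup.mem_center_iff]
    intro g
    exact (hz g).symm
  obtain ⟨μ, hμ⟩ := exists_central (Subgroup.center S).subtype (fun c => c.2) φ.2.1
  have h1 : φ.1 z = (μ ⟨z, hzc⟩ : ℂ) * φ.1 1 := by
    have := hμ ⟨z, hzc⟩ 1
    simpa using this
  have h2 : labA S z φ = ((μ ⟨z, hzc⟩ : ℂ), (deg φ.1 : ZMod p) ^ 2) := by
    refine Prod.ext ?_ rfl
    change φ.1 z / φ.1 1 = _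
    rw [h1, mul_div_assoc, div_self (irr_one_ne φ.2.1), mul_one]
  rw [h2]
  have h3 : (μ ⟨z, hzc⟩ : ℂ) * (μ ⟨z, hzc⟩ : ℂ) = 1 := by
    rw [← Units.val_mul, ← map_mul]
    have : (⟨z, hzc⟩ * ⟨z, hzc⟩ : Subgroup.center S) = 1 := Subtype.ext hz2
    rw [this, map_one, Units.val_one]
  exact mul_self_eq_one_iff.1 h3

end res

/-- (FIN1) equality of counts gives the data of `Good` -/
theorem good_of_counts {p : ℕ} [Fact p.Prime] {K : Type} [Group K] [Finite K]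
    (z : K) (hzc : ∀ k, k ∈ Subgroup.center K ↔ (k = 1 ∨ k = z)) (T : Subgroup K) (hzT : z ∈ T)
    (α : MulAut K) (hα : ∀ x, α x ∈ T ↔ x ∈ T)
    (hα2 : ∃ t ∈ T, α * α = MulAut.conj t)
    (hβ : ∀ β : MulAut K, (∀ x, β x ∈ T ↔ x ∈ T) →
      ∃ t ∈ T, β = MulAut.conj t ∨ β = α * MulAut.conj t)
    (hcount : ∀ ν : ℂ, (ν = 1 ∨ ν = -1) → ∀ d : ZMod p, d ≠ 0 →
      cF p T α z ν d = cF p (⊤ : Subgroup K) α z ν d ∧
      cN p T α z ν d = cN p (⊤ : Subgroup K) α z ν d) : Dat p K T := by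
  obtain ⟨t0, ht0, hα2⟩ := hα2
  have hαα : ∀ x, α (α x) = t0 * x * t0⁻¹ := fun x => DFunLike.congr_fun hα2 x
  have hzcomm : ∀ x, z * x = x * z := by
    intro x
    exact (Subgroup.mem_center_iff.1 ((hzc z).2 (Or.inr rfl)) x).symm
  have hzz : z * z = 1 := by
    rcases (hzc (z * z)).1 (mul_mem ((hzc z).2 (Or.inr rfl)) ((hzc z).2 (Or.inr rfl))) with h | h
    · exact h
    · have h1 : z = 1 := by
        have := mul_eq_left.1 h
        exact this
      rw [h1, mul_one]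
  have hαz : α z = z := by
    have h1 : α z ∈ Subgroup.center K := by
      rw [Subgroup.mem_center_iff]
      intro g
      have h2 := congrArg α (hzcomm (α⁻¹ g))
      rw [map_mul, map_mul, MulAut.apply_inv_self] at h2
      exact h2.symm
    rcases (hzc _).1 h1 with h | h
    · have h3 : z = 1 := α.injective (h.trans (map_one α).symm)
      rw [h3, map_one]
    · exact h
  have hfin : ∀ S : Subgroup K, Finite (IrrP p S) := by
    intro S
    exact Finite.of_injective (fun ψ : IrrP p S => (⟨ψ.1, ψ.2.1⟩ : Irr S)) fun ψ ψ' h =>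
      Subtype.ext (congrArg (fun t : Irr S => t.1) h)
  have htop : ∀ x, α x ∈ (⊤ : Subgroup K) ↔ x ∈ (⊤ : Subgroup K) := fun x =>
    ⟨fun _ => trivial, fun _ => trivial⟩
  -- the twist is an involution and preserves labels
  have hinv : ∀ (S : Subgroup K) (hS : ∀ x, α x ∈ S ↔ x ∈ S) (_ : t0 ∈ S) (φ : IrrP p S),
      twA S α hS (twA S α hS φ) = φ := by
    intro S hS hS0 φ
    apply Subtype.ext
    funext t
    change φ.1 (resA S α hS (resA S α hS t)) = φ.1 t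
    have h1 : resA S α hS (resA S α hS t) = ⟨t0, hS0⟩ * t * ⟨t0, hS0⟩⁻¹ :=
      Subtype.ext (hαα t)
    rw [h1]
    exact Irr.isClass φ.2.1 ⟨t0, hS0⟩ t
  have hlab : ∀ (S : Subgroup K) (hS : ∀ x, α x ∈ S ↔ x ∈ S) (hzS : z ∈ S) (φ : IrrP p S),
      labA S ⟨z, hzS⟩ (twA S α hS φ) = labA S ⟨z, hzS⟩ φ := by
    intro S hS hzS φ
    refine Prod.ext ?_ ?_
    · change φ.1 (resA S α hS ⟨z, hzS⟩) / φ.1 (resA S α hS 1) = φ.1 ⟨z, hzS⟩ / φ.1 1
      rw [map_one]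
      have h1 : resA S α hS ⟨z, hzS⟩ = ⟨z, hzS⟩ := Subtype.ext hαz
      rw [h1]
    · change (deg (twA S α hS φ).1 : ZMod p) ^ 2 = (deg φ.1 : ZMod p) ^ 2
      have h1 : deg (twA S α hS φ).1 = deg φ.1 := by
        unfold deg
        change ⌊(φ.1 (resA S α hS 1)).re⌋₊ = _
        rw [map_one]
      rw [h1]
  -- counting
  have hc1 : ∀ (S : Subgroup K) (hS : ∀ x, α x ∈ S ↔ x ∈ S) (hzS : z ∈ S) (l : ℂ × ZMod p),
      (¬ ((l.1 = 1 ∨ l.1 = -1) ∧ l.2 ≠ 0)) → ∀ (P : IrrP p S → Prop),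
      Nat.card {φ : IrrP p S // labA S ⟨z, hzS⟩ φ = l ∧ P φ} = 0 := by
    intro S hS hzS l hl P
    rw [Nat.card_eq_zero]
    left
    refine ⟨fun φ => hl ?_⟩
    rw [← φ.2.1]
    refine ⟨labA_cases S ⟨z, hzS⟩ (fun x => Subtype.ext (hzcomm x)) (Subtype.ext hzz) φ.1, ?_⟩
    exact deg_sq_ne φ.1.2
  have := hfin T
  have := hfin ⊤
  obtain ⟨F', hF1, hF2⟩ := invol (X := IrrP p (⊤ : Subgroup K)) (Y := IrrP p T)
    (L := ℂ × ZMod p) (twA ⊤ α htop) (twA T α hα) (hinv ⊤ htop trivial) (hinv T hα ht0)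
    (labA ⊤ ⟨z, trivial⟩) (labA T ⟨z, hzT⟩) (hlab ⊤ htop trivial) (hlab T hα hzT)
    (by
      rintro ⟨ν, d⟩
      by_cases hl : (ν = 1 ∨ ν = -1) ∧ d ≠ 0
      · rw [← cF_eq ⊤ α htop ⟨z, trivial⟩ ν d hl.2, ← cF_eq T α hα ⟨z, hzT⟩ ν d hl.2]
        exact (hcount ν hl.1 d hl.2).1.symm
      · rw [hc1 ⊤ htop trivial (ν, d) hl, hc1 T hα hzT (ν, d) hl])
    (by
      rintro ⟨ν, d⟩
      by_cases hl : (ν = 1 ∨ ν = -1) ∧ d ≠ 0
      · rw [← cN_eq ⊤ α htop ⟨z, trivial⟩ ν d hl.2, ← cN_eq T α hα ⟨z, hzT⟩ ν d hl.2]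
        exact (hcount ν hl.1 d hl.2).2.symm
      · rw [hc1 ⊤ htop trivial (ν, d) hl, hc1 T hα hzT (ν, d) hl])
  -- transport from `K` to `⊤`
  let E : IrrP p K ≃ IrrP p (⊤ : Subgroup K) :=
    { toFun := fun θ => ⟨fun t => θ.1 t, irr_comp Subgroup.topEquiv θ.2.1, θ.2.2⟩
      invFun := fun θ => ⟨fun x => θ.1 ⟨x, trivial⟩,
        irr_comp (Subgroup.topEquiv (G := K)).symm θ.2.1, θ.2.2⟩
      left_inv := fun θ => rfl
      right_inv := fun θ => rfl }
  have hE : ∀ θ (t : (⊤ : Subgroup K)), (E θ).1 t = θ.1 t := fun θ t => rfl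
  have hFα : ∀ θ θ' : IrrP p K, (∀ x, θ'.1 x = θ.1 (α x)) →
      F' (E θ') = twA T α hα (F' (E θ)) := by
    intro θ θ' h
    rw [← hF1]
    congr 1
    apply Subtype.ext
    funext t
    exact h t
  have hdeg : ∀ θ : IrrP p K, (deg (F' (E θ)).1 : ZMod p) ^ 2 = (deg θ.1 : ZMod p) ^ 2 := by
    intro θ
    exact congrArg Prod.snd (hF2 (E θ))
  refine ⟨E.trans F', ?_, hdeg, ?_⟩
  · intro β hβT θ θ' hθ t t' ht
    change (F' (E θ')).1 t = (F' (E θ)).1 t'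
    obtain ⟨s, hs, rfl | rfl⟩ := hβ β hβT
    · have h1 : θ' = θ := by
        apply Subtype.ext
        funext x
        rw [hθ]
        exact Irr.isClass θ.2.1 s x
      have h2 : t' = ⟨s, hs⟩ * t * ⟨s, hs⟩⁻¹ := Subtype.ext ht
      rw [h1, h2]
      exact (Irr.isClass (F' (E θ)).2.1 ⟨s, hs⟩ t).symm
    · have h1 : ∀ x, θ'.1 x = θ.1 (α x) := by
        intro x
        rw [hθ]
        change θ.1 (α (s * x * s⁻¹)) = _
        rw [map_mul, map_mul, map_inv]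
        exact Irr.isClass θ.2.1 (α s) (α x)
      rw [hFα θ θ' h1]
      change (F' (E θ)).1 (resA T α hα t) = (F' (E θ)).1 t'
      have h2 : t' = (resA T α hα ⟨s, hs⟩) * resA T α hα t * (resA T α hα ⟨s, hs⟩)⁻¹ := by
        apply Subtype.ext
        rw [ht]
        change α (s * t * s⁻¹) = α s * α t * (α s)⁻¹
        rw [map_mul, map_mul, map_inv]
      rw [h2]
      exact (Irr.isClass (F' (E θ)).2.1 _ _).symm
  · intro θ
    change MatchedAut T θ.1 (F' (E θ)).1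
    set φ := F' (E θ) with hφ
    have hθ1 := irr_one_ne θ.2.1
    have hφ1 := irr_one_ne φ.2.1
    have hlz : φ.1 ⟨z, hzT⟩ / φ.1 1 = θ.1 z / θ.1 1 := congrArg Prod.fst (hF2 (E θ))
    have hz : ∀ t : T, (t : K) ∈ Subgroup.center K → θ.1 t * φ.1 1 = θ.1 1 * φ.1 t := by
      intro t ht
      rcases (hzc _).1 ht with h | h
      · have h1 : t = 1 := Subtype.ext h
        rw [h1]
        rfl
      · have h1 : t = ⟨z, hzT⟩ := Subtype.ext h
        rw [h1]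
        rw [div_eq_div_iff hφ1 hθ1] at hlz
        change θ.1 z * φ.1 1 = θ.1 1 * φ.1 ⟨z, hzT⟩
        rw [← hlz, mul_comm]
    by_cases hc : (∀ x, θ.1 (α x) = θ.1 x) ∧ ∀ t : T, α ≠ MulAut.conj (t : K)
    · refine matched_two θ.2.1 φ.2.1 hz α hα ⟨t0, ht0⟩ hα2 hc.1 ?_ hc.2 ?_
      · intro t t' ht
        have h1 := hFα θ θ (fun x => (hc.1 x).symm)
        have h2 : t' = resA T α hα t := Subtype.ext ht
        rw [h2]
        exact (congrFun (congrArg Subtype.val h1) t).symm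
      · intro β hβT
        obtain ⟨t, ht, h⟩ := hβ β hβT.1
        exact ⟨⟨t, ht⟩, h⟩
    · refine matched_inner θ.2.1 φ.2.1 hz ?_
      intro β hβT
      obtain ⟨t, ht, h | h⟩ := hβ β hβT.1
      · exact ⟨⟨t, ht⟩, h⟩
      · by_cases hin : ∃ s : T, α = MulAut.conj (s : K)
        · obtain ⟨s, hs⟩ := hin
          refine ⟨s * ⟨t, ht⟩, ?_⟩
          rw [h, hs, Subgroup.coe_mul, map_mul]
        · exfalso
          apply hc
          refine ⟨fun x => ?_, fun s hs => hin ⟨s, hs⟩⟩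
          have h1 := hβT.2 (t⁻¹ * x * t)
          rw [h] at h1
          change θ.1 (α (t * (t⁻¹ * x * t) * t⁻¹)) = θ.1 (t⁻¹ * x * t) at h1
          have h2 : t * (t⁻¹ * x * t) * t⁻¹ = x := by group
          rw [h2] at h1
          rw [h1]
          have h3 := Irr.isClass θ.2.1 t⁻¹ x
          rw [inv_inv] at h3
          exact h3

end Pool.Agent.Helper57.AN
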