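import Pool.Agent.Helper57.AN.Cls
import Pool.Agent.Helper42.PL.Final

/-!
# Project AN, block G: the final theorem for a class `𝓕` of simple groups

Copy of `Helper42/PL/Final.lean`, with `PSL(2, k)` replaced by the class `𝓕`.
-/

open scoped Pointwise IsMulCommutative

namespace Pool.Agent.Helper57.AN

open Pool.Agent.Helper42.INC Pool.Agent.Helper7.MK Pool.Agent.Helper24.S7
open Pool.Agent.Helper42.PL (PClass one_stepP stage3P)

variable {p : ℕ} {𝓕 : (F : Type) → [Group F] → Prop}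

theorem cls_class [Fact p.Prime] (hS : Simp 𝓕)
    (hF : ∀ (F : Type) [Group F] [Finite F], 𝓕 F → Her p 𝓕 F) :
    PClass p (fun G [Group G] => Cls p 𝓕 G) := by
  refine ⟨?_, ?_⟩
  · intro X Y _ _ _ _ f hf hi hY
    exact Cls.central hS f hf (hY.idx hS hF f.range hi)
  · intro X Y _ _ _ _ f hf hX
    exact hX.surj hS f hf

theorem cls_comp [Fact p.Prime] (hS : Simp 𝓕) {G : Type} [Group G] [Finite G] (hG : Cls p 𝓕 G)
    (K : Subgroup G) (hK : K.Normal) (S : Subgroup G) (hSK : S ≤ K) (h0 : ∀ k ∈ K, cj k S = S) :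
    Cls p 𝓕 (S ⧸ Subgroup.center S) := by
  have h1 : Cls p 𝓕 K := hG.normal hS K hK
  have hn : (S.subgroupOf K).Normal := by
    refine ⟨fun n hn k => ?_⟩
    rw [Subgroup.mem_subgroupOf] at hn ⊢
    have h2 := h0 k k.2
    rw [← h2, mem_cj]
    have h3 : (k : G)⁻¹ * ((k * n * k⁻¹ : K) : G) * k = n := by
      push_cast
      group
    rw [h3]
    exact hn
  have h4 : Cls p 𝓕 (S.subgroupOf K) := h1.normal hS _ hn
  have h5 : Cls p 𝓕 S := h4.congr hS (Subgroup.subgroupOfEquivOfLe hSK)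
  exact h5.surj hS (QuotientGroup.mk' _) (QuotientGroup.mk'_surjective _)

theorem good_compP [Fact p.Prime] (hS : Simp 𝓕)
    (hPG : ∀ (F : Type) [Group F] [Finite F], 𝓕 F → PGood p F)
    {S : Type} [Group S] [Finite S] (hC : Cls p 𝓕 (S ⧸ Subgroup.center S))
    (hperf : ⁅(⊤ : Subgroup S), (⊤ : Subgroup S)⁆ = ⊤)
    (h2 : IsSimpleGroup (S ⧸ Subgroup.center S)) (h3 : ¬ p ∣ Nat.card (Subgroup.center S))
    (h4 : p ∣ Nat.card S) : Good p S := by
  by_cases hp2 : p ^ 2 ∣ Nat.card S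
  · have hab : ¬ ∀ a b : S ⧸ Subgroup.center S, a * b = b * a := by
      intro hc
      have hle : ⁅(⊤ : Subgroup S), (⊤ : Subgroup S)⁆ ≤ Subgroup.center S := by
        rw [Subgroup.commutator_le]
        intro a _ b _
        rw [← QuotientGroup.eq_one_iff, commutatorElement_def]
        change (a : S ⧸ Subgroup.center S) * b * (a : S ⧸ Subgroup.center S)⁻¹ *
          (b : S ⧸ Subgroup.center S)⁻¹ = 1
        rw [hc (a : S ⧸ Subgroup.center S) b]
        group
      rw [hperf, top_le_iff] at hle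
      apply h3
      rw [hle, Subgroup.card_top]
      exact h4
    have hdvd : p ^ 2 ∣ Nat.card (S ⧸ Subgroup.center S) := by
      have h5 := Subgroup.card_eq_card_quotient_mul_card_subgroup (Subgroup.center S)
      rw [h5] at hp2
      have h6 : Nat.Coprime (p ^ 2) (Nat.card (Subgroup.center S)) :=
        Nat.Coprime.pow_left 2 (((Fact.out : p.Prime).coprime_iff_not_dvd).2 h3)
      exact h6.dvd_of_dvd_mul_right hp2
    rcases hC.simple hS h2 with h | h | h
    · exact absurd h hab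
    · exact Pool.Agent.Helper42.CY.pgood_of_cyclic (S ⧸ Subgroup.center S) h hdvd S hperf
        ⟨MulEquiv.refl _⟩ h3
    · exact hPG _ h S hperf ⟨MulEquiv.refl _⟩ h3
  · exact Pool.Agent.Helper42.IR.F.hII S hperf h4 hp2 h3

theorem final_of_cls [Fact p.Prime] (hS : Simp 𝓕)
    (hF : ∀ (F : Type) [Group F] [Finite F], 𝓕 F → Her p 𝓕 F)
    (hPG : ∀ (F : Type) [Group F] [Finite F], 𝓕 F → PGood p F)
    (G : Type) [Group G] [Finite G] (hG : Cls p 𝓕 G) : McKayCongr p G := by
  refine induct (fun G [Group G] => Cls p 𝓕 G → McKayCongr p G) ?_ G hG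
  intro G _ _ ih hG
  by_contra hn
  have hcore : Core p G :=
    one_stepP (cls_class hS hF) G hG (fun X _ _ hX hs => ih X hs hX) hn
  obtain ⟨K, hKn, hperf, hne, hmin, hpK⟩ := exists_minK hcore hn
  obtain ⟨P⟩ : Nonempty (Sylow p G) := inferInstance
  haveI := hKn
  obtain ⟨L, hL, hNL, hcnt⟩ := stage3P K hperf hne hmin hcore.coprime hpK
    (fun S hSK h0 h1 h2 h3 h4 => good_compP hS hPG (cls_comp hS hG K hKn S hSK h0) (by
      apply Subgroup.map_injective S.subtype_injective
      have h5 := Subgroup.map_subtype_commutator S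
      rw [_root_.commutator_def] at h5
      rw [h5, h1, ← MonoidHom.range_eq_map, Subgroup.range_subtype]) h2 h3 h4) P
  have hPL : (P : Subgroup G) ≤ L := Subgroup.le_normalizer.trans hNL
  have hLc : Cls p 𝓕 L := by
    apply hG.idx hS hF L
    intro hd
    exact P.not_dvd_index (hd.trans (Subgroup.index_dvd_of_le hPL))
  have hLM : McKayCongr p L := ih L (smaller_sub L hL) hLc
  apply hn
  rw [mcKay_iff P]
  intro s hs
  rw [hcnt s hs, (mcKay_iff (P.subtype hPL)).1 hLM s hs]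
  exact cnt_congr (normSubEquiv P L hPL hNL) s

lemma cls_series [Fact p.Prime] (hS : Simp 𝓕) {G : Type} [Group G] [Finite G] (H : ℕ → Subgroup G)
    (h0 : H 0 = ⊥) (n : ℕ) (hs : ∀ i < n, H i ≤ H (i + 1) ∧
      ∃ _ : ((H i).subgroupOf (H (i + 1))).Normal,
        Fac p 𝓕 (H (i + 1) ⧸ (H i).subgroupOf (H (i + 1)))) :
    ∀ i ≤ n, Cls p 𝓕 (H i) := by
  intro i
  induction i with
  | zero =>
    intro _
    have : Subsingleton (H 0) := by
      rw [h0]
      infer_instance
    exact Cls.triv _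
  | succ i ih =>
    intro hi
    obtain ⟨h1, h2, h3⟩ := hs i hi
    refine Cls.ext _ ((H i).subgroupOf (H (i + 1))) ?_ h3
    exact (ih (Nat.le_of_succ_le hi)).congr hS (Subgroup.subgroupOfEquivOfLe h1).symm

/-- the final theorem for groups with a subnormal series with factors in `Fac p 𝓕` -/
theorem final_gen [Fact p.Prime] (hS : Simp 𝓕)
    (hF : ∀ (F : Type) [Group F] [Finite F], 𝓕 F → Her p 𝓕 F)
    (hPG : ∀ (F : Type) [Group F] [Finite F], 𝓕 F → PGood p F)
    (G : Type) [Group G] [Finite G] (n : ℕ) (H : ℕ → Subgroup G) (h0 : H 0 = ⊥) (h1 : H n = ⊤)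
    (hs : ∀ i < n, H i ≤ H (i + 1) ∧ ∃ _ : ((H i).subgroupOf (H (i + 1))).Normal,
      Fac p 𝓕 (H (i + 1) ⧸ (H i).subgroupOf (H (i + 1)))) :
    McKayCongr p G := by
  have h2 := cls_series hS H h0 n hs n le_rfl
  rw [h1] at h2
  exact final_of_cls hS hF hPG G (h2.congr hS Subgroup.topEquiv)

end Pool.Agent.Helper57.AN
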