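import Pool.Agent.Helper57.AN.Cls

/-!
# Project AN, block G: the class of alternating groups; products; symmetric groups of small degree
-/

set_option autoImplicit false

open Equiv

namespace Pool.Agent.Helper57.AN

open Pool.Agent.Helper42.PL (cyc_of_surj cyc_of_inj)

/-- alternating groups of degree at least `2 p` -/
def Alt (p : ℕ) (F : Type) [Group F] : Prop :=
  ∃ n : ℕ, 2 * p ≤ n ∧ Nonempty (F ≃* alternatingGroup (Fin n))

theorem alt_simp {p : ℕ} (hp : 3 ≤ p) : Simp (Alt p) := by
  refine ⟨?_, ?_⟩
  · rintro X Y _ _ e ⟨n, hn, ⟨f⟩⟩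
    exact ⟨n, hn, ⟨e.symm.trans f⟩⟩
  · rintro X _ ⟨n, hn, ⟨f⟩⟩
    have h1 : IsSimpleGroup (alternatingGroup (Fin n)) :=
      alternatingGroup.isSimpleGroup (by rw [Nat.card_eq_fintype_card, Fintype.card_fin]; omega)
    have : Nontrivial X := f.toEquiv.nontrivial
    exact IsSimpleGroup.isSimpleGroup_of_surjective f.symm.toMonoidHom f.symm.surjective

variable {p : ℕ} {𝓕 : (F : Type) → [Group F] → Prop}

theorem Her.triv {X : Type} [Group X] [Subsingleton X] : Her p 𝓕 X := fun H _ => Cls.triv H

theorem Her.of_cyc [Fact p.Prime] (hS : Simp 𝓕) {X : Type} [Group X] [Finite X]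
    (h : ∀ P : Sylow p X, IsCyclic P) : Her p 𝓕 X := by
  intro H _
  exact Cls.of_fac hS (Or.inr (Or.inl (cyc_of_inj H.subtype H.subtype_injective h)))

theorem Her.prod [Fact p.Prime] (hS : Simp 𝓕) {X Y : Type} [Group X] [Group Y] [Finite X]
    [Finite Y] (hX : Her p 𝓕 X) (hY : Her p 𝓕 Y) : Her p 𝓕 (X × Y) := by
  refine Her.extn hS (MonoidHom.snd X Y) Prod.snd_surjective ?_ hY
  have e : X ≃* (MonoidHom.snd X Y).ker :=
    { toFun := fun x => ⟨(x, 1), rfl⟩
      invFun := fun x => x.1.1
      left_inv := fun x => rfl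
      right_inv := fun x => Subtype.ext (Prod.ext rfl (MonoidHom.mem_ker.1 x.2).symm)
      map_mul' := fun x y => Subtype.ext (Prod.ext rfl (one_mul _).symm) }
  exact hX.congr hS e

theorem Her.pi [Fact p.Prime] (hS : Simp 𝓕) {X : Type} [Group X] [Finite X] (hX : Her p 𝓕 X)
    (β : Type) [Finite β] : Her p 𝓕 (β → X) := by
  have key : Finite β → Her p 𝓕 (β → X) := by
    refine Finite.induction_empty_option (P := fun β => Finite β → Her p 𝓕 (β → X)) ?_ ?_ ?_ β
    · intro α β e ih hβ
      have hα : Finite α := Finite.of_equiv β e.symm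
      exact (ih hα).congr hS
        { toFun := fun f b => f (e.symm b)
          invFun := fun f a => f (e a)
          left_inv := fun f => funext fun a => by simp
          right_inv := fun f => funext fun b => by simp
          map_mul' := fun f g => rfl }
    · intro _
      exact Her.triv
    · intro α _ ih _
      exact (hX.prod hS (ih inferInstance)).congr hS
        { toFun := fun f o => Option.elim o f.1 f.2
          invFun := fun f => (f none, fun a => f (some a))
          left_inv := fun f => rfl
          right_inv := fun f => funext fun o => by cases o <;> rfl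
          map_mul' := fun f g => funext fun o => by cases o <;> rfl }
  exact key inferInstance

/-- symmetric groups of degree less than `2 p` have cyclic Sylow `p`-subgroups -/
theorem cyc_perm [hp : Fact p.Prime] {α : Type} [Finite α] (h : Nat.card α < 2 * p) :
    ∀ P : Sylow p (Perm α), IsCyclic P := by
  classical
  have := Fintype.ofFinite α
  intro P
  obtain ⟨k, hk⟩ := IsPGroup.iff_card.1 P.isPGroup'
  have hv : padicValNat p (Nat.card (Perm α)) ≤ 1 := by
    rw [Nat.card_perm]
    have h2 : p.log (Nat.card α) < 2 := by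
      apply Nat.log_lt_of_lt_pow' (by norm_num)
      have := hp.out.two_le
      nlinarith
    rw [padicValNat_factorial h2]
    rw [show Finset.Ico 1 2 = {1} from rfl, Finset.sum_singleton, pow_one]
    exact Nat.lt_succ_iff.1 ((Nat.div_lt_iff_lt_mul hp.out.pos).2 h)
  have hk1 : k ≤ 1 := by
    refine le_trans ?_ hv
    rw [← padicValNat_dvd_iff_le Nat.card_pos.ne']
    rw [← hk]
    exact Subgroup.card_subgroup_dvd_card _
  rcases Nat.le_one_iff_eq_zero_or_eq_one.1 hk1 with h0 | h0
  · rw [h0, pow_zero] at hk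
    have : Subsingleton P := (Nat.card_eq_one_iff_unique.1 hk).1
    infer_instance
  · rw [h0, pow_one] at hk
    exact isCyclic_of_prime_card hk

theorem her_perm_small [Fact p.Prime] (hS : Simp 𝓕) {α : Type} [Finite α]
    (h : Nat.card α < 2 * p) : Her p 𝓕 (Perm α) := Her.of_cyc hS (cyc_perm h)

/-- subgroups of the image of an injective homomorphism -/
theorem Her.embed [Fact p.Prime] (hS : Simp 𝓕) {X G : Type} [Group X] [Group G] [Finite G]
    [Finite X] (f : X →* G) (hX : Her p 𝓕 X) (H : Subgroup G) (hH : H ≤ f.range)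
    (hd : ¬ p ∣ H.index) : Cls p 𝓕 H := by
  have h1 : Cls p 𝓕 (H.comap f) := by
    apply hX
    rw [Subgroup.index_comap]
    intro h
    exact hd (h.trans (Subgroup.relIndex_dvd_index_of_le hH))
  refine h1.surj hS (f.subgroupComap H) ?_
  rintro ⟨y, hy⟩
  obtain ⟨x, rfl⟩ := hH hy
  exact ⟨⟨x, hy⟩, rfl⟩

end Pool.Agent.Helper57.AN
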