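import Mathlib

/-!
# AN-F1 Invol: equivariant bijections of finite sets with an involution and with labels
-/

set_option autoImplicit false

namespace Pool.Agent.Helper57.AN

section one

variable {X : Type} (a : X → X) (ha : ∀ x, a (a x) = x) (e : X → ℕ)
  (he : Function.Injective e)

/-- representatives of the orbits of length two -/
abbrev RR : Type := {x : X // a x ≠ x ∧ e x < e (a x)}

include ha he in
private theorem aux1 (x : X) (hx : a x ≠ x) (h : ¬ e x < e (a x)) :
    a (a x) ≠ a x ∧ e (a x) < e (a (a x)) := by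
  rw [ha]
  refine ⟨fun h1 => hx h1.symm, ?_⟩
  have h2 : e (a x) ≠ e x := fun h3 => hx (he h3)
  omega

/-- the points which are not fixed -/
def NN : {x : X // ¬ a x = x} ≃ RR a e × Bool where
  toFun x := if h : e x.1 < e (a x.1) then (⟨x.1, x.2, h⟩, false)
    else (⟨a x.1, aux1 a ha e he x.1 x.2 h⟩, true)
  invFun y := if y.2 then ⟨a y.1.1, by
      rw [ha]
      exact fun h => y.1.2.1 h.symm⟩ else ⟨y.1.1, y.1.2.1⟩
  left_inv x := by
    by_cases h : e x.1 < e (a x.1)
    · simp [h]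
    · simp [h, ha]
  right_inv y := by
    obtain ⟨⟨y, hy1, hy2⟩, b⟩ := y
    cases b
    · simp [hy2]
    · have h : ¬ e (a y) < e y := by omega
      simp [h, ha]

theorem NN_a (x : X) (hx : ¬ a x = x) (hx' : ¬ a (a x) = a x) :
    NN a ha e he ⟨a x, hx'⟩ = ((NN a ha e he ⟨x, hx⟩).1, !(NN a ha e he ⟨x, hx⟩).2) := by
  by_cases h : e x < e (a x)
  · have h' : ¬ e (a x) < e x := by omega
    simp [NN, h, h', ha]
  · have h' : e (a x) < e x := by
      have := (aux1 a ha e he x hx h).2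
      rwa [ha] at this
    simp [NN, h, h', ha]

end one

theorem invol0 {X Y : Type} [Finite X] [Finite Y] (a : X → X) (b : Y → Y)
    (ha : ∀ x, a (a x) = x) (hb : ∀ y, b (b y) = y)
    (h1 : Nat.card {x // a x = x} = Nat.card {y // b y = y})
    (h2 : Nat.card {x // ¬ a x = x} = Nat.card {y // ¬ b y = y}) :
    ∃ F : X ≃ Y, ∀ x, F (a x) = b (F x) := by
  classical
  obtain ⟨n, ⟨eX⟩⟩ := Finite.exists_equiv_fin X
  obtain ⟨m, ⟨eY⟩⟩ := Finite.exists_equiv_fin Y
  let e : X → ℕ := fun x => eX x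
  have he : Function.Injective e := fun x y h => eX.injective (Fin.ext h)
  let e' : Y → ℕ := fun x => eY x
  have he' : Function.Injective e' := fun x y h => eY.injective (Fin.ext h)
  have h3 : Nat.card (RR a e) = Nat.card (RR b e') := by
    have h4 := Nat.card_congr (NN a ha e he)
    have h5 := Nat.card_congr (NN b hb e' he')
    rw [Nat.card_prod] at h4 h5
    have h6 : Nat.card Bool = 2 := by simp
    rw [h6] at h4 h5
    omega
  obtain ⟨f⟩ : Nonempty ({x // a x = x} ≃ {y // b y = y}) := Finite.card_eq.1 h1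
  obtain ⟨g⟩ : Nonempty (RR a e ≃ RR b e') := Finite.card_eq.1 h3
  let N : {x // ¬ a x = x} ≃ {y // ¬ b y = y} :=
    (NN a ha e he).trans ((Equiv.prodCongr g (Equiv.refl Bool)).trans (NN b hb e' he').symm)
  let F : X ≃ Y := (Equiv.sumCompl (fun x => a x = x)).symm.trans
    ((Equiv.sumCongr f N).trans (Equiv.sumCompl (fun y => b y = y)))
  have hF1 : ∀ x (hx : a x = x), F x = (f ⟨x, hx⟩ : Y) := by
    intro x hx
    change (Equiv.sumCompl (fun y => b y = y)) ((Equiv.sumCongr f N)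
      ((Equiv.sumCompl (fun x => a x = x)).symm x)) = _
    rw [Equiv.sumCompl_symm_apply_of_pos (p := fun x => a x = x) hx]
    rfl
  have hF2 : ∀ x (hx : ¬ a x = x), F x = (N ⟨x, hx⟩ : Y) := by
    intro x hx
    change (Equiv.sumCompl (fun y => b y = y)) ((Equiv.sumCongr f N)
      ((Equiv.sumCompl (fun x => a x = x)).symm x)) = _
    rw [Equiv.sumCompl_symm_apply_of_neg (p := fun x => a x = x) hx]
    rfl
  refine ⟨F, fun x => ?_⟩
  by_cases hx : a x = x
  · rw [hx, hF1 x hx]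
    exact ((f ⟨x, hx⟩).2).symm
  · have hx' : ¬ a (a x) = a x := by
      rw [ha]
      exact fun h => hx h.symm
    rw [hF2 _ hx', hF2 _ hx]
    have hy' : ¬ b (b (N ⟨x, hx⟩).1) = b (N ⟨x, hx⟩).1 := by
      rw [hb]
      exact fun h => (N ⟨x, hx⟩).2 h.symm
    have h4 : N ⟨a x, hx'⟩ = ⟨b (N ⟨x, hx⟩).1, hy'⟩ := by
      apply (NN b hb e' he').injective
      have h5 : NN b hb e' he' (N ⟨a x, hx'⟩) =
          (Equiv.prodCongr g (Equiv.refl Bool)) (NN a ha e he ⟨a x, hx'⟩) :=
        (NN b hb e' he').apply_symm_apply _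
      have h6 : NN b hb e' he' (N ⟨x, hx⟩) =
          (Equiv.prodCongr g (Equiv.refl Bool)) (NN a ha e he ⟨x, hx⟩) :=
        (NN b hb e' he').apply_symm_apply _
      rw [h5, NN_a a ha e he x hx hx', NN_a b hb e' he' (N ⟨x, hx⟩).1 (N ⟨x, hx⟩).2 hy']
      have h7 : NN b hb e' he' ⟨(N ⟨x, hx⟩).1, (N ⟨x, hx⟩).2⟩ = NN b hb e' he' (N ⟨x, hx⟩) := rfl
      rw [h7, h6]
      rfl
    rw [h4]

theorem invol {X Y L : Type} [Finite X] [Finite Y] (a : X → X) (b : Y → Y)
    (ha : ∀ x, a (a x) = x) (hb : ∀ y, b (b y) = y) (cX : X → L) (cY : Y → L)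
    (haX : ∀ x, cX (a x) = cX x) (hbY : ∀ y, cY (b y) = cY y)
    (h1 : ∀ l, Nat.card {x // cX x = l ∧ a x = x} = Nat.card {y // cY y = l ∧ b y = y})
    (h2 : ∀ l, Nat.card {x // cX x = l ∧ ¬ a x = x} = Nat.card {y // cY y = l ∧ ¬ b y = y}) :
    ∃ F : X ≃ Y, (∀ x, F (a x) = b (F x)) ∧ ∀ x, cY (F x) = cX x := by
  classical
  have key : ∀ l, ∃ F : {x // cX x = l} ≃ {y // cY y = l},
      ∀ x : {x // cX x = l}, F ⟨a x, (haX x).trans x.2⟩ = ⟨b (F x), (hbY _).trans (F x).2⟩ := by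
    intro l
    refine invol0 (X := {x // cX x = l}) (Y := {y // cY y = l})
      (fun x => ⟨a x, (haX x).trans x.2⟩) (fun y => ⟨b y, (hbY y).trans y.2⟩)
      (fun x => Subtype.ext (ha x)) (fun y => Subtype.ext (hb y)) ?_ ?_
    · have e1 : {x : {x // cX x = l} // (⟨a x, (haX x).trans x.2⟩ : {x // cX x = l}) = x} ≃
          {x // cX x = l ∧ a x = x} :=
        { toFun := fun x => ⟨x.1.1, x.1.2, congrArg Subtype.val x.2⟩
          invFun := fun x => ⟨⟨x.1, x.2.1⟩, Subtype.ext x.2.2⟩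
          left_inv := fun x => rfl
          right_inv := fun x => rfl }
      have e2 : {y : {y // cY y = l} // (⟨b y, (hbY y).trans y.2⟩ : {y // cY y = l}) = y} ≃
          {y // cY y = l ∧ b y = y} :=
        { toFun := fun x => ⟨x.1.1, x.1.2, congrArg Subtype.val x.2⟩
          invFun := fun x => ⟨⟨x.1, x.2.1⟩, Subtype.ext x.2.2⟩
          left_inv := fun x => rfl
          right_inv := fun x => rfl }
      rw [Nat.card_congr e1, Nat.card_congr e2, h1]
    · have e1 : {x : {x // cX x = l} // ¬ (⟨a x, (haX x).trans x.2⟩ : {x // cX x = l}) = x} ≃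
          {x // cX x = l ∧ ¬ a x = x} :=
        { toFun := fun x => ⟨x.1.1, x.1.2, fun h => x.2 (Subtype.ext h)⟩
          invFun := fun x => ⟨⟨x.1, x.2.1⟩, fun h => x.2.2 (congrArg Subtype.val h)⟩
          left_inv := fun x => rfl
          right_inv := fun x => rfl }
      have e2 : {y : {y // cY y = l} // ¬ (⟨b y, (hbY y).trans y.2⟩ : {y // cY y = l}) = y} ≃
          {y // cY y = l ∧ ¬ b y = y} :=
        { toFun := fun x => ⟨x.1.1, x.1.2, fun h => x.2 (Subtype.ext h)⟩
          invFun := fun x => ⟨⟨x.1, x.2.1⟩, fun h => x.2.2 (congrArg Subtype.val h)⟩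
          left_inv := fun x => rfl
          right_inv := fun x => rfl }
      rw [Nat.card_congr e1, Nat.card_congr e2, h2]
  choose G hG using key
  let F : X ≃ Y := (Equiv.sigmaFiberEquiv cX).symm.trans
    ((Equiv.sigmaCongrRight G).trans (Equiv.sigmaFiberEquiv cY))
  have hF : ∀ x, F x = (G (cX x) ⟨x, rfl⟩ : Y) := fun x => rfl
  have hF' : ∀ l x (h : cX x = l), F x = (G l ⟨x, h⟩ : Y) := by
    rintro l x rfl
    exact hF x
  refine ⟨F, fun x => ?_, fun x => ?_⟩
  · rw [hF' (cX x) (a x) (haX x), hF x]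
    have h3 := hG (cX x) ⟨x, rfl⟩
    exact congrArg Subtype.val h3
  · rw [hF x]
    exact (G (cX x) ⟨x, rfl⟩).2

end Pool.Agent.Helper57.AN
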