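import Mathlib

/-!
# Project AN, block G: a primitive group of degree at least `2 p` which contains a cycle of prime
length `p` contains the alternating group
-/

set_option autoImplicit false

open Equiv Equiv.Perm MulAction

namespace Pool.Agent.Helper57.AN

theorem ais {α : Type} (g : Perm α) (x : α) : g (g⁻¹ x) = x := g.apply_symm_apply x

theorem isa {α : Type} (g : Perm α) (x : α) : g⁻¹ (g x) = x := g.symm_apply_apply x

variable {α : Type} [Fintype α] [DecidableEq α]

/-- the commutator of two permutations whose supports have exactly one common point is a 3-cycle -/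
theorem commutator_threeCycle {g h : Perm α} {a : α} (hg : g a ≠ a) (hh : h a ≠ a)
    (hgh : ∀ x, g x ≠ x → h x ≠ x → x = a) : (g * h * g⁻¹ * h⁻¹).IsThreeCycle := by
  have e1 : ∀ x, x ≠ a → h x ≠ x → g x = x := fun x h1 h2 => by
    by_contra h3
    exact h1 (hgh x h3 h2)
  have e2 : ∀ x, x ≠ a → g x ≠ x → h x = x := fun x h1 h2 => by
    by_contra h3
    exact h1 (hgh x h2 h3)
  have mg : ∀ x, g x ≠ x → g (g x) ≠ g x := fun x h1 h2 => h1 (g.injective h2)
  have mh : ∀ x, h x ≠ x → h (h x) ≠ h x := fun x h1 h2 => h1 (h.injective h2)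
  have mg' : ∀ x, g x ≠ x → g (g⁻¹ x) ≠ g⁻¹ x := fun x h1 h2 => by
    apply h1
    have h3 := congrArg g h2
    rw [ais] at h3
    exact h3
  have mh' : ∀ x, h x ≠ x → h (h⁻¹ x) ≠ h⁻¹ x := fun x h1 h2 => by
    apply h1
    have h3 := congrArg h h2
    rw [ais] at h3
    exact h3
  have nga : g⁻¹ a ≠ a := fun h1 => hg (by rw [← h1, ais, h1])
  have nha : h⁻¹ a ≠ a := fun h1 => hh (by rw [← h1, ais, h1])
  have hne : h a ≠ g a := by
    intro h1
    have h2 := e1 (h a) hh (mh a hh)
    rw [h1] at h2
    exact mg a hg h2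
  have key : g * h * g⁻¹ * h⁻¹ = swap a (h a) * swap a (g a) := by
    ext x
    simp only [Perm.mul_apply]
    rcases eq_or_ne x a with rfl | hxa
    · rw [swap_apply_left, swap_apply_of_ne_of_ne hg hne.symm]
      have h1 : g (h⁻¹ x) = h⁻¹ x := e1 _ nha (mh' x hh)
      have h2 : g⁻¹ (h⁻¹ x) = h⁻¹ x := by
        rw [Perm.inv_eq_iff_eq]; exact h1.symm
      rw [h2, ais]
    · rcases eq_or_ne x (g a) with rfl | hxg
      · rw [swap_apply_right, swap_apply_left]
        have h1 : h (g a) = g a := e2 _ hg (mg a hg)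
        have h2 : h⁻¹ (g a) = g a := by
          rw [Perm.inv_eq_iff_eq]; exact h1.symm
        rw [h2, isa]
        exact e1 _ hh (mh a hh)
      · rw [swap_apply_of_ne_of_ne hxa hxg]
        rcases eq_or_ne x (h a) with rfl | hxh
        · rw [swap_apply_right, isa]
          have h1 : h (g⁻¹ a) = g⁻¹ a := e2 _ nga (mg' a hg)
          rw [h1, ais]
        · rw [swap_apply_of_ne_of_ne hxa hxh]
          by_cases hx : h x = x
          · have h2 : h⁻¹ x = x := by
              rw [Perm.inv_eq_iff_eq]; exact hx.symm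
            rw [h2]
            have hy : g⁻¹ x ≠ a := fun h3 => hxg (by rw [← h3, ais])
            have h4 : h (g⁻¹ x) = g⁻¹ x := by
              by_contra h5
              have h6 := e1 _ hy h5
              rw [ais] at h6
              rw [← h6] at h5
              exact h5 hx
            rw [h4, ais]
          · have hy : h⁻¹ x ≠ a := fun h3 => hxh (by rw [← h3, ais])
            have h1 : g (h⁻¹ x) = h⁻¹ x := e1 _ hy (mh' x hx)
            have h2 : g⁻¹ (h⁻¹ x) = h⁻¹ x := by
              rw [Perm.inv_eq_iff_eq]; exact h1.symm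
            rw [h2, ais]
            exact e1 x hxa hx
  rw [key]
  exact isThreeCycle_swap_mul_swap_same hh.symm hg.symm hne

theorem jordan {G : Subgroup (Perm α)} (hG : IsPreprimitive G α) {p : ℕ} (hp : p.Prime)
    (h2 : 2 * p ≤ Fintype.card α) {g : Perm α} (hgc : g.IsCycle) (hgp : g.support.card = p)
    (hg : g ∈ G) : alternatingGroup α ≤ G := by
  classical
  have hp2 := hp.two_le
  obtain ⟨m, hm⟩ : ∃ m, Fintype.card α = p + (m + 1) := ⟨Fintype.card α - p - 1, by omega⟩
  have hprim : IsMultiplyPreprimitive G α (m + 2) := by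
    apply hG.isMultiplyPreprimitive (s := (g.supportᶜ : Set α))
    · apply Nat.add_left_cancel
      rw [Set.ncard_add_ncard_compl, Set.ncard_coe_finset, hgp, Nat.card_eq_fintype_card, hm]
    · rw [Nat.card_eq_fintype_card, hm]
      omega
    have := isPretransitive_of_isCycle_mem hgc hg
    apply IsPreprimitive.of_prime_card
    convert! hp
    rw [Nat.card_eq_fintype_card, Fintype.card_subtype, ← hgp]
    apply congr_arg
    ext x
    simp [SubMulAction.mem_ofFixingSubgroup_iff]
  have htr : IsMultiplyPretransitive G α (m + 2) := IsMultiplyPreprimitive.isMultiplyPretransitive ..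
  have htr2 : IsMultiplyPretransitive G α p :=
    MulAction.isMultiplyPretransitive_of_le' (n := m + 2) (by omega) (by
      rw [ENat.card_eq_coe_fintype_card, hm]
      exact_mod_cast (by omega : m + 2 ≤ p + (m + 1)))
  obtain ⟨a, ha, -⟩ := hgc
  -- enumerations
  obtain ⟨e⟩ : Nonempty (Fin p ≃ g.support) := by
    rw [← Fintype.card_eq, Fintype.card_fin, Fintype.card_coe, hgp]
  have ha' : a ∈ g.support := mem_support.2 ha
  have hcard : (g.supportᶜ).card = m + 1 := by
    rw [Finset.card_compl, hgp, hm]; omega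
  obtain ⟨f⟩ : Nonempty (Fin p ↪ (g.supportᶜ : Finset α)) := by
    apply Function.Embedding.nonempty_of_card_le
    rw [Fintype.card_fin, Fintype.card_coe, hcard]
    omega
  have hcompl : ∀ i, g (f i : α) = f i := fun i => by
    have h1 := (f i).2
    rw [Finset.mem_compl, notMem_support] at h1
    exact h1
  let i0 : Fin p := e.symm ⟨a, ha'⟩
  have hi0 : (e i0 : α) = a := by
    change ((e (e.symm ⟨a, ha'⟩) : g.support) : α) = a
    rw [Equiv.apply_symm_apply]
  let x : Fin p ↪ α := ⟨fun i => e i, fun i j hij => e.injective (Subtype.ext hij)⟩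
  let y : Fin p ↪ α := ⟨fun i => if i = i0 then a else f i, by
    intro i j hij
    dsimp only at hij
    split_ifs at hij with h1 h2 h2
    · rw [h1, h2]
    · exfalso
      apply ha
      rw [hij, hcompl]
    · exfalso
      apply ha
      rw [← hij, hcompl]
    · exact f.injective (Subtype.ext hij)⟩
  obtain ⟨h, hh⟩ := htr2.exists_smul_eq x y
  have hh1 : ∀ i, (h : Perm α) (e i) = y i := fun i => by
    have := congrArg (fun t : Fin p ↪ α => t i) hh
    exact this
  have hha : (h : Perm α) a = a := by
    have := hh1 i0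
    rw [hi0] at this
    rw [this]
    change (if i0 = i0 then a else _) = a
    rw [if_pos rfl]
  have hconj : ∀ z, ((h : Perm α) * g * (h : Perm α)⁻¹) z = (h : Perm α) (g ((h : Perm α)⁻¹ z)) :=
    fun z => rfl
  have hha' : (h : Perm α)⁻¹ a = a := by
    rw [Perm.inv_eq_iff_eq]; exact hha.symm
  have h3 : (g * ((h : Perm α) * g * (h : Perm α)⁻¹) * g⁻¹ *
      ((h : Perm α) * g * (h : Perm α)⁻¹)⁻¹).IsThreeCycle := by
    refine commutator_threeCycle (a := a) ha ?_ ?_
    · rw [hconj, hha']
      intro h4
      apply ha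
      have h5 := congrArg (fun t => (h : Perm α)⁻¹ t) h4
      rw [isa, hha'] at h5
      exact h5
    · intro z hz1 hz2
      rw [hconj] at hz2
      have hz3 : g ((h : Perm α)⁻¹ z) ≠ (h : Perm α)⁻¹ z := by
        intro h4
        rw [h4, ais] at hz2
        exact hz2 rfl
      have hz4 : (h : Perm α)⁻¹ z ∈ g.support := mem_support.2 hz3
      have hz5 := hh1 (e.symm ⟨_, hz4⟩)
      rw [Equiv.apply_symm_apply] at hz5
      change (h : Perm α) ((h : Perm α)⁻¹ z) = _ at hz5
      rw [ais] at hz5
      change z = if _ = i0 then a else _ at hz5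
      split_ifs at hz5 with h6
      · exact hz5
      · exfalso
        apply hz1
        rw [hz5, hcompl]
  refine alternatingGroup_le_of_isPreprimitive_of_isThreeCycle_mem hG h3 ?_
  exact G.mul_mem (G.mul_mem (G.mul_mem hg (G.mul_mem (G.mul_mem h.2 hg) (G.inv_mem h.2)))
    (G.inv_mem hg)) (G.inv_mem (G.mul_mem (G.mul_mem h.2 hg) (G.inv_mem h.2)))

end Pool.Agent.Helper57.AN
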