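import Pool.Agent.Helper81.AN.Defs

/-!
# AN-G09 LInj: the local group as a permutation group: easy facts

`permL_inl`: `permL p w r x` maps `inl (i, t)` to `inl (σ i, e (σ i) + u (σ i) * t)` with `σ = x.right.1.right`, `u = x.right.1.left`, `e = toAdd x.left`, and `inr j` to `inr (x.right.2 j)` (unfold `permL`, `SemidirectProduct.lift`:
`permL x = permE x.left * permW x.right`; `rfl` after `change`).
`permL_injective`: kernel trivial (`injective_iff_map_eq_one`): from `inl (i, 0)` and `inl (i, 1)`: `σ i = i`, `e (σ i) = 0`, `u (σ i) = 1`.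
`range_not_le`: the swap of two blocks `x = inr (⟨1, swap i j⟩, 1)`, `i ≠ j` (`2 ≤ w`): `permL x = sumCongr (prodCongrLeft fun _ => swap i j) 1` has sign
`∏_{t : ZMod p} (-1) = (-1) ^ p = -1` (`Perm.sign_sumCongr`, `Perm.sign_prodCongrLeft`, `Perm.sign_swap`, `ZMod.card`, `p` odd).
`alt_not_le`: for `i ≠ j` the 3-cycle `swap (inl (i, 0)) (inl (i, 1)) * swap (inl (i, 1)) (inl (j, 0))` is even; it maps `inl (i, 0)` to `inl (i, 1)` and `inl (i, 1)` to `inl (j, 0)`; the elements
of the range map two points of one block to points of one block (`permL_inl`).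
-/

set_option autoImplicit false

open Equiv

namespace Pool.Agent.Helper57.AN

open Pool.Agent.Helper81.AN

theorem permL_inl (p w r : ℕ) (x : LL p w r) (i : Fin w) (t : ZMod p) :
    permL p w r x (Sum.inl (i, t)) = Sum.inl (x.right.1.right i,
      Multiplicative.toAdd x.left (x.right.1.right i) +
        (x.right.1.left (x.right.1.right i) : ZMod p) * t) := by
  rfl

theorem permL_inr (p w r : ℕ) (x : LL p w r) (j : Fin r) :
    permL p w r x (Sum.inr j) = Sum.inr (x.right.2 j) := by
  rfl

theorem permL_injective (p : ℕ) [Fact p.Prime] (w r : ℕ) :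
    Function.Injective (permL p w r) := by
  rw [injective_iff_map_eq_one]
  intro x hx
  have h1 : ∀ i t, x.right.1.right i = i ∧ Multiplicative.toAdd x.left (x.right.1.right i) +
        (x.right.1.left (x.right.1.right i) : ZMod p) * t = t := by
    intro i t
    have h := permL_inl p w r x i t
    rw [hx, Equiv.Perm.one_apply] at h
    have h2 := Sum.inl.inj h
    exact ⟨(congrArg Prod.fst h2).symm, (congrArg Prod.snd h2).symm⟩
  have hσ : x.right.1.right = 1 := Equiv.ext fun i => (h1 i 0).1
  have he : ∀ i, Multiplicative.toAdd x.left i = 0 := by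
    intro i
    have h := (h1 i 0).2
    rw [mul_zero, add_zero, (h1 i 0).1] at h
    exact h
  have hu : ∀ i, x.right.1.left i = 1 := by
    intro i
    have h := (h1 i 1).2
    rw [(h1 i 0).1, he, zero_add, mul_one] at h
    exact Units.ext h
  have hr : x.right.2 = 1 := by
    refine Equiv.ext fun j => ?_
    have h := permL_inr p w r x j
    rw [hx, Equiv.Perm.one_apply] at h
    exact (Sum.inr.inj h).symm
  refine SemidirectProduct.ext ?_ ?_
  · apply Multiplicative.toAdd.injective
    funext i
    exact he i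
  · refine Prod.ext (SemidirectProduct.ext (funext hu) hσ) hr

theorem range_not_le (p : ℕ) [Fact p.Prime] (h3 : 3 ≤ p) (w r : ℕ) (hw : 2 ≤ w) :
    ¬ (permL p w r).range ≤ alternatingGroup (Pt p w r) := by
  intro h
  let i : Fin w := ⟨0, by omega⟩
  let j : Fin w := ⟨1, by omega⟩
  have hij : i ≠ j := by
    intro h
    have := congrArg Fin.val h
    exact absurd this (by decide : (0 : ℕ) ≠ 1)
  let x : LL p w r := SemidirectProduct.inr ((⟨1, Equiv.swap i j⟩ : WW p w), (1 : Perm (Fin r)))
  have hx : permL p w r x = Equiv.Perm.sumCongr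
      (Equiv.prodCongrLeft (fun _ : ZMod p => Equiv.swap i j)) (1 : Perm (Fin r)) := by
    ext1 q
    rcases q with ⟨a, t⟩ | b
    · change Sum.inl (Equiv.swap i j a, (0 : ZMod p) + ((1 : (ZMod p)ˣ) : ZMod p) * t) =
        Sum.inl (Equiv.swap i j a, t)
      rw [zero_add, Units.val_one, one_mul]
    · rfl
  have h1 := Equiv.Perm.mem_alternatingGroup.1 (h ⟨x, rfl⟩)
  have h2 : Equiv.Perm.sign (permL p w r x) = -1 := by
    rw [hx, Equiv.Perm.sign_sumCongr, Equiv.Perm.sign_prodCongrLeft, Equiv.Perm.sign_one, mul_one,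
      Finset.prod_const, Equiv.Perm.sign_swap hij, Finset.card_univ, ZMod.card]
    refine Odd.neg_one_pow ?_
    exact (Fact.out : p.Prime).odd_of_ne_two (by omega)
  rw [h2] at h1
  exact absurd h1 (by decide)

theorem alt_not_le (p : ℕ) [Fact p.Prime] (w r : ℕ) (hw : 2 ≤ w) :
    ¬ alternatingGroup (Pt p w r) ≤ (permL p w r).range := by
  intro h
  let i : Fin w := ⟨0, by omega⟩
  let j : Fin w := ⟨1, by omega⟩
  have hij : i ≠ j := by
    intro h
    have := congrArg Fin.val h
    exact absurd this (by decide : (0 : ℕ) ≠ 1)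
  set a : Pt p w r := Sum.inl (i, 0) with ha
  set b : Pt p w r := Sum.inl (i, 1) with hb
  set c : Pt p w r := Sum.inl (j, 0) with hc
  have hab : a ≠ b := by
    intro h
    exact zero_ne_one (congrArg Prod.snd (Sum.inl.inj h))
  have hac : a ≠ c := by
    intro h
    exact hij (congrArg Prod.fst (Sum.inl.inj h))
  have hbc : b ≠ c := by
    intro h
    exact hij (congrArg Prod.fst (Sum.inl.inj h))
  have h1 : Equiv.swap a b * Equiv.swap b c ∈ alternatingGroup (Pt p w r) := by
    rw [Equiv.Perm.mem_alternatingGroup, Equiv.Perm.sign_mul, Equiv.Perm.sign_swap hab,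
      Equiv.Perm.sign_swap hbc]
    decide
  obtain ⟨x, hx⟩ := h h1
  have h2 : permL p w r x a = b := by
    rw [hx, Equiv.Perm.mul_apply, Equiv.swap_apply_of_ne_of_ne hab hac, Equiv.swap_apply_left]
  have h3 : permL p w r x b = c := by
    rw [hx, Equiv.Perm.mul_apply, Equiv.swap_apply_left,
      Equiv.swap_apply_of_ne_of_ne hac.symm hbc.symm]
  rw [ha, permL_inl, hb] at h2
  rw [hb, permL_inl, hc] at h3
  have h4 := congrArg Prod.fst (Sum.inl.inj h2)
  have h5 := congrArg Prod.fst (Sum.inl.inj h3)
  exact hij (h4.symm.trans h5)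

end Pool.Agent.Helper57.AN
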