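import Pool.Agent.Helper57.AN.Gen3

/-!
# AN-G03 LiftA: covers of alternating groups: lifts of permutations with disjoint supports commute

`Cov π`: `M` is perfect, `π : M → Perm ι` has range the alternating group and central kernel.

PROOF of `comm_lift`. Let `S = {i // i ≠ a ∧ i ≠ b ∧ i ≠ d}`, `5 ≤ |S|`, so `alternatingGroup S` is perfect
(`commutator_alternatingGroup_eq_top` or similar in `Mathlib/GroupTheory/SpecificGroups/Alternating`). For `τ ∈ alternatingGroup S`
choose `L τ ∈ M` with `π (L τ) = Perm.ofSubtype τ` (even: `Perm.sign_ofSubtype`; `h.range`). The commutator `⁅x, L τ⁆` is in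
`π.ker` (disjoint supports: `Perm.Disjoint.commute`), central. `τ ↦ ⁅x, L τ⁆` is a homomorphism to `π.ker` (commutative): `L (τ τ') = L τ L τ' z` with `z`
central, `⁅x, y y' z⁆ = ⁅x, y y'⁆ = ⁅x, y⁆ (y ⁅x, y'⁆ y⁻¹) = ⁅x, y⁆ ⁅x, y'⁆`. A homomorphism from a perfect group to a
commutative group is trivial (kernel contains the commutator subgroup: `Abelianization.commutator_subset_ker`).
Finally `π y = ofSubtype τ` for some `τ` (`π y` fixes `a, b, d`: `Perm.subtypePerm`, `Perm.ofSubtype_subtypePerm`), `y = L τ z` with `z` central, so `x y = y x`.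
-/

set_option autoImplicit false

open Equiv
open scoped commutatorElement

namespace Pool.Agent.Helper57.AN

/-- perfect central extensions of the alternating group -/
structure Cov {ι : Type} [Fintype ι] [DecidableEq ι] {M : Type} [Group M] (π : M →* Perm ι) :
    Prop where
  perf : ⁅(⊤ : Subgroup M), (⊤ : Subgroup M)⁆ = ⊤
  range : π.range = alternatingGroup ι
  ker : π.ker ≤ Subgroup.center M

private theorem comm_mul_central {M : Type} [Group M] {x y z : M}
    (hz : z ∈ Subgroup.center M) : ⁅x, y * z⁆ = ⁅x, y⁆ := by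
  have h1 : ∀ w, w * z = z * w := Subgroup.mem_center_iff.1 hz
  have h2 : ∀ w, w * z⁻¹ = z⁻¹ * w := Subgroup.mem_center_iff.1 (inv_mem hz)
  rw [commutatorElement_def, commutatorElement_def, mul_inv_rev]
  calc x * (y * z) * x⁻¹ * (z⁻¹ * y⁻¹) = x * y * (z * x⁻¹) * z⁻¹ * y⁻¹ := by group
    _ = x * y * (x⁻¹ * z) * z⁻¹ * y⁻¹ := by rw [h1]
    _ = x * y * x⁻¹ * y⁻¹ := by group

private theorem comm_mul_of_central {M : Type} [Group M] {x y y' : M}
    (hz : ⁅x, y'⁆ ∈ Subgroup.center M) : ⁅x, y * y'⁆ = ⁅x, y⁆ * ⁅x, y'⁆ := by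
  have h1 : ∀ w, w * ⁅x, y'⁆ = ⁅x, y'⁆ * w := Subgroup.mem_center_iff.1 hz
  have h2 : ⁅x, y * y'⁆ = ⁅x, y⁆ * (y * ⁅x, y'⁆ * y⁻¹) := by
    simp only [commutatorElement_def]
    group
  rw [h2, h1 y, mul_inv_cancel_right]

theorem comm_lift {ι : Type} [Fintype ι] [DecidableEq ι] {M : Type} [Group M] {π : M →* Perm ι}
    (h : Cov π) (h8 : 8 ≤ Fintype.card ι) {a b d : ι} (hab : a ≠ b) (had : a ≠ d) (hbd : b ≠ d)
    {x y : M} (hx : π x = cyc a b d) (ha : π y a = a) (hb : π y b = b) (hd : π y d = d) :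
    x * y = y * x := by
  classical
  have hcomm : ∀ f : Perm ι, f a = a → f b = b → f d = d → ∀ w : M, π w = f →
      ⁅x, w⁆ ∈ Subgroup.center M := by
    intro f hfa hfb hfd w hw
    apply h.ker
    rw [MonoidHom.mem_ker, map_commutatorElement, hx, hw, commutatorElement_eq_one_iff_mul_comm]
    have h1 := cyc_conj f a b d
    rw [hfa, hfb, hfd, mul_inv_eq_iff_eq_mul] at h1
    exact h1.symm
  have hsame : ∀ w w' : M, π w = π w' → ⁅x, w⁆ = ⁅x, w'⁆ := by
    intro w w' hw
    have h1 : w⁻¹ * w' ∈ π.ker := by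
      rw [MonoidHom.mem_ker, map_mul, map_inv, hw, inv_mul_cancel]
    have h2 := comm_mul_central (x := x) (y := w) (h.ker h1)
    rw [mul_inv_cancel_left] at h2
    exact h2.symm
  let p : ι → Prop := fun i => i ≠ a ∧ i ≠ b ∧ i ≠ d
  have hex : ∀ τ : alternatingGroup {i // p i}, ∃ w : M, π w = Perm.ofSubtype (τ : Perm {i // p i}) := by
    intro τ
    have h1 : Perm.ofSubtype (τ : Perm {i // p i}) ∈ π.range := by
      rw [h.range, Perm.mem_alternatingGroup, Perm.sign_ofSubtype]
      exact Perm.mem_alternatingGroup.1 τ.2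
    exact h1
  choose L hL using hex
  have hfix : ∀ τ : Perm {i // p i}, ∀ i, ¬ p i → Perm.ofSubtype τ i = i := fun τ i hi =>
    Perm.ofSubtype_apply_of_not_mem τ hi
  have hpa : ¬ p a := fun h1 => h1.1 rfl
  have hpb : ¬ p b := fun h1 => h1.2.1 rfl
  have hpd : ¬ p d := fun h1 => h1.2.2 rfl
  have hcen : ∀ τ, ⁅x, L τ⁆ ∈ Subgroup.center M := fun τ =>
    hcomm _ (hfix _ a hpa) (hfix _ b hpb) (hfix _ d hpd) _ (hL τ)
  let φ : alternatingGroup {i // p i} →* Subgroup.center M :=
    MonoidHom.mk' (fun τ => ⟨⁅x, L τ⁆, hcen τ⟩) (by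
      intro τ τ'
      apply Subtype.ext
      change ⁅x, L (τ * τ')⁆ = ⁅x, L τ⁆ * ⁅x, L τ'⁆
      rw [← comm_mul_of_central (hcen τ')]
      apply hsame
      rw [map_mul, hL, hL, hL, Subgroup.coe_mul, map_mul])
  have hcard : 5 ≤ Nat.card {i // p i} := by
    rw [Nat.card_eq_fintype_card, Fintype.card_subtype]
    have h1 : Finset.univ.filter p = Finset.univ \ {a, b, d} := by
      ext i
      simp only [Finset.mem_filter, Finset.mem_univ, true_and, Finset.mem_sdiff,
        Finset.mem_insert, Finset.mem_singleton, not_or]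
      rfl
    have h2 : Finset.card (Finset.univ \ ({a, b, d} : Finset ι)) + Finset.card ({a, b, d} : Finset ι) =
        Fintype.card ι := by
      rw [Finset.card_sdiff_add_card_eq_card (Finset.subset_univ _), Finset.card_univ]
    have h3 : Finset.card ({a, b, d} : Finset ι) ≤ 3 := Finset.card_le_three
    rw [h1]
    omega
  have hperf := commutator_alternatingGroup_eq_top hcard
  have hker : commutator (alternatingGroup {i // p i}) ≤ φ.ker := by
    rw [commutator_def, Subgroup.commutator_le]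
    intro τ _ τ' _
    rw [MonoidHom.mem_ker, map_commutatorElement, commutatorElement_eq_one_iff_mul_comm]
    apply Subtype.ext
    exact (Subgroup.mem_center_iff.1 (φ τ').2 (φ τ).1)
  rw [hperf] at hker
  have hone : ∀ τ, ⁅x, L τ⁆ = 1 := fun τ => congrArg Subtype.val (MonoidHom.mem_ker.1 (hker (Subgroup.mem_top τ)))
  have hinj : Function.Injective (π y) := (π y).injective
  have hp1 : ∀ i, p (π y i) ↔ p i := by
    intro i
    have e1 : π y i = a ↔ i = a := ⟨fun h1 => hinj (h1.trans ha.symm), fun h1 => h1 ▸ ha⟩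
    have e2 : π y i = b ↔ i = b := ⟨fun h1 => hinj (h1.trans hb.symm), fun h1 => h1 ▸ hb⟩
    have e3 : π y i = d ↔ i = d := ⟨fun h1 => hinj (h1.trans hd.symm), fun h1 => h1 ▸ hd⟩
    change (π y i ≠ a ∧ π y i ≠ b ∧ π y i ≠ d) ↔ (i ≠ a ∧ i ≠ b ∧ i ≠ d)
    rw [Ne, Ne, Ne, e1, e2, e3]
  have hp2 : ∀ i, π y i ≠ i → p i := by
    intro i hi
    refine ⟨?_, ?_, ?_⟩
    · rintro rfl
      exact hi ha
    · rintro rfl
      exact hi hb
    · rintro rfl
      exact hi hd
  have hsgn : Perm.sign ((π y).subtypePerm hp1) = 1 := by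
    rw [Perm.sign_subtypePerm _ hp1 hp2]
    have h1 : π y ∈ π.range := ⟨y, rfl⟩
    rw [h.range] at h1
    exact Perm.mem_alternatingGroup.1 h1
  have h1 : ⁅x, y⁆ = 1 := by
    rw [← hone ⟨(π y).subtypePerm hp1, Perm.mem_alternatingGroup.2 hsgn⟩]
    apply hsame
    rw [hL]
    exact (Perm.ofSubtype_subtypePerm hp1 hp2).symm
  exact commutatorElement_eq_one_iff_mul_comm.1 h1

end Pool.Agent.Helper57.AN
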