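import Pool.Agent.Helper57.AN.LiftA

/-!
# AN-G04 LiftB: the canonical lift of a 3-cycle

`Gd t`: `t ^ 3 = 1` and `t` is inverted by some element of the group.

EXISTENCE. Choose `e ≠ f` different from `a, b, d` (`8 ≤ card`), `σ = swap a b * swap e f` (even), `π g = σ`. `σ` inverts `cyc a b d`
(`cyc_conj`: `cyc b a d = (cyc a b d)⁻¹`). Let `π t0 = cyc a b d`. `g t0 g⁻¹ = t0⁻¹ z` with `z ∈ π.ker` central, `w = t0 ^ 3 ∈ π.ker` central
(`cyc ^ 3 = 1`). `w = g w g⁻¹ = (g t0 g⁻¹) ^ 3 = (t0⁻¹ z) ^ 3 = w⁻¹ z ^ 3`, so `z ^ 3 = w ^ 2`. Let `u = w⁻¹ z`, `t = t0 u`. Then `t ^ 3 = w w⁻³ z ^ 3 = 1`,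
`g t g⁻¹ = t0⁻¹ z u = t⁻¹ u z u = t⁻¹ (z u ^ 2) = t⁻¹ (z ^ 3 w⁻²) = t⁻¹`. (All of `z, w, u` are central: work with `Commute`, or with
`z = (z' : Subgroup.center M)`.)

UNIQUENESS. `t' = t c` with `c ∈ π.ker` central, `c ^ 3 = 1` (from `t' ^ 3 = 1`). Let `g t g⁻¹ = t⁻¹`, `g' t' g'⁻¹ = t'⁻¹`. Put `y = g⁻¹ g'`; `π y` commutes with
`π t = cyc a b d =: s` (both `π g` and `π g'` invert it). So `π y a` is in the support `{a, b, d}` of `s`, `π y a = s ^ k a` for some `k`,
and `s ^ (-k) π y` fixes `a`, hence `b = s a` and `d = s b`. `y' = t ^ (-k) y` commutes with `t` by `comm_lift`, so `y` commutes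
with `t`. `t⁻¹ c⁻¹ = t'⁻¹ = g' t' g'⁻¹ = g y (t c) y⁻¹ g⁻¹ = g t g⁻¹ c = t⁻¹ c`, so `c ^ 2 = 1`, with `c ^ 3 = 1`: `c = 1`.
-/

set_option autoImplicit false

open Equiv

namespace Pool.Agent.Helper57.AN

/-- `t` has order dividing three and is conjugate to its inverse -/
def Gd {M : Type} [Group M] (t : M) : Prop := t ^ 3 = 1 ∧ ∃ g : M, g * t * g⁻¹ = t⁻¹

theorem Gd.conj {M : Type} [Group M] {t : M} (h : Gd t) (x : M) : Gd (x * t * x⁻¹) := by
  obtain ⟨h1, g, hg⟩ := h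
  refine ⟨by rw [conj_pow, h1]; group, x * g * x⁻¹, ?_⟩
  have h2 : x * g * x⁻¹ * (x * t * x⁻¹) * (x * g * x⁻¹)⁻¹ = x * (g * t * g⁻¹) * x⁻¹ := by group
  rw [h2, hg]
  group

theorem Gd.inv {M : Type} [Group M] {t : M} (h : Gd t) : Gd t⁻¹ := by
  obtain ⟨h1, g, hg⟩ := h
  refine ⟨by rw [inv_pow, h1, inv_one], g, ?_⟩
  have h2 : g * t⁻¹ * g⁻¹ = (g * t * g⁻¹)⁻¹ := by group
  rw [h2, hg]

private theorem cyc_a {ι : Type} [DecidableEq ι] {a b d : ι} (hab : a ≠ b) (had : a ≠ d) :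
    cyc a b d a = b := by
  unfold cyc
  rw [Perm.mul_apply, swap_apply_of_ne_of_ne hab had, swap_apply_left]

private theorem cyc_b {ι : Type} [DecidableEq ι] {a b d : ι} (had : a ≠ d) (hbd : b ≠ d) :
    cyc a b d b = d := by
  unfold cyc
  rw [Perm.mul_apply, swap_apply_left, swap_apply_of_ne_of_ne had.symm hbd.symm]

private theorem cyc_d {ι : Type} [DecidableEq ι] (a b d : ι) : cyc a b d d = a := by
  unfold cyc
  rw [Perm.mul_apply, swap_apply_right, swap_apply_right]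

private theorem cyc_x {ι : Type} [DecidableEq ι] {a b d x : ι} (ha : x ≠ a) (hb : x ≠ b) (hd : x ≠ d) :
    cyc a b d x = x := by
  unfold cyc
  rw [Perm.mul_apply, swap_apply_of_ne_of_ne hb hd, swap_apply_of_ne_of_ne ha hb]

private theorem cyc_cube {ι : Type} [Fintype ι] [DecidableEq ι] {a b d : ι} (hab : a ≠ b) (had : a ≠ d)
    (hbd : b ≠ d) : cyc a b d ^ 3 = 1 := by
  have h := (cyc_three hab had hbd).orderOf
  rw [← h]
  exact pow_orderOf_eq_one _

private theorem central_of_ker {ι : Type} [Fintype ι] [DecidableEq ι] {M : Type} [Group M] {π : M →* Perm ι}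
    (h : Cov π) {z : M} (hz : π z = 1) : z ∈ Subgroup.center M := h.ker (MonoidHom.mem_ker.2 hz)

theorem gd_exists {ι : Type} [Fintype ι] [DecidableEq ι] {M : Type} [Group M] {π : M →* Perm ι}
    (h : Cov π) (h8 : 8 ≤ Fintype.card ι) {a b d : ι} (hab : a ≠ b) (had : a ≠ d) (hbd : b ≠ d) :
    ∃ t : M, π t = cyc a b d ∧ Gd t := by
  obtain ⟨e, f, he, hf, hef⟩ : ∃ e f : ι, (e ≠ a ∧ e ≠ b ∧ e ≠ d) ∧ (f ≠ a ∧ f ≠ b ∧ f ≠ d) ∧ e ≠ f := by
    have hc : 1 < (({a, b, d} : Finset ι)ᶜ).card := by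
      rw [Finset.card_compl]
      have := Finset.card_le_three (a := a) (b := b) (c := d)
      omega
    obtain ⟨e, he, f, hf, hef⟩ := Finset.one_lt_card.1 hc
    simp only [Finset.mem_compl, Finset.mem_insert, Finset.mem_singleton, not_or] at he hf
    exact ⟨e, f, he, hf, hef⟩
  set σ : Perm ι := swap a b * swap e f with hσ
  have hσ1 : σ ∈ alternatingGroup ι := by
    rw [Perm.mem_alternatingGroup, hσ, Perm.sign_mul, Perm.sign_swap hab, Perm.sign_swap hef]
    norm_num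
  have hs1 : cyc a b d ∈ alternatingGroup ι := (cyc_three hab had hbd).mem_alternatingGroup
  rw [← h.range] at hσ1 hs1
  obtain ⟨g, hg⟩ := hσ1
  obtain ⟨t0, ht0⟩ := hs1
  have hσa : σ a = b := by
    rw [hσ, Perm.mul_apply, swap_apply_of_ne_of_ne he.1.symm hf.1.symm, swap_apply_left]
  have hσb : σ b = a := by
    rw [hσ, Perm.mul_apply, swap_apply_of_ne_of_ne he.2.1.symm hf.2.1.symm, swap_apply_right]
  have hσd : σ d = d := by
    rw [hσ, Perm.mul_apply, swap_apply_of_ne_of_ne he.2.2.symm hf.2.2.symm,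
      swap_apply_of_ne_of_ne had.symm hbd.symm]
  have hconj : π (g * t0 * g⁻¹) = (cyc a b d)⁻¹ := by
    rw [map_mul, map_mul, map_inv, hg, ht0, cyc_conj, hσa, hσb, hσd, cyc_inv hab had hbd]
  -- the central elements
  have hz0 : t0 * (g * t0 * g⁻¹) ∈ Subgroup.center M := by
    apply central_of_ker h
    rw [map_mul, hconj, ht0, mul_inv_cancel]
  have hw0 : t0 ^ 3 ∈ Subgroup.center M := by
    apply central_of_ker h
    rw [map_pow, ht0, cyc_cube hab had hbd]
  set z : Subgroup.center M := ⟨t0 * (g * t0 * g⁻¹), hz0⟩ with hz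
  set w : Subgroup.center M := ⟨t0 ^ 3, hw0⟩ with hw
  have hcomm : ∀ (c : Subgroup.center M) (x : M), x * (c : M) = (c : M) * x :=
    fun c x => (Subgroup.mem_center_iff.1 c.2 x)
  have hgt : g * t0 * g⁻¹ = t0⁻¹ * (z : M) := by
    rw [hz]
    simp only
    group
  have hzw : z ^ 3 = w ^ 2 := by
    have h1 : (g * t0 * g⁻¹) ^ 3 = (w : M) := by
      rw [conj_pow]
      have : g * (w : M) * g⁻¹ = (w : M) := by
        rw [hcomm w g, mul_assoc, mul_inv_cancel, mul_one]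
      exact this
    have h2 : (t0⁻¹ * (z : M)) ^ 3 = (w : M)⁻¹ * (z : M) ^ 3 := by
      have hc : Commute t0⁻¹ (z : M) := hcomm z t0⁻¹
      rw [hc.mul_pow, inv_pow]
    rw [hgt, h2] at h1
    apply Subtype.ext
    rw [Subgroup.coe_pow, Subgroup.coe_pow]
    rw [inv_mul_eq_iff_eq_mul] at h1
    rw [h1, pow_two]
  set u : Subgroup.center M := w⁻¹ * z with hu
  have hcwz : Commute w⁻¹ z := Subtype.ext (hcomm z ((w⁻¹ : Subgroup.center M) : M))
  have hcwz2 : Commute z (w⁻¹ ^ 2) := hcwz.symm.pow_right 2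
  have hu1 : w * u ^ 3 = 1 := by
    rw [hu, hcwz.mul_pow, hzw, inv_pow]
    have : w ^ 3 = w * w ^ 2 := pow_succ' w 2
    rw [this, mul_inv_rev, ← mul_assoc, ← mul_assoc]
    group
  have hu2 : z * u ^ 2 = 1 := by
    rw [hu, hcwz.mul_pow, ← mul_assoc, hcwz2.eq, mul_assoc, ← pow_succ', hzw, inv_pow, inv_mul_cancel]
  refine ⟨t0 * (u : M), ?_, ?_, g, ?_⟩
  · rw [map_mul, ht0]
    have h1 : π (u : M) = 1 := by
      have hπz : π (z : M) = 1 := by
        rw [hz]
        show π (t0 * (g * t0 * g⁻¹)) = 1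
        rw [map_mul, hconj, ht0, mul_inv_cancel]
      have hπw : π (w : M) = 1 := by
        rw [hw]
        show π (t0 ^ 3) = 1
        rw [map_pow, ht0, cyc_cube hab had hbd]
      rw [hu, Subgroup.coe_mul, Subgroup.coe_inv, map_mul, map_inv, hπz, hπw, inv_one, mul_one]
    rw [h1, mul_one]
  · have hc : Commute t0 (u : M) := hcomm u t0
    rw [hc.mul_pow]
    have h1 := congrArg (fun c : Subgroup.center M => (c : M)) hu1
    simp only [Subgroup.coe_mul, Subgroup.coe_pow, Subgroup.coe_one] at h1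
    exact h1
  · have h1 : g * (t0 * (u : M)) * g⁻¹ = (g * t0 * g⁻¹) * (u : M) := by
      have h2 := hcomm u g⁻¹
      calc g * (t0 * (u : M)) * g⁻¹ = g * t0 * ((u : M) * g⁻¹) := by group
        _ = g * t0 * (g⁻¹ * (u : M)) := by rw [h2]
        _ = (g * t0 * g⁻¹) * (u : M) := by group
    have h3 := congrArg (fun c : Subgroup.center M => (c : M)) hu2
    simp only [Subgroup.coe_mul, Subgroup.coe_pow, Subgroup.coe_one] at h3
    have h4 : (z : M) * (u : M) = (u : M)⁻¹ := by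
      rw [eq_inv_iff_mul_eq_one, mul_assoc, ← pow_two]
      exact h3
    rw [h1, hgt, mul_assoc, h4, mul_inv_rev]
    have h5 := hcomm u⁻¹ t0⁻¹
    rw [Subgroup.coe_inv] at h5
    exact h5

theorem gd_unique {ι : Type} [Fintype ι] [DecidableEq ι] {M : Type} [Group M] {π : M →* Perm ι}
    (h : Cov π) (h8 : 8 ≤ Fintype.card ι) {a b d : ι} (hab : a ≠ b) (had : a ≠ d) (hbd : b ≠ d)
    {t t' : M} (ht : π t = cyc a b d) (ht' : π t' = cyc a b d) (hG : Gd t) (hG' : Gd t') :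
    t = t' := by
  obtain ⟨h3, g, hg⟩ := hG
  obtain ⟨h3', g', hg'⟩ := hG'
  set s : Perm ι := cyc a b d with hs
  -- the central element
  obtain ⟨c, hc⟩ : ∃ c : M, c = t⁻¹ * t' := ⟨_, rfl⟩
  have hcz : c ∈ Subgroup.center M := by
    apply central_of_ker h
    rw [hc, map_mul, map_inv, ht, ht', inv_mul_cancel]
  have hcc : ∀ x : M, x * c = c * x := Subgroup.mem_center_iff.1 hcz
  have ht'c : t' = t * c := by
    rw [hc]
    group
  have hc3 : c ^ 3 = 1 := by
    have hcom : Commute t c := hcc t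
    rw [ht'c, hcom.mul_pow, h3, one_mul] at h3'
    exact h3'
  -- the element `y`
  obtain ⟨y, hy⟩ : ∃ y : M, y = g⁻¹ * g' := ⟨_, rfl⟩
  have hg'y : g' = g * y := by
    rw [hy]
    group
  have hp1 : π g * s * (π g)⁻¹ = s⁻¹ := by
    have := congrArg π hg
    rwa [map_mul, map_mul, map_inv, map_inv, ht] at this
  have hp2 : π g' * s * (π g')⁻¹ = s⁻¹ := by
    have := congrArg π hg'
    rwa [map_mul, map_mul, map_inv, map_inv, ht'] at this
  have hys : π y * s = s * π y := by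
    have e1 : π g * s = s⁻¹ * π g := mul_inv_eq_iff_eq_mul.1 hp1
    have e2 : π g' * s = s⁻¹ * π g' := mul_inv_eq_iff_eq_mul.1 hp2
    rw [hg'y, map_mul] at e2
    have e3 : π g * (s * π y) = π g * (π y * s) := by
      rw [← mul_assoc, e1, mul_assoc, ← e2, mul_assoc]
    exact (mul_left_cancel e3).symm
  have hys' : ∀ x, π y (s x) = s (π y x) := by
    intro x
    have := congrArg (fun f : Perm ι => f x) hys
    simpa [Perm.mul_apply] using this
  have sa : s a = b := cyc_a hab had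
  have sb : s b = d := cyc_b had hbd
  have sd : s d = a := cyc_d a b d
  have hpow : ∃ k : ℕ, π y a = (s ^ k) a := by
    by_cases h1 : π y a = a
    · exact ⟨0, by rw [pow_zero, Perm.one_apply, h1]⟩
    · by_cases h2 : π y a = b
      · exact ⟨1, by rw [pow_one, sa, h2]⟩
      · by_cases h4 : π y a = d
        · exact ⟨2, by rw [pow_two, Perm.mul_apply, sa, sb, h4]⟩
        · exfalso
          have h5 : s (π y a) = π y a := cyc_x h1 h2 h4
          rw [← hys', sa] at h5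
          exact hab ((π y).injective h5).symm
  obtain ⟨k, hk⟩ := hpow
  have hsk : ∀ x, s ((s ^ k) x) = (s ^ k) (s x) := by
    intro x
    rw [← Perm.mul_apply, ← Perm.mul_apply, ← pow_succ', ← pow_succ]
  have hkb : π y b = (s ^ k) b := by
    rw [← sa, hys', hk, hsk]
  have hkd : π y d = (s ^ k) d := by
    rw [← sb, hys', hkb, hsk]
  have hfix : ∀ x, π y x = (s ^ k) x → π ((t ^ k)⁻¹ * y) x = x := by
    intro x hx
    rw [map_mul, map_inv, map_pow, ht, Perm.mul_apply, hx, ← Perm.mul_apply, inv_mul_cancel, Perm.one_apply]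
  have hcl := comm_lift h h8 hab had hbd (x := t) (y := (t ^ k)⁻¹ * y) ht (hfix a hk) (hfix b hkb) (hfix d hkd)
  have hty : Commute t y := by
    have h1 : Commute t ((t ^ k)⁻¹ * y) := hcl
    have h2 : Commute t (t ^ k) := (Commute.refl t).pow_right k
    have h4 := h2.mul_right h1
    rwa [mul_inv_cancel_left] at h4
  -- conclusion
  have hfin : t⁻¹ * c⁻¹ = t⁻¹ * c := by
    have e1 : t'⁻¹ = t⁻¹ * c⁻¹ := by
      rw [ht'c, mul_inv_rev]
      have := hcc t
      have h5 : Commute t c := this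
      exact h5.inv_inv.eq.symm
    rw [← e1, ← hg', hg'y, ht'c]
    calc g * y * (t * c) * (g * y)⁻¹ = g * (y * t) * (c * (y⁻¹ * g⁻¹)) := by group
      _ = g * (t * y) * ((y⁻¹ * g⁻¹) * c) := by rw [hty.eq, ← hcc]
      _ = (g * t * g⁻¹) * c := by group
      _ = t⁻¹ * c := by rw [hg]
  have hcinv : c⁻¹ = c := mul_left_cancel hfin
  have hc2 : c ^ 2 = 1 := by
    rw [pow_two]
    nth_rewrite 1 [← hcinv]
    exact inv_mul_cancel c
  have hc1 : c = 1 := by
    have : c ^ 3 = c ^ 2 * c := pow_succ c 2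
    rw [hc3, hc2, one_mul] at this
    exact this.symm
  rw [ht'c, hc1, mul_one]

end Pool.Agent.Helper57.AN
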