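import Pool.Agent.Helper57.AN.LiftB

/-!
# AN-G05 LiftC: Carmichael's generators of a cover

PROOF. For `i ≠ a, b` let `v i` be the canonical lift of `cyc a b i` (`gd_exists`; choice; `v i = 1` for the other `i`).
(1) For `x ∈ M`, `σ = π x` with `σ a = a`, `σ b = b`: `x (v i) x⁻¹ = v (σ i)` (`gd_unique`, `Gd.conj`, `cyc_conj`). If `σ a = b`, `σ b = a`:
`x (v i) x⁻¹ = (v (σ i))⁻¹` (`Gd.inv`, `cyc_inv`).
(2) `alternatingGroup ι` is `(card ι - 2)`-transitive, in particular 4-transitive (`alternatingGroup.isMultiplyPretransitive` and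
`MulAction.isMultiplyPretransitive_of_le'`, as `4 ≤ card ι - 2`); so for `i ≠ j`, `k ≠ l` (all different from `a, b`) there is `x ∈ M` with `π x : a, b, i, j ↦ a, b, k, l`
(or `↦ b, a, k, l`).
(3) `(cyc a b i * cyc a b j) ^ 2 = 1` for `i ≠ j` (check: it is the product of the transpositions `(a i) (b j)` or
similar; proof by `Equiv.ext` and case distinction, or `cyc a b i * cyc a b j = swap a i * swap b j`-like identity), so `J i j := (v i * v j) ^ 2 ∈ π.ker` is central. By (1), (2) `J k l = x (J i j) x⁻¹ = J i j`. So there is a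
common value `J` (choose one pair; `8 ≤ card`). With `x : a, b, i, j ↦ b, a, j, i`: `J i j = x (J i j) x⁻¹ = ((v j)⁻¹ (v i)⁻¹) ^ 2 = (J i j)⁻¹`, so `J ^ 2 = 1`.
(4) Let `M0` be the closure of the `v i`. `π M0` is the alternating group (`gen3`, `MonoidHom.map_closure`). So `M = M0 π.ker`, every commutator in `M` is a commutator
in `M0` (`π.ker` central), `M` is perfect, so `M0 = ⊤`.
-/

set_option autoImplicit false

open Equiv
open scoped commutatorElement

namespace Pool.Agent.Helper57.AN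

theorem carm_four {ι : Type} [Fintype ι] [DecidableEq ι] (h8 : 8 ≤ Fintype.card ι)
    (x y : Fin 4 → ι) (hx : Function.Injective x) (hy : Function.Injective y) :
    ∃ σ ∈ alternatingGroup ι, ∀ k, σ (x k) = y k := by
  obtain ⟨σ, hσ⟩ := Equiv.Perm.exists_extending_pair x y hx hy
  by_cases hs : Perm.sign σ = 1
  · exact ⟨σ, Perm.mem_alternatingGroup.2 hs, fun k => hσ k⟩
  · have hcard : (Finset.univ.image y).card ≤ 4 := by
      refine Finset.card_image_le.trans ?_
      simp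
    have h1 : ∃ e, e ∉ Finset.univ.image y := by
      by_contra hc
      push Not at hc
      have : Finset.univ.image y = Finset.univ := Finset.eq_univ_iff_forall.2 hc
      rw [this, Finset.card_univ] at hcard
      omega
    obtain ⟨e, he⟩ := h1
    have h2 : ∃ f, f ∉ insert e (Finset.univ.image y) := by
      by_contra hc
      push Not at hc
      have h3 : insert e (Finset.univ.image y) = Finset.univ := Finset.eq_univ_iff_forall.2 hc
      have h4 := Finset.card_insert_le e (Finset.univ.image y)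
      rw [h3, Finset.card_univ] at h4
      omega
    obtain ⟨f, hf⟩ := h2
    simp only [Finset.mem_insert, not_or] at hf
    have hef : e ≠ f := fun h => hf.1 h.symm
    refine ⟨swap e f * σ, ?_, fun k => ?_⟩
    · rw [Perm.mem_alternatingGroup, Perm.sign_mul, Perm.sign_swap hef]
      rcases Int.units_eq_one_or (Perm.sign σ) with h | h
      · exact absurd h hs
      · rw [h]; decide
    · rw [Perm.mul_apply, hσ k]
      apply swap_apply_of_ne_of_ne
      · intro h; exact he (Finset.mem_image.2 ⟨k, Finset.mem_univ _, h⟩)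
      · intro h; exact hf.2 (Finset.mem_image.2 ⟨k, Finset.mem_univ _, h⟩)

theorem carm_inj4 {ι : Type} {a b i j : ι} (hab : a ≠ b) (hai : a ≠ i) (haj : a ≠ j)
    (hbi : b ≠ i) (hbj : b ≠ j) (hij : i ≠ j) : Function.Injective ![a, b, i, j] := by
  intro m n h
  fin_cases m <;> fin_cases n <;> simp_all

theorem carm_prod {ι : Type} [DecidableEq ι] {a b i j : ι} (hab : a ≠ b) (hia : i ≠ a)
    (hib : i ≠ b) (hja : j ≠ a) (hjb : j ≠ b) (hij : i ≠ j) :
    cyc a b i * cyc a b j = swap a i * swap b j := by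
  ext x
  simp only [cyc, Perm.mul_apply]
  by_cases h1 : x = a
  · subst h1
    rw [swap_apply_of_ne_of_ne hab (Ne.symm hja), swap_apply_left, swap_apply_left,
      swap_apply_of_ne_of_ne hia hib, swap_apply_left]
  by_cases h2 : x = b
  · subst h2
    rw [swap_apply_left, swap_apply_of_ne_of_ne hja hjb, swap_apply_of_ne_of_ne hjb (Ne.symm hij),
      swap_apply_of_ne_of_ne hja hjb, swap_apply_of_ne_of_ne hja (Ne.symm hij)]
  by_cases h3 : x = i
  · subst h3
    rw [swap_apply_of_ne_of_ne hib hij, swap_apply_of_ne_of_ne hia hib, swap_apply_right,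
      swap_apply_right, swap_apply_right]
  by_cases h4 : x = j
  · subst h4
    rw [swap_apply_right, swap_apply_right, swap_apply_of_ne_of_ne hab (Ne.symm hia),
      swap_apply_left, swap_apply_of_ne_of_ne (Ne.symm hab) (Ne.symm hib)]
  rw [swap_apply_of_ne_of_ne h2 h4, swap_apply_of_ne_of_ne h1 h2, swap_apply_of_ne_of_ne h2 h3,
    swap_apply_of_ne_of_ne h1 h2, swap_apply_of_ne_of_ne h1 h3]

theorem carm_sq {ι : Type} [DecidableEq ι] {a b i j : ι} (hab : a ≠ b) (hia : i ≠ a)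
    (hib : i ≠ b) (hja : j ≠ a) (hjb : j ≠ b) (hij : i ≠ j) :
    (cyc a b i * cyc a b j) ^ 2 = 1 := by
  rw [carm_prod hab hia hib hja hjb hij]
  have hc : swap a i * swap b j = swap b j * swap a i := by
    ext x
    simp only [Perm.mul_apply]
    by_cases h1 : x = a
    · subst h1
      rw [swap_apply_of_ne_of_ne hab (Ne.symm hja), swap_apply_left,
        swap_apply_of_ne_of_ne hib hij]
    by_cases h2 : x = b
    · subst h2
      rw [swap_apply_left, swap_apply_of_ne_of_ne hja (Ne.symm hij),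
        swap_apply_of_ne_of_ne (Ne.symm hab) (Ne.symm hib), swap_apply_left]
    by_cases h3 : x = i
    · subst h3
      rw [swap_apply_of_ne_of_ne hib hij, swap_apply_right,
        swap_apply_of_ne_of_ne hab (Ne.symm hja)]
    by_cases h4 : x = j
    · subst h4
      rw [swap_apply_right, swap_apply_of_ne_of_ne (Ne.symm hab) (Ne.symm hib),
        swap_apply_of_ne_of_ne hja (Ne.symm hij), swap_apply_right]
    rw [swap_apply_of_ne_of_ne h2 h4, swap_apply_of_ne_of_ne h1 h3,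
      swap_apply_of_ne_of_ne h2 h4]
  rw [pow_two]
  calc swap a i * swap b j * (swap a i * swap b j)
      = swap a i * (swap b j * swap a i) * swap b j := by group
    _ = swap a i * (swap a i * swap b j) * swap b j := by rw [hc]
    _ = (swap a i * swap a i) * (swap b j * swap b j) := by group
    _ = 1 := by rw [swap_mul_self, swap_mul_self, one_mul]

theorem exists_carm {ι : Type} [Fintype ι] [DecidableEq ι] {M : Type} [Group M] {π : M →* Perm ι}
    (h : Cov π) (h8 : 8 ≤ Fintype.card ι) {a b : ι} (hab : a ≠ b) :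
    ∃ (v : ι → M) (J : M), J ∈ Subgroup.center M ∧ π J = 1 ∧ J ^ 2 = 1 ∧
      (∀ i, i ≠ a → i ≠ b → π (v i) = cyc a b i) ∧ (∀ i, i ≠ a → i ≠ b → v i ^ 3 = 1) ∧
      (∀ i j, i ≠ a → i ≠ b → j ≠ a → j ≠ b → i ≠ j → (v i * v j) ^ 2 = J) ∧
      Subgroup.closure {x : M | ∃ i, i ≠ a ∧ i ≠ b ∧ x = v i} = ⊤ := by
  classical
  have hv : ∀ i : ι, ∃ t : M, i ≠ a → i ≠ b → (π t = cyc a b i ∧ Gd t) := by
    intro i
    by_cases hi : i ≠ a ∧ i ≠ b
    · obtain ⟨t, ht⟩ := gd_exists h h8 hab (Ne.symm hi.1) (Ne.symm hi.2)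
      exact ⟨t, fun _ _ => ht⟩
    · exact ⟨1, fun h1 h2 => absurd ⟨h1, h2⟩ hi⟩
  choose v hv using hv
  -- conjugation
  have conj1 : ∀ x : M, π x a = a → π x b = b → ∀ i, i ≠ a → i ≠ b →
      x * v i * x⁻¹ = v (π x i) := by
    intro x hxa hxb i hia hib
    obtain ⟨h1, h2⟩ := hv i hia hib
    have hna : π x i ≠ a := by
      intro hc; rw [← hxa] at hc; exact hia ((π x).injective hc)
    have hnb : π x i ≠ b := by
      intro hc; rw [← hxb] at hc; exact hib ((π x).injective hc)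
    obtain ⟨h3, h4⟩ := hv (π x i) hna hnb
    refine gd_unique h h8 hab (Ne.symm hna) (Ne.symm hnb) ?_ h3 (h2.conj x) h4
    rw [map_mul, map_mul, map_inv, h1, cyc_conj, hxa, hxb]
  have conj2 : ∀ x : M, π x a = b → π x b = a → ∀ i, i ≠ a → i ≠ b →
      x * v i * x⁻¹ = (v (π x i))⁻¹ := by
    intro x hxa hxb i hia hib
    obtain ⟨h1, h2⟩ := hv i hia hib
    have hna : π x i ≠ a := by
      intro hc; rw [← hxb] at hc; exact hib ((π x).injective hc)
    have hnb : π x i ≠ b := by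
      intro hc; rw [← hxa] at hc; exact hia ((π x).injective hc)
    obtain ⟨h3, h4⟩ := hv (π x i) hna hnb
    have : (x * v i * x⁻¹)⁻¹ = v (π x i) := by
      refine gd_unique h h8 hab (Ne.symm hna) (Ne.symm hnb) ?_ h3 (h2.conj x).inv h4
      rw [map_inv, map_mul, map_mul, map_inv, h1, cyc_conj, hxa, hxb,
        cyc_inv (Ne.symm hab) (Ne.symm hnb) (Ne.symm hna)]
    rw [← this, inv_inv]
  -- centrality of the squares
  have hcen : ∀ i j, i ≠ a → i ≠ b → j ≠ a → j ≠ b → i ≠ j →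
      (v i * v j) ^ 2 ∈ π.ker := by
    intro i j hia hib hja hjb hij
    rw [MonoidHom.mem_ker, map_pow, map_mul, (hv i hia hib).1, (hv j hja hjb).1]
    exact carm_sq hab hia hib hja hjb hij
  have hcomm : ∀ z ∈ π.ker, ∀ x : M, x * z * x⁻¹ = z := by
    intro z hz x
    have := Subgroup.mem_center_iff.1 (h.ker hz) x
    rw [this, mul_inv_cancel_right]
  have lift : ∀ σ ∈ alternatingGroup ι, ∃ x : M, π x = σ := by
    intro σ hσ
    rw [← h.range] at hσ
    exact hσ
  -- two base points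
  have hex : ∃ i0 j0 : ι, i0 ≠ a ∧ i0 ≠ b ∧ j0 ≠ a ∧ j0 ≠ b ∧ i0 ≠ j0 := by
    have h1 : ∃ i0, i0 ∉ ({a, b} : Finset ι) := by
      by_contra hc
      push Not at hc
      have h2 : ({a, b} : Finset ι) = Finset.univ := Finset.eq_univ_iff_forall.2 hc
      have h3 := Finset.card_le_two (a := a) (b := b)
      rw [h2, Finset.card_univ] at h3
      omega
    obtain ⟨i0, hi0⟩ := h1
    have h1 : ∃ j0, j0 ∉ ({a, b, i0} : Finset ι) := by
      by_contra hc
      push Not at hc
      have h2 : ({a, b, i0} : Finset ι) = Finset.univ := Finset.eq_univ_iff_forall.2 hc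
      have h3 := Finset.card_le_three (a := a) (b := b) (c := i0)
      rw [h2, Finset.card_univ] at h3
      omega
    obtain ⟨j0, hj0⟩ := h1
    simp only [Finset.mem_insert, Finset.mem_singleton, not_or] at hi0 hj0
    exact ⟨i0, j0, hi0.1, hi0.2, hj0.1, hj0.2.1, fun h => hj0.2.2 h.symm⟩
  obtain ⟨i0, j0, hi0a, hi0b, hj0a, hj0b, hij0⟩ := hex
  have hall : ∀ i j, i ≠ a → i ≠ b → j ≠ a → j ≠ b → i ≠ j →
      (v i * v j) ^ 2 = (v i0 * v j0) ^ 2 := by
    intro i j hia hib hja hjb hij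
    obtain ⟨σ, hσ, hσx⟩ := carm_four h8 ![a, b, i0, j0] ![a, b, i, j]
      (carm_inj4 hab (Ne.symm hi0a) (Ne.symm hj0a) (Ne.symm hi0b) (Ne.symm hj0b) hij0)
      (carm_inj4 hab (Ne.symm hia) (Ne.symm hja) (Ne.symm hib) (Ne.symm hjb) hij)
    obtain ⟨x, rfl⟩ := lift σ hσ
    have e0 := hσx 0
    have e1 := hσx 1
    have e2 := hσx 2
    have e3 := hσx 3
    simp at e0 e1 e2 e3
    have := hcomm _ (hcen i0 j0 hi0a hi0b hj0a hj0b hij0) x
    rw [← this, ← conj_pow, ← e2, ← e3, ← conj1 x e0 e1 i0 hi0a hi0b,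
      ← conj1 x e0 e1 j0 hj0a hj0b]
    congr 1
    group
  refine ⟨v, (v i0 * v j0) ^ 2, h.ker (hcen i0 j0 hi0a hi0b hj0a hj0b hij0), ?_, ?_,
    fun i hia hib => (hv i hia hib).1, fun i hia hib => (hv i hia hib).2.1, hall, ?_⟩
  · exact (MonoidHom.mem_ker).1 (hcen i0 j0 hi0a hi0b hj0a hj0b hij0)
  · obtain ⟨σ, hσ, hσx⟩ := carm_four h8 ![a, b, i0, j0] ![b, a, j0, i0]
      (carm_inj4 hab (Ne.symm hi0a) (Ne.symm hj0a) (Ne.symm hi0b) (Ne.symm hj0b) hij0)
      (carm_inj4 (Ne.symm hab) (Ne.symm hj0b) (Ne.symm hi0b) (Ne.symm hj0a) (Ne.symm hi0a)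
        (Ne.symm hij0))
    obtain ⟨x, rfl⟩ := lift σ hσ
    have e0 := hσx 0
    have e1 := hσx 1
    have e2 := hσx 2
    have e3 := hσx 3
    simp at e0 e1 e2 e3
    have h1 := hcomm _ (hcen i0 j0 hi0a hi0b hj0a hj0b hij0) x
    have h2 : x * (v i0 * v j0) ^ 2 * x⁻¹ = ((v i0 * v j0) ^ 2)⁻¹ := by
      rw [← conj_pow]
      have : x * (v i0 * v j0) * x⁻¹ = (v i0 * v j0)⁻¹ := by
        have c1 := conj2 x e0 e1 i0 hi0a hi0b
        have c2 := conj2 x e0 e1 j0 hj0a hj0b
        rw [e2] at c1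
        rw [e3] at c2
        calc x * (v i0 * v j0) * x⁻¹ = (x * v i0 * x⁻¹) * (x * v j0 * x⁻¹) := by group
          _ = (v j0)⁻¹ * (v i0)⁻¹ := by rw [c1, c2]
          _ = (v i0 * v j0)⁻¹ := by rw [mul_inv_rev]
      rw [this, inv_pow]
    rw [h1] at h2
    rw [pow_two]
    nth_rewrite 1 [h2]
    exact inv_mul_cancel _
  · set M0 := Subgroup.closure {x : M | ∃ i, i ≠ a ∧ i ≠ b ∧ x = v i} with hM0
    have himg : M0.map π = alternatingGroup ι := by
      rw [hM0, MonoidHom.map_closure, ← gen3 hab]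
      congr 1
      ext c
      constructor
      · rintro ⟨_, ⟨i, hia, hib, rfl⟩, rfl⟩
        exact ⟨i, hia, hib, (hv i hia hib).1⟩
      · rintro ⟨i, hia, hib, rfl⟩
        exact ⟨v i, ⟨i, hia, hib, rfl⟩, (hv i hia hib).1⟩
    have hdec : ∀ m : M, ∃ m0 ∈ M0, ∃ z ∈ π.ker, m = m0 * z := by
      intro m
      have hm : π m ∈ M0.map π := by
        rw [himg, ← h.range]
        exact ⟨m, rfl⟩
      obtain ⟨m0, hm0, he⟩ := hm
      refine ⟨m0, hm0, m0⁻¹ * m, ?_, by group⟩
      rw [MonoidHom.mem_ker, map_mul, map_inv, he, inv_mul_cancel]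
    rw [eq_top_iff, ← h.perf, Subgroup.commutator_le]
    intro m _ n _
    obtain ⟨m0, hm0, z, hz, rfl⟩ := hdec m
    obtain ⟨n0, hn0, w, hw, rfl⟩ := hdec n
    have cz : ∀ y : M, y * z = z * y := fun y => Subgroup.mem_center_iff.1 (h.ker hz) y
    have cw : ∀ y : M, y * w = w * y := fun y => Subgroup.mem_center_iff.1 (h.ker hw) y
    have : ⁅m0 * z, n0 * w⁆ = ⁅m0, n0⁆ := by
      rw [commutatorElement_def, commutatorElement_def, mul_inv_rev, mul_inv_rev]
      calc m0 * z * (n0 * w) * (z⁻¹ * m0⁻¹) * (w⁻¹ * n0⁻¹)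
          = m0 * (z * (n0 * w)) * z⁻¹ * m0⁻¹ * w⁻¹ * n0⁻¹ := by group
        _ = m0 * ((n0 * w) * z) * z⁻¹ * m0⁻¹ * w⁻¹ * n0⁻¹ := by rw [cz (n0 * w)]
        _ = m0 * n0 * (w * m0⁻¹) * w⁻¹ * n0⁻¹ := by group
        _ = m0 * n0 * (m0⁻¹ * w) * w⁻¹ * n0⁻¹ := by rw [cw m0⁻¹]
        _ = m0 * n0 * m0⁻¹ * n0⁻¹ := by group
    rw [this, commutatorElement_def]
    exact M0.mul_mem (M0.mul_mem (M0.mul_mem hm0 hn0) (M0.inv_mem hm0)) (M0.inv_mem hn0)

end Pool.Agent.Helper57.AN
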