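import Pool.Agent.Helper57.AN.LInj

/-!
# AN-G10 NormA: the normalizer of the elementary abelian group

`sh i` is the shift of the block `i`: `inl (i, t) ↦ inl (i, 1 + t)`, other points fixed.

`sh_cycle`: `sh i` is a cycle with `p` points in its support, `sh i ^ p = 1`, and it is even for odd `p` (order `p`, or `IsCycle.sign`).

`pcycle_mem`: a cycle `c` of length `p` in the range of `permL` is in the range of `permE`. PROOF. `c = permL x`, data `σ, u, e, τ` as in `permL_inl`. If `σ i ≠ i` for some `i` then `c` moves all `p` points of the block `i` and maps them to another block, whose points are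
then moved too: more than `p` points in the support, contradiction. So `σ = 1`. `c ^ p = 1` (`IsCycle.orderOf`), so `τ ^ p = 1` in `Perm (Fin r)`, `r < p`: `τ = 1` (the order divides `r!`, `Nat.Prime.dvd_factorial`), and `u i ^ p = 1` in `(ZMod p)ˣ` (of order `p - 1`), so `u i = 1` (`ZMod.pow_card` : `u ^ p = u`). So `x = inl e`.

`mem_of_conj`: if `s * sh i * s⁻¹ ∈ range permE` for all `i` then `s ∈ range permL`. PROOF. `s * sh i * s⁻¹ = permE (ofAdd (f i))`, a cycle with `p` points in the support (conjugate), so `f i` has exactly one nonzero coordinate (the support of `permE (ofAdd f)` is the union of the blocks with `f j ≠ 0`):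
`f i = Pi.single (σ i) (u i)`, `u i ≠ 0`. `s` maps the support of `sh i` (the block `i`) onto the support of the conjugate (the block `σ i`): so `σ` is injective, hence a permutation, and `s (inl (i, t)) = inl (σ i, y i t)`.
`s (sh i (inl (i, t))) = permE (..) (s (inl (i, t)))` gives `y i (1 + t) = u i + y i t`, so `y i t = y i 0 + u i * t` (induction on `t.val`). `s` maps the complement of the blocks onto itself: `τ ∈ Perm (Fin r)`. Now `s = permL x` with `x.right.1.right = σ`, `x.right.1.left (σ i) = u i`, `toAdd x.left (σ i) = y i 0`, `x.right.2 = τ` (`permL_inl`, `permL_inr`).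

`norm_even`: `sh i` is in `(permL p w r).range ⊓ alternatingGroup`, so `s * sh i * s⁻¹` is in the range of `permL`, a cycle with `p` points (conjugate of one), so in the range of `permE` by `pcycle_mem`. `mem_of_conj`.
-/

set_option autoImplicit false

open Equiv

namespace Pool.Agent.Helper57.AN

open Pool.Agent.Helper81.AN

/-- the shift of the block `i` -/
def sh (p w r : ℕ) (i : Fin w) : Perm (Pt p w r) :=
  permE p w r (Multiplicative.ofAdd (Pi.single i 1))

theorem inv_self' {α : Type} (s : Perm α) (q : α) : s⁻¹ (s q) = q := s.symm_apply_apply q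

theorem self_inv' {α : Type} (s : Perm α) (q : α) : s (s⁻¹ q) = q := s.apply_symm_apply q

theorem permE_inl (p w r : ℕ) (e : EE p w) (i : Fin w) (t : ZMod p) :
    permE p w r e (Sum.inl (i, t)) = Sum.inl (i, Multiplicative.toAdd e i + t) := rfl

theorem permE_inr (p w r : ℕ) (e : EE p w) (j : Fin r) :
    permE p w r e (Sum.inr j) = Sum.inr j := rfl

/-- the points moved by an element of the elementary abelian group -/
theorem permE_ne (p w r : ℕ) (e : EE p w) (q : Pt p w r) :
    permE p w r e q ≠ q ↔ ∃ i t, q = Sum.inl (i, t) ∧ Multiplicative.toAdd e i ≠ 0 := by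
  rcases q with ⟨i, t⟩ | j
  · rw [permE_inl]
    constructor
    · intro h
      refine ⟨i, t, rfl, fun h0 => h ?_⟩
      rw [h0, zero_add]
    · rintro ⟨i', t', h, h0⟩ h1
      have h2 := Sum.inl.inj h
      have h3 : i = i' := congrArg Prod.fst h2
      have h4 := congrArg Prod.snd (Sum.inl.inj h1)
      simp only at h4
      rw [h3] at h4
      exact h0 (add_eq_right.1 h4)
  · rw [permE_inr]
    constructor
    · intro h
      exact absurd rfl h
    · rintro ⟨i', t', h, h0⟩
      cases h

theorem sh_inl_self (p w r : ℕ) (i : Fin w) (t : ZMod p) :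
    sh p w r i (Sum.inl (i, t)) = Sum.inl (i, 1 + t) := by
  unfold sh
  rw [permE_inl, toAdd_ofAdd, Pi.single_eq_same]

theorem sh_ne (p : ℕ) [Fact p.Prime] (w r : ℕ) (i : Fin w) (q : Pt p w r) :
    sh p w r i q ≠ q ↔ ∃ t, q = Sum.inl (i, t) := by
  unfold sh
  rw [permE_ne]
  constructor
  · rintro ⟨j, t, h, h0⟩
    rw [toAdd_ofAdd] at h0
    have h1 : j = i := by
      by_contra h2
      exact h0 (Pi.single_eq_of_ne h2 _)
    rw [h1] at h
    exact ⟨t, h⟩
  · rintro ⟨t, h⟩
    refine ⟨i, t, h, ?_⟩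
    rw [toAdd_ofAdd, Pi.single_eq_same]
    exact one_ne_zero

theorem sh_pow (p w r : ℕ) (i : Fin w) (n : ℕ) :
    (sh p w r i ^ n) (Sum.inl (i, 0)) = Sum.inl (i, (n : ZMod p)) := by
  induction n with
  | zero => rw [pow_zero, Nat.cast_zero]; rfl
  | succ n ih => rw [pow_succ', Perm.mul_apply, ih, sh_inl_self, Nat.cast_succ, add_comm]

theorem sh_cycle (p : ℕ) [Fact p.Prime] (w r : ℕ) (i : Fin w) :
    (sh p w r i).IsCycle ∧ (sh p w r i).support.card = p := by
  refine ⟨⟨Sum.inl (i, 0), (sh_ne p w r i _).2 ⟨0, rfl⟩, fun y hy => ?_⟩, ?_⟩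
  · obtain ⟨t, rfl⟩ := (sh_ne p w r i _).1 hy
    refine ⟨(t.val : ℤ), ?_⟩
    rw [zpow_natCast, sh_pow, ZMod.natCast_zmod_val]
  · have h1 : (sh p w r i).support =
        Finset.univ.map ⟨fun t : ZMod p => (Sum.inl (i, t) : Pt p w r), fun a b h =>
          congrArg Prod.snd (Sum.inl.inj h)⟩ := by
      ext q
      rw [Perm.mem_support, sh_ne, Finset.mem_map]
      constructor
      · rintro ⟨t, rfl⟩
        exact ⟨t, Finset.mem_univ _, rfl⟩
      · rintro ⟨t, _, rfl⟩
        exact ⟨t, rfl⟩
    rw [h1, Finset.card_map, Finset.card_univ, ZMod.card]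

theorem permL_left (p w r : ℕ) (e : EE p w) :
    permL p w r (SemidirectProduct.inl e) = permE p w r e := by
  unfold permL
  rw [SemidirectProduct.lift_inl]

theorem permE_mem (p w r : ℕ) (e : EE p w) : permE p w r e ∈ (permL p w r).range :=
  ⟨SemidirectProduct.inl e, permL_left p w r e⟩

theorem pcycle_mem (p : ℕ) [Fact p.Prime] (w r : ℕ) (hr : r < p) (c : Perm (Pt p w r))
    (hc : c.IsCycle) (hs : c.support.card = p) (hm : c ∈ (permL p w r).range) :
    c ∈ (permE p w r).range := by
  have hp : p.Prime := Fact.out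
  obtain ⟨x, rfl⟩ := hm
  have hσ : ∀ i, x.right.1.right i = i := by
    intro i
    by_contra hi
    have h1 : Finset.univ.map ⟨fun t : ZMod p ⊕ ZMod p =>
        (Sum.elim (fun t => Sum.inl (i, t)) (fun t => Sum.inl (x.right.1.right i, t)) t :
          Pt p w r), by
          rintro (a | a) (b | b) h
          · exact congrArg Sum.inl (congrArg Prod.snd (Sum.inl.inj h))
          · exact absurd (congrArg Prod.fst (Sum.inl.inj h)).symm hi
          · exact absurd (congrArg Prod.fst (Sum.inl.inj h)) hi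
          · exact congrArg Sum.inr (congrArg Prod.snd (Sum.inl.inj h))⟩ ⊆
        (permL p w r x).support := by
      intro q hq
      rw [Finset.mem_map] at hq
      obtain ⟨t, _, rfl⟩ := hq
      rw [Perm.mem_support]
      rcases t with t | t
      · intro h
        exact hi (congrArg Prod.fst (Sum.inl.inj ((permL_inl p w r x i t).symm.trans h)))
      · intro h
        exact hi (x.right.1.right.injective (congrArg Prod.fst
          (Sum.inl.inj ((permL_inl p w r x (x.right.1.right i) t).symm.trans h))))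
    have h2 := Finset.card_le_card h1
    rw [Finset.card_map, Finset.card_univ, Fintype.card_sum, ZMod.card, hs] at h2
    have := hp.pos
    omega
  have ho : permL p w r x ^ p = 1 := by
    have h1 := pow_orderOf_eq_one (permL p w r x)
    rwa [hc.orderOf, hs] at h1
  have hx2 : x.right.2 = 1 := by
    have h1 : x.right.2 ^ p = 1 := by
      have h2 : x ^ p = 1 := permL_injective p w r (by rw [map_pow, ho, map_one])
      have h3 : (x ^ p).right = x.right ^ p := map_pow SemidirectProduct.rightHom x p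
      rw [h2] at h3
      have h4 := congrArg Prod.snd h3
      exact h4.symm
    have h2 : orderOf x.right.2 ∣ p := orderOf_dvd_of_pow_eq_one h1
    have h3 : orderOf x.right.2 ∣ r.factorial := by
      have h4 := orderOf_dvd_card (x := x.right.2)
      rwa [Fintype.card_perm, Fintype.card_fin] at h4
    have h4 : Nat.Coprime p r.factorial := by
      rw [hp.coprime_iff_not_dvd, hp.dvd_factorial]
      omega
    rw [← orderOf_eq_one_iff]
    exact Nat.eq_one_of_dvd_coprimes h4 h2 h3
  have hu : ∀ i, x.right.1.left i = 1 := by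
    intro i
    have key : ∀ n : ℕ, ∃ b : ZMod p, ∀ t, (permL p w r x ^ n) (Sum.inl (i, t)) =
        Sum.inl (i, b + (x.right.1.left i : ZMod p) ^ n * t) := by
      intro n
      induction n with
      | zero =>
        refine ⟨0, fun t => ?_⟩
        rw [pow_zero, pow_zero, one_mul, zero_add]
        rfl
      | succ n ih =>
        obtain ⟨b, hb⟩ := ih
        refine ⟨Multiplicative.toAdd x.left i + (x.right.1.left i : ZMod p) * b, fun t => ?_⟩
        rw [pow_succ', Perm.mul_apply, hb, permL_inl, hσ]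
        congr 2
        ring
    obtain ⟨b, hb⟩ := key p
    rw [ho] at hb
    have h0 := congrArg Prod.snd (Sum.inl.inj (hb 0))
    have h1 := congrArg Prod.snd (Sum.inl.inj (hb 1))
    simp only [mul_zero, add_zero, mul_one] at h0 h1
    rw [← h0, zero_add, ZMod.pow_card] at h1
    exact Units.ext h1.symm
  refine ⟨x.left, ?_⟩
  rw [← permL_left]
  congr 1
  refine SemidirectProduct.ext rfl ?_
  refine Prod.ext (SemidirectProduct.ext ?_ ?_) hx2.symm
  · funext i
    exact (hu i).symm
  · exact Equiv.ext fun i => (hσ i).symm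

theorem mem_of_conj (p : ℕ) [Fact p.Prime] (w r : ℕ) (s : Perm (Pt p w r))
    (h : ∀ i, s * sh p w r i * s⁻¹ ∈ (permE p w r).range) : s ∈ (permL p w r).range := by
  choose f hf using h
  have hconj : ∀ i q, s (sh p w r i q) = permE p w r (f i) (s q) := by
    intro i q
    rw [hf, Perm.mul_apply, Perm.mul_apply, inv_self']
  have hmv : ∀ i q, (∃ j t, s q = Sum.inl (j, t) ∧ Multiplicative.toAdd (f i) j ≠ 0) ↔
      ∃ t, q = Sum.inl (i, t) := by
    intro i q
    rw [← permE_ne, ← hconj, ← sh_ne]
    exact s.injective.ne_iff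
  have h1 : ∀ i, ∃ j, Multiplicative.toAdd (f i) j ≠ 0 ∧ ∀ t, ∃ t', s (Sum.inl (i, t)) =
      Sum.inl (j, t') := by
    intro i
    obtain ⟨j, t, h2, h3⟩ := (hmv i (Sum.inl (i, 0))).2 ⟨0, rfl⟩
    refine ⟨j, h3, ?_⟩
    have h4 : ∀ t' : ZMod p, ∃ t, s⁻¹ (Sum.inl (j, t')) = Sum.inl (i, t) := by
      intro t'
      refine (hmv i _).1 ⟨j, t', ?_, h3⟩
      rw [self_inv']
    choose g hg using h4
    have hginj : Function.Injective g := by
      intro a b hab
      have h5 : s⁻¹ (Sum.inl (j, a)) = s⁻¹ (Sum.inl (j, b)) := by rw [hg, hg, hab]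
      exact congrArg Prod.snd (Sum.inl.inj (s⁻¹.injective h5))
    intro t
    obtain ⟨t', ht'⟩ := (Finite.injective_iff_surjective.1 hginj) t
    refine ⟨t', ?_⟩
    rw [← ht', ← hg, self_inv']
  choose σ hσ0 y hy using h1
  have hσinj : Function.Injective σ := by
    intro i j hij
    have h2 : ∀ t', ∃ t, s⁻¹ (Sum.inl (σ i, t')) = Sum.inl (i, t) := by
      intro t'
      refine (hmv i _).1 ⟨σ i, t', ?_, hσ0 i⟩
      rw [self_inv']
    have h3 : ∀ t', ∃ t, s⁻¹ (Sum.inl (σ j, t')) = Sum.inl (j, t) := by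
      intro t'
      refine (hmv j _).1 ⟨σ j, t', ?_, hσ0 j⟩
      rw [self_inv']
    obtain ⟨t, ht⟩ := h2 0
    obtain ⟨t', ht'⟩ := h3 0
    rw [hij, ht'] at ht
    exact (congrArg Prod.fst (Sum.inl.inj ht)).symm
  have hσsur := Finite.injective_iff_surjective.1 hσinj
  have hy1 : ∀ i t, y i (1 + t) = Multiplicative.toAdd (f i) (σ i) + y i t := by
    intro i t
    have h2 := hconj i (Sum.inl (i, t))
    rw [sh_inl_self, hy, hy, permE_inl] at h2
    exact congrArg Prod.snd (Sum.inl.inj h2)
  have hy2 : ∀ i (n : ℕ), y i (n : ZMod p) = y i 0 + Multiplicative.toAdd (f i) (σ i) * n := by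
    intro i n
    induction n with
    | zero => rw [Nat.cast_zero, mul_zero, add_zero]
    | succ n ih =>
      rw [Nat.cast_succ, add_comm (n : ZMod p) 1, hy1, ih]
      ring
  have hy3 : ∀ i t, y i t = y i 0 + Multiplicative.toAdd (f i) (σ i) * t := by
    intro i t
    have h2 := hy2 i t.val
    rwa [ZMod.natCast_zmod_val] at h2
  have h2 : ∀ j : Fin r, ∃ k, s (Sum.inr j) = Sum.inr k := by
    intro j
    rcases h3 : s (Sum.inr j) with ⟨k, t⟩ | k
    · exfalso
      obtain ⟨i, rfl⟩ := hσsur k
      obtain ⟨t', ht'⟩ := (hmv i (Sum.inr j)).1 ⟨σ i, t, h3, hσ0 i⟩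
      cases ht'
    · exact ⟨k, rfl⟩
  choose τ hτ using h2
  have hτinj : Function.Injective τ := by
    intro a b hab
    have h3 : s (Sum.inr a) = s (Sum.inr b) := by rw [hτ, hτ, hab]
    exact Sum.inr.inj (s.injective h3)
  let σ' : Perm (Fin w) := Equiv.ofBijective σ ⟨hσinj, hσsur⟩
  let τ' : Perm (Fin r) := Equiv.ofBijective τ ⟨hτinj, Finite.injective_iff_surjective.1 hτinj⟩
  have hσ'1 : ∀ i, σ' i = σ i := fun i => rfl
  have hσ'2 : ∀ i, σ'.symm (σ i) = i := fun i => σ'.symm_apply_apply i
  let x : LL p w r := ⟨Multiplicative.ofAdd fun k => y (σ'.symm k) 0,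
    (⟨fun k => Units.mk0 (Multiplicative.toAdd (f (σ'.symm k)) (σ (σ'.symm k)))
      (hσ0 (σ'.symm k)), σ'⟩, τ')⟩
  refine ⟨x, ?_⟩
  ext1 q
  rcases q with ⟨i, t⟩ | j
  · rw [permL_inl, hy, hy3]
    change Sum.inl (σ i, y (σ'.symm (σ i)) 0 +
      Multiplicative.toAdd (f (σ'.symm (σ i))) (σ (σ'.symm (σ i))) * t) = _
    rw [hσ'2]
  · rw [permL_inr, hτ]
    rfl

theorem norm_even (p : ℕ) [Fact p.Prime] (h3 : 3 ≤ p) (w r : ℕ) (hr : r < p)
    (s : Perm (Pt p w r))
    (hs : ∀ x ∈ (permL p w r).range ⊓ alternatingGroup (Pt p w r),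
      s * x * s⁻¹ ∈ (permL p w r).range) : s ∈ (permL p w r).range := by
  refine mem_of_conj p w r s fun i => ?_
  obtain ⟨h1, h2⟩ := sh_cycle p w r i
  refine pcycle_mem p w r hr _ h1.conj ?_ (hs _ ⟨permE_mem p w r _, ?_⟩)
  · rw [Perm.card_support_conj, h2]
  · change sh p w r i ∈ alternatingGroup (Pt p w r)
    rw [Perm.mem_alternatingGroup, h1.sign, h2]
    rw [Odd.neg_one_pow ((Fact.out : p.Prime).odd_of_ne_two (by omega)), neg_neg]

end Pool.Agent.Helper57.AN
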