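import Pool.Agent.Helper57.AN.HerSmall
import Pool.Agent.Helper57.AN.Jordan

/-!
# Project AN, block G: subgroups of index prime to `p` of the symmetric groups

All subgroups of index prime to `p` of a symmetric group have a subnormal series with factors which
are abelian, have cyclic Sylow `p`-subgroups or are alternating groups.
-/

set_option autoImplicit false

open Equiv MulAction
open scoped Pointwise

namespace Pool.Agent.Helper57.AN

variable {p : ℕ} {𝓕 : (F : Type) → [Group F] → Prop}

theorem Her.surj [Fact p.Prime] (hS : Simp 𝓕) {X Y : Type} [Group X] [Group Y] [Finite X]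
    (f : X →* Y) (hf : Function.Surjective f) (h : Her p 𝓕 X) : Her p 𝓕 Y := by
  intro H hH
  have h1 : Cls p 𝓕 (H.comap f) := by
    apply h
    rw [Subgroup.index_comap_of_surjective H hf]
    exact hH
  exact h1.surj hS (f.subgroupComap H) (f.subgroupComap_surjective_of_surjective H hf)

/-- intransitive groups -/
theorem cls_intrans [Fact p.Prime] (hS : Simp 𝓕) {α : Type} [Finite α] (s : α → Prop)
    (h1 : Her p 𝓕 (Perm {a // s a})) (h2 : Her p 𝓕 (Perm {a // ¬ s a}))
    (H : Subgroup (Perm α)) (hH : ∀ g ∈ H, ∀ x, s (g x) ↔ s x) (hd : ¬ p ∣ H.index) :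
    Cls p 𝓕 H := by
  classical
  refine Her.embed hS (Perm.subtypeCongrHom s) (h1.prod hS h2) H ?_ hd
  intro g hg
  refine ⟨(g.subtypePerm (hH g hg), g.subtypePerm (fun x => not_congr (hH g hg x))), ?_⟩
  ext x
  change Perm.subtypeCongr _ _ x = g x
  by_cases hx : s x
  · rw [Perm.subtypeCongr.left_apply _ _ hx]
    rfl
  · rw [Perm.subtypeCongr.right_apply _ _ hx]
    rfl

section wreath

variable (β γ : Type)

/-- the base group of the wreath product -/
def wrBase : (β → Perm γ) →* Perm (β × γ) where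
  toFun f :=
    { toFun := fun x => (x.1, f x.1 x.2)
      invFun := fun x => (x.1, (f x.1)⁻¹ x.2)
      left_inv := fun x => Prod.ext rfl ((f x.1).symm_apply_apply x.2)
      right_inv := fun x => Prod.ext rfl ((f x.1).apply_symm_apply x.2) }
  map_one' := rfl
  map_mul' _ _ := rfl

/-- the top group of the wreath product -/
def wrTop : Perm β →* Perm (β × γ) where
  toFun s :=
    { toFun := fun x => (s x.1, x.2)
      invFun := fun x => (s⁻¹ x.1, x.2)
      left_inv := fun x => Prod.ext (s.symm_apply_apply x.1) rfl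
      right_inv := fun x => Prod.ext (s.apply_symm_apply x.1) rfl }
  map_one' := rfl
  map_mul' _ _ := rfl

/-- the action of the wreath product -/
def wrHom : (β → Perm γ) ⋊[mulAutArrow (G := Perm β) (M := Perm γ)] Perm β →* Perm (β × γ) :=
  SemidirectProduct.lift (wrBase β γ) (wrTop β γ) (by
    intro s
    refine MonoidHom.ext fun f => ?_
    change wrBase β γ (mulAutArrow (G := Perm β) (M := Perm γ) s f) =
      wrTop β γ s * wrBase β γ f * (wrTop β γ s)⁻¹
    rw [eq_mul_inv_iff_mul_eq]
    ext1 x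
    change (s x.1, f (s⁻¹ (s x.1)) x.2) = (s x.1, f x.1 x.2)
    rw [isa])

end wreath

/-- imprimitive groups -/
theorem cls_imprim [Fact p.Prime] (hS : Simp 𝓕) {α β γ : Type} [Finite α] [Finite β] [Finite γ]
    [Nonempty γ] (e : α ≃ β × γ) (h1 : Her p 𝓕 (Perm β)) (h2 : Her p 𝓕 (Perm γ))
    (H : Subgroup (Perm α))
    (hH : ∀ g ∈ H, ∀ x y, (e x).1 = (e y).1 → (e (g x)).1 = (e (g y)).1)
    (hd : ¬ p ∣ H.index) : Cls p 𝓕 H := by
  classical
  obtain ⟨c0⟩ : Nonempty γ := inferInstance
  have hX : Her p 𝓕 ((β → Perm γ) ⋊[mulAutArrow (G := Perm β) (M := Perm γ)] Perm β) := by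
    have : Finite ((β → Perm γ) ⋊[mulAutArrow (G := Perm β) (M := Perm γ)] Perm β) :=
      Finite.of_equiv _ SemidirectProduct.equivProd.symm
    refine Her.extn hS SemidirectProduct.rightHom SemidirectProduct.rightHom_surjective ?_ h1
    let j : (β → Perm γ) →* (SemidirectProduct.rightHom (φ := mulAutArrow (G := Perm β)
        (M := Perm γ))).ker :=
      SemidirectProduct.inl.codRestrict _ (fun x => by
        rw [MonoidHom.mem_ker, SemidirectProduct.rightHom_inl])
    refine Her.surj hS j ?_ (h2.pi hS β)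
    rintro ⟨x, hx⟩
    rw [← SemidirectProduct.range_inl_eq_ker_rightHom] at hx
    obtain ⟨y, rfl⟩ := hx
    exact ⟨y, rfl⟩
  have : Finite ((β → Perm γ) ⋊[mulAutArrow (G := Perm β) (M := Perm γ)] Perm β) :=
    Finite.of_equiv _ SemidirectProduct.equivProd.symm
  let E : Perm (β × γ) ≃* Perm α := e.symm.permCongrHom
  refine Her.embed hS (E.toMonoidHom.comp (wrHom β γ)) hX H ?_ hd
  intro g hg
  have hE : ∀ (q : Perm (β × γ)) (x : α), E q x = e.symm (q (e x)) := fun q x => rfl
  -- the perm in coordinates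
  let q : Perm (β × γ) := E.symm g
  have hq : ∀ x, q x = e (g (e.symm x)) := fun x => rfl
  have hqi : ∀ x, q⁻¹ x = e (g⁻¹ (e.symm x)) := fun x => rfl
  have hq1 : ∀ x y : β × γ, x.1 = y.1 → (q x).1 = (q y).1 := by
    intro x y h
    rw [hq, hq]
    apply hH g hg
    rw [e.apply_symm_apply, e.apply_symm_apply, h]
  have hq2 : ∀ x y : β × γ, x.1 = y.1 → (q⁻¹ x).1 = (q⁻¹ y).1 := by
    intro x y h
    rw [hqi, hqi]
    apply hH g⁻¹ (H.inv_mem hg)
    rw [e.apply_symm_apply, e.apply_symm_apply, h]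
  let s : Perm β :=
    { toFun := fun b => (q (b, c0)).1
      invFun := fun b => (q⁻¹ (b, c0)).1
      left_inv := fun b => by
        have h3 := hq2 ((q (b, c0)).1, c0) (q (b, c0)) rfl
        rw [isa] at h3
        exact h3
      right_inv := fun b => by
        have h3 := hq1 ((q⁻¹ (b, c0)).1, c0) (q⁻¹ (b, c0)) rfl
        rw [ais] at h3
        exact h3 }
  have hs : ∀ b c, (q (b, c)).1 = s b := fun b c => hq1 (b, c) (b, c0) rfl
  have hs' : ∀ b c, (q⁻¹ (b, c)).1 = s⁻¹ b := fun b c => hq2 (b, c) (b, c0) rfl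
  let t : β → Perm γ := fun b =>
    { toFun := fun c => (q (s⁻¹ b, c)).2
      invFun := fun c => (q⁻¹ (b, c)).2
      left_inv := fun c => by
        have h3 : (b, (q (s⁻¹ b, c)).2) = q (s⁻¹ b, c) := by
          refine Prod.ext ?_ rfl
          rw [hs, ais]
        change (q⁻¹ (b, (q (s⁻¹ b, c)).2)).2 = c
        rw [h3, isa]
      right_inv := fun c => by
        have h3 : (s⁻¹ b, (q⁻¹ (b, c)).2) = q⁻¹ (b, c) := by
          refine Prod.ext ?_ rfl
          rw [hs']
        change (q (s⁻¹ b, (q⁻¹ (b, c)).2)).2 = c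
        rw [h3, ais] }
  refine ⟨⟨t, s⟩, ?_⟩
  have h4 : wrHom β γ ⟨t, s⟩ = q := by
    ext1 x
    change ((s x.1 : β), t (s x.1) x.2) = q x
    refine Prod.ext ?_ ?_
    · exact (hs x.1 x.2).symm
    · change (q (s⁻¹ (s x.1), x.2)).2 = (q x).2
      rw [isa]
  change E (wrHom β γ ⟨t, s⟩) = g
  rw [h4]
  exact E.apply_symm_apply g

end Pool.Agent.Helper57.AN
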