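import Pool.Agent.Helper57.AN.NormA

/-!
# AN-G11 SylA: the `p`-cycles of the Sylow subgroups of the symmetric group

`pcycle_sub`: `P` a `p`-subgroup of `Perm α` which contains two cycles `c, d` of length `p` whose supports have a common point. Then `d ∈ Subgroup.zpowers c`.
PROOF. Let `H = ⟨c, d⟩ ≤ P` (closure of `{c, d}`), a `p`-group, `O = c.support ∪ d.support`, of cardinality between `p` and `2 p - 1`. `O` is contained in the `H`-orbit of a common point `a` (`IsCycle.sameCycle`: every point of the support of `c` is `c ^ k a`), and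
every element of `H` fixes the points outside `O` and maps `O` to `O`, so the orbit of `a` is `O`. Its cardinality is a power of `p` (`IsPGroup.card_orbit`), at least `p` and less than `2 p ≤ p ^ 2`: it is `p`. So `O = c.support`, and `d.support = O` too.
`H` acts faithfully on `O` with `p` points, so `|H|` divides `p!` (`H ≤` the range of `Perm.ofSubtype : Perm O → Perm α`, `Subgroup.card_dvd_of_le`, `Nat.card_perm`), `|H|` is a power of `p`, `p ^ 2` does not divide `p!`, so `|H| ∣ p`; `zpowers c ≤ H` has order `p`, so `H = zpowers c`.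

`pcycle_syl`: `Q0` a Sylow `p`-subgroup of `Perm (Pt p w r)` which contains the range of `permE`, `c ∈ Q0` a cycle of length `p`: then `c ∈ (permE p w r).range`. PROOF. The support of `c` has `p > r` points, so it contains a point `inl (i, t)` of some block, which is in the support of `sh i`.
By `pcycle_sub` `c ∈ zpowers (sh i) ≤ range permE`.

`sylow_conj`: `r < p`. `range permE` is a `p`-group (`IsPGroup.map`/every element has order dividing `p`), so contained in a Sylow subgroup `Q0` (`IsPGroup.exists_le_sylow`). `Q = g Q0 g⁻¹` for some `g` (`MulAction.exists_smul_eq`, `Sylow.smul_def`/`mem` lemmas). Let `s ∈ normalizer Q`, `s' = g⁻¹ s g ∈ normalizer Q0`. `s' (sh i) s'⁻¹ ∈ Q0` is a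
cycle of length `p`, so in the range of `permE` (`pcycle_syl`). `mem_of_conj`: `s' ∈ range permL`.
-/

set_option autoImplicit false

open Equiv

namespace Pool.Agent.Helper57.AN

open Pool.Agent.Helper81.AN

private def stabO {α : Type} (O : Finset α) : Subgroup (Perm α) where
  carrier := {h | (∀ x, h x ∈ O ↔ x ∈ O) ∧ ∀ x, x ∉ O → h x = x}
  one_mem' := ⟨fun _ => Iff.rfl, fun _ _ => rfl⟩
  mul_mem' := by
    rintro g h ⟨g1, g2⟩ ⟨h1, h2⟩
    refine ⟨fun x => ?_, fun x hx => ?_⟩
    · rw [Perm.mul_apply, g1, h1]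
    · rw [Perm.mul_apply, h2 x hx, g2 x hx]
  inv_mem' := by
    rintro g ⟨g1, g2⟩
    refine ⟨fun x => ?_, fun x hx => ?_⟩
    · have h := g1 (g⁻¹ x)
      have e : g (g⁻¹ x) = x := Equiv.apply_symm_apply g x
      rw [e] at h
      exact h.symm
    · rw [Perm.inv_eq_iff_eq]
      exact (g2 x hx).symm

private lemma mem_stabO_of {α : Type} [Fintype α] [DecidableEq α] (O : Finset α) (c : Perm α)
    (hc : c.support ⊆ O) : c ∈ stabO O := by
  refine ⟨fun x => ?_, fun x hx => ?_⟩
  · by_cases h : x ∈ c.support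
    · exact ⟨fun _ => hc h, fun _ => hc (Perm.apply_mem_support.mpr h)⟩
    · rw [Perm.notMem_support.mp h]
  · exact Perm.notMem_support.mp fun h => hx (hc h)

theorem pcycle_sub {α : Type} [Fintype α] [DecidableEq α] (p : ℕ) [Fact p.Prime]
    (P : Subgroup (Perm α)) (hP : IsPGroup p P) (c d : Perm α) (hc : c ∈ P) (hd : d ∈ P)
    (hc1 : c.IsCycle) (hc2 : c.support.card = p) (hd1 : d.IsCycle) (hd2 : d.support.card = p)
    (a : α) (ha : a ∈ c.support) (ha' : a ∈ d.support) : d ∈ Subgroup.zpowers c := by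
  classical
  obtain ⟨O, hO⟩ : ∃ O : Finset α, O = c.support ∪ d.support := ⟨_, rfl⟩
  have hcO : c.support ⊆ O := by rw [hO]; exact Finset.subset_union_left
  have hdO : d.support ⊆ O := by rw [hO]; exact Finset.subset_union_right
  have hp2 : 2 ≤ p := (Fact.out : p.Prime).two_le
  have hOcard : O.card ≤ 2 * p - 1 := by
    have h1 := Finset.card_union_add_card_inter c.support d.support
    have h2 : 0 < (c.support ∩ d.support).card :=
      Finset.card_pos.mpr ⟨a, Finset.mem_inter.mpr ⟨ha, ha'⟩⟩
    rw [← hO] at h1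
    omega
  obtain ⟨H, hH⟩ : ∃ H : Subgroup (Perm α), H = Subgroup.closure {c, d} := ⟨_, rfl⟩
  have hcH : c ∈ H := by rw [hH]; exact Subgroup.subset_closure (Set.mem_insert _ _)
  have hdH : d ∈ H := by
    rw [hH]; exact Subgroup.subset_closure (Set.mem_insert_of_mem _ (Set.mem_singleton _))
  have hHP : H ≤ P := by
    rw [hH, Subgroup.closure_le]
    rintro x (rfl | rfl)
    · exact hc
    · exact hd
  have hHO : H ≤ stabO O := by
    rw [hH, Subgroup.closure_le]
    rintro x (rfl | rfl)
    · exact mem_stabO_of O _ hcO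
    · exact mem_stabO_of O _ hdO
  have hHp : IsPGroup p H := hP.to_le hHP
  have haO : a ∈ O := hcO ha
  have horb : MulAction.orbit H a = (O : Set α) := by
    ext x
    constructor
    · rintro ⟨h, rfl⟩
      exact ((hHO h.2).1 a).mpr haO
    · intro hx
      have hx' : x ∈ O := hx
      rw [hO, Finset.mem_union] at hx'
      rcases hx' with h1 | h1
      · obtain ⟨i, hi⟩ := hc1.sameCycle (Perm.mem_support.mp ha) (Perm.mem_support.mp h1)
        exact ⟨⟨c ^ i, Subgroup.zpow_mem _ hcH i⟩, hi⟩
      · obtain ⟨i, hi⟩ := hd1.sameCycle (Perm.mem_support.mp ha') (Perm.mem_support.mp h1)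
        exact ⟨⟨d ^ i, Subgroup.zpow_mem _ hdH i⟩, hi⟩
  have hOp : O.card = p := by
    obtain ⟨n, hn⟩ := hHp.card_orbit a
    rw [horb, Nat.card_coe_set_eq, Set.ncard_coe_finset] at hn
    have h1 : p ≤ O.card := by rw [← hc2]; exact Finset.card_le_card hcO
    rcases n with _ | _ | n
    · rw [pow_zero] at hn; omega
    · rw [hn, zero_add, pow_one]
    · exfalso
      have h2 : p ^ 2 ≤ p ^ (n + 1 + 1) := Nat.pow_le_pow_right (by omega) (by omega)
      have h3 : 2 * p ≤ p ^ 2 := by rw [pow_two]; exact Nat.mul_le_mul_right p hp2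
      omega
  have hcO' : c.support = O := Finset.eq_of_subset_of_card_le hcO (by rw [hOp, hc2])
  have hfix : ∀ h ∈ H, h a = a → h = 1 := by
    intro h hh hha
    ext b
    by_cases hb : b ∈ O
    · by_cases hba : b = a
      · rw [hba, hha]; rfl
      · have hz : Subgroup.zpowers h ≤ H := Subgroup.zpowers_le.mpr hh
        obtain ⟨n, hn⟩ := (hHp.to_le hz).card_orbit b
        have hsub : MulAction.orbit (Subgroup.zpowers h) b ⊆ ((O.erase a : Finset α) : Set α) := by
          rintro x ⟨g, rfl⟩
          have hgH : (g : Perm α) ∈ H := hz g.2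
          rw [Finset.mem_coe, Finset.mem_erase]
          refine ⟨?_, ((hHO hgH).1 b).mpr hb⟩
          intro he
          have he' : (g : Perm α) b = a := he
          obtain ⟨i, hi⟩ := g.2
          have hi' : h ^ i = (g : Perm α) := hi
          have h5 : (g : Perm α) a = a := by
            rw [← hi']
            exact Perm.zpow_apply_eq_self_of_apply_eq_self hha i
          exact hba ((g : Perm α).injective (he'.trans h5.symm))
        have hle : Nat.card (MulAction.orbit (Subgroup.zpowers h) b) ≤ (O.erase a).card := by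
          rw [Nat.card_coe_set_eq, ← Set.ncard_coe_finset]
          exact Set.ncard_le_ncard hsub (Finset.finite_toSet _)
        rw [hn, Finset.card_erase_of_mem haO, hOp] at hle
        have hn0 : n = 0 := by
          by_contra hne
          have h6 : p ^ 1 ≤ p ^ n := Nat.pow_le_pow_right (by omega) (by omega)
          rw [pow_one] at h6
          omega
        rw [hn0, pow_zero] at hn
        have hone := Nat.card_eq_one_iff_unique.mp hn
        have hs := hone.1
        have e1 : (⟨h b, ⟨⟨h, Subgroup.mem_zpowers h⟩, rfl⟩⟩ : MulAction.orbit (Subgroup.zpowers h) b) =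
            ⟨b, MulAction.mem_orbit_self b⟩ := Subsingleton.elim _ _
        have e2 : h b = b := congrArg Subtype.val e1
        rw [e2]; rfl
    · rw [(hHO hh).2 b hb]; rfl
  have hda : d a ∈ c.support := by
    rw [hcO']
    exact hdO (Perm.apply_mem_support.mpr ha')
  obtain ⟨i, hi⟩ := hc1.sameCycle (Perm.mem_support.mp ha) (Perm.mem_support.mp hda)
  have h7 := hfix ((c ^ i)⁻¹ * d) (H.mul_mem (H.inv_mem (H.zpow_mem hcH i)) hdH) (by
    rw [Perm.mul_apply, Perm.inv_eq_iff_eq]
    exact hi.symm)
  rw [inv_mul_eq_one] at h7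
  exact ⟨i, h7⟩

theorem pcycle_syl (p : ℕ) [Fact p.Prime] (w r : ℕ) (hr : r < p)
    (Q0 : Subgroup (Perm (Pt p w r))) (hQ : IsPGroup p Q0) (hE : (permE p w r).range ≤ Q0)
    (c : Perm (Pt p w r)) (hc : c ∈ Q0) (hc1 : c.IsCycle) (hc2 : c.support.card = p) :
    c ∈ (permE p w r).range := by
  classical
  have hex : ∃ (i : Fin w) (t : ZMod p), (Sum.inl (i, t) : Pt p w r) ∈ c.support := by
    by_contra hcon
    push Not at hcon
    have hsub : c.support ⊆ (Finset.univ : Finset (Fin r)).image (Sum.inr : Fin r → Pt p w r) := by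
      intro x hx
      rcases x with ⟨i, t⟩ | j
      · exact absurd hx (hcon i t)
      · exact Finset.mem_image_of_mem _ (Finset.mem_univ j)
    have h1 := (Finset.card_le_card hsub).trans Finset.card_image_le
    rw [hc2, Finset.card_univ, Fintype.card_fin] at h1
    omega
  obtain ⟨i, t, hit⟩ := hex
  obtain ⟨s1, s2⟩ := sh_cycle p w r i
  have hshE : sh p w r i ∈ (permE p w r).range := ⟨_, rfl⟩
  have hsh : (Sum.inl (i, t) : Pt p w r) ∈ (sh p w r i).support := by
    rw [Perm.mem_support]
    refine (permE_ne p w r _ _).mpr ⟨i, t, rfl, ?_⟩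
    rw [toAdd_ofAdd, Pi.single_eq_same]
    exact one_ne_zero
  have h2 := pcycle_sub p Q0 hQ (sh p w r i) c (hE hshE) hc s1 s2 hc1 hc2 _ hsh hit
  exact (Subgroup.zpowers_le.mpr hshE) h2

theorem sylow_conj (p : ℕ) [Fact p.Prime] (w r : ℕ) (hr : r < p)
    (Q : Sylow p (Perm (Pt p w r))) :
    ∃ g : Perm (Pt p w r), ∀ s ∈ Subgroup.normalizer (Q : Set (Perm (Pt p w r))),
      g⁻¹ * s * g ∈ (permL p w r).range := by
  classical
  have hEp : IsPGroup p (permE p w r).range := by
    rintro ⟨y, e, rfl⟩
    refine ⟨1, Subtype.ext ?_⟩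
    change (permE p w r e) ^ p ^ 1 = 1
    rw [pow_one, ← map_pow]
    have h1 : e ^ p = 1 := by
      apply Multiplicative.toAdd.injective
      change p • Multiplicative.toAdd e = 0
      funext i
      rw [Pi.smul_apply, nsmul_eq_mul, CharP.cast_eq_zero, zero_mul]
      rfl
    rw [h1, map_one]
  obtain ⟨Q0, hQ0⟩ := hEp.exists_le_sylow
  obtain ⟨g, hg⟩ := MulAction.exists_smul_eq (Perm (Pt p w r)) Q0 Q
  have hmem : ∀ x, x ∈ Q0 ↔ g * x * g⁻¹ ∈ Q := by
    intro x
    rw [← hg]
    change x ∈ (Q0 : Subgroup (Perm (Pt p w r))) ↔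
      g * x * g⁻¹ ∈ ((g • Q0 : Sylow p (Perm (Pt p w r))) : Subgroup (Perm (Pt p w r)))
    rw [Sylow.coe_subgroup_smul]
    have h2 : g * x * g⁻¹ = MulAut.conj g • x := rfl
    rw [h2, Subgroup.smul_mem_pointwise_smul_iff]
  refine ⟨g, fun s hs => ?_⟩
  apply mem_of_conj
  intro i
  have hshE : sh p w r i ∈ (permE p w r).range := ⟨_, rfl⟩
  obtain ⟨s1, s2⟩ := sh_cycle p w r i
  refine pcycle_syl p w r hr Q0 Q0.2 hQ0 _ ?_ s1.conj ?_
  · apply (hmem _).mpr
    have h3 := (hmem _).mp (hQ0 hshE)
    have h4 := (Subgroup.mem_normalizer_iff (H := (Q : Subgroup (Perm (Pt p w r))))).mp hs _ |>.mp h3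
    have h5 : g * (g⁻¹ * s * g * sh p w r i * (g⁻¹ * s * g)⁻¹) * g⁻¹ =
        s * (g * sh p w r i * g⁻¹) * s⁻¹ := by group
    rw [h5]
    exact h4
  · rw [Perm.card_support_conj]
    exact s2

end Pool.Agent.Helper57.AN
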