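import Pool.Agent.Helper57.AN.AutK
import Pool.Agent.Helper57.AN.SylA
import Pool.Agent.Helper57.AN.GoodStd

/-!
# AN-G14 StdT: the standard subgroup `T = π⁻¹ (range permL)` of a cover

`3 ≤ p`, `2 ≤ w`, `r < p`, `8 ≤ p w + r` (`Fintype.card (Pt p w r) = w p + r`), `h : Cov π`, `TT π = (permL p w r).range.comap π`.

`tt_ne_top`: otherwise the alternating group (`= π.range`) would be contained in the range of `permL`: `alt_not_le`.
`exists_odd`: `range_not_le`.
`exists_syl`: there is a Sylow subgroup `Q` of `K` with `N(Q) ≤ TT π` such that all automorphisms which stabilize `Q` stabilize `TT π`. PROOF. Let `Q1` be any Sylow subgroup of `K`, `P1 = π(Q1)` (a `p`-group), `P2 ≥ P1` a Sylow subgroup of `Perm (Pt p w r)`. `P2 ≤` alternating group (`p` odd: the sign of an element of odd order is `1`), so `P2 ≤ π(K)`;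
`P1 = P2`: `|K| = |π.ker| * |A|`, the index of `π(Q1)` in `A = π.range` divides the index of `Q1` (`Subgroup.index_map`...), which is prime to `p`, and `P1 ≤ P2 ≤ A` with `P2` a `p`-group: `[P2 : P1]` is a power of `p` dividing `[A : P1]`, so `1`. Let `g` be as in `sylow_conj` for `P2`. We may assume that `g` is even: otherwise replace `g` by `g l` with `l` an odd element of the range of `permL` (`exists_odd`).
`g = π k`. `Q = k⁻¹ Q1 k` (as a Sylow subgroup: `k⁻¹ • Q1`). If `x ∈ N(Q)`: `k x k⁻¹ ∈ N(Q1)`, so `g π(x) g⁻¹ ∈ N(P2)`, so `π x = g⁻¹ (g π(x) g⁻¹) g ∈ range permL`. If `β` stabilizes `Q`: let `s` be as in `aut_ind`: `s` normalizes `π(Q) = g⁻¹ P2 g`, so `g s g⁻¹ ∈ N(P2)`, `s ∈ range permL`, hence `π (β x) = s π(x) s⁻¹ ∈ range ↔ π x ∈ range`.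
`good_of_std`: `good_of_dat` with this `Q`.

`exists_alpha`: `s0 = permL l` odd (`exists_odd`), `α` from `exists_aut`. `α` stabilizes `TT π`. `s0 ^ 2` is even, so `s0 ^ 2 = π t`, `t ∈ TT π`, and `α * α = conj t` by `aut_ext`.
`stab_cases`: `β` stabilizes `TT π`; `s` from `aut_ind`. For `x ∈ range permL ⊓ A`, `x = π y`, `y ∈ TT π`, `β y ∈ TT π`, so `s x s⁻¹ ∈ range permL`. `norm_even`: `s ∈ range permL`. If `s` is even, `s = π t`, `t ∈ TT π`, `β = conj t` (`aut_ext`). If `s` is odd, `s0⁻¹ s` is even and in the range, `= π t`, and `β = α * conj t` (`aut_ext`).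
-/

set_option autoImplicit false

open Equiv

namespace Pool.Agent.Helper57.AN

open Pool.Agent.Helper42.INC Pool.Agent.Helper7.MK Pool.Agent.Helper81.AN

variable {p w r : ℕ} [Fact p.Prime]

/-- the standard subgroup -/
def TT {K : Type} [Group K] (π : K →* Perm (Pt p w r)) : Subgroup K := (permL p w r).range.comap π

private theorem card_pt : Fintype.card (Pt p w r) = p * w + r := by
  rw [Fintype.card_sum, Fintype.card_prod, Fintype.card_fin, Fintype.card_fin, ZMod.card,
    mul_comm]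

private theorem h8' (h8 : 8 ≤ p * w + r) : 8 ≤ Fintype.card (Pt p w r) := by
  rw [card_pt]
  exact h8

theorem tt_ne_top (h3 : 3 ≤ p) (hw : 2 ≤ w) (hr : r < p) {K : Type} [Group K]
    {π : K →* Perm (Pt p w r)} (h : Cov π) : TT π ≠ ⊤ := by
  intro ht
  apply alt_not_le p w r hw
  rw [← h.range]
  rintro _ ⟨x, rfl⟩
  have h1 : x ∈ TT π := by rw [ht]; trivial
  exact h1

theorem exists_odd (h3 : 3 ≤ p) (hw : 2 ≤ w) : ∃ l : LL p w r, Perm.sign (permL p w r l) = -1 := by
  by_contra hc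
  push Not at hc
  apply range_not_le p h3 w r hw
  rintro _ ⟨l, rfl⟩
  rw [Perm.mem_alternatingGroup]
  exact (Int.units_eq_one_or _).resolve_right (hc l)

private theorem mem_norm {G : Type} [Group G] (P : Subgroup G) (s : G)
    (h1 : ∀ n ∈ P, s * n * s⁻¹ ∈ P) (h2 : ∀ n ∈ P, s⁻¹ * n * s ∈ P) :
    s ∈ Subgroup.normalizer (P : Set G) := by
  rw [Subgroup.mem_normalizer_iff]
  intro n
  refine ⟨fun hn => h1 n hn, fun hn => ?_⟩
  have h3 := h2 _ hn
  have h4 : s⁻¹ * (s * n * s⁻¹) * s = n := by group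
  rwa [h4] at h3

theorem exists_syl (h3 : 3 ≤ p) (hw : 2 ≤ w) (hr : r < p) (h8 : 8 ≤ p * w + r)
    {K : Type} [Group K] [Finite K] {π : K →* Perm (Pt p w r)} (h : Cov π) :
    ∃ Q : Sylow p K, Subgroup.normalizer (Q : Set K) ≤ TT π ∧
      ∀ β : MulAut K, (∀ x, β x ∈ Q ↔ x ∈ Q) → ∀ x, β x ∈ TT π ↔ x ∈ TT π := by
  obtain ⟨Q1⟩ : Nonempty (Sylow p K) := inferInstance
  have hP1 : IsPGroup p ((Q1 : Subgroup K).map π) := Q1.isPGroup'.map π
  obtain ⟨P2, hP2⟩ := hP1.exists_le_sylow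
  -- `P2` consists of even permutations
  have hA : (P2 : Subgroup (Perm (Pt p w r))) ≤ alternatingGroup (Pt p w r) := by
    intro x hx
    rw [Perm.mem_alternatingGroup]
    obtain ⟨k, hk⟩ := P2.isPGroup' ⟨x, hx⟩
    have h1 : x ^ p ^ k = 1 := congrArg Subtype.val hk
    have h2 : Perm.sign x ^ p ^ k = 1 := by rw [← map_pow, h1, map_one]
    rcases Int.units_eq_one_or (Perm.sign x) with h4 | h4
    · exact h4
    · exfalso
      have hodd : Odd (p ^ k) := by
        apply Odd.pow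
        exact (Fact.out : p.Prime).odd_of_ne_two (by omega)
      rw [h4, hodd.neg_one_pow] at h2
      exact absurd h2 (by decide)
  have hidx : ((Q1 : Subgroup K).map π).relIndex (alternatingGroup (Pt p w r)) ∣
      (Q1 : Subgroup K).index := by
    have e1 := Subgroup.index_map (Q1 : Subgroup K) π
    have e2 : ((Q1 : Subgroup K).map π).relIndex π.range * π.range.index =
        ((Q1 : Subgroup K).map π).index :=
      Subgroup.relIndex_mul_index (Subgroup.map_le_range π _)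
    rw [e1] at e2
    have e3 : 0 < π.range.index := Nat.pos_of_ne_zero Subgroup.index_ne_zero_of_finite
    have e4 := Nat.eq_of_mul_eq_mul_right e3 e2
    rw [h.range] at e4
    rw [e4]
    exact Subgroup.index_dvd_of_le le_sup_left
  have hP : (P2 : Subgroup (Perm (Pt p w r))) ≤ (Q1 : Subgroup K).map π := by
    have e1 := Subgroup.relIndex_mul_relIndex ((Q1 : Subgroup K).map π)
      (P2 : Subgroup (Perm (Pt p w r))) (alternatingGroup (Pt p w r)) hP2 hA
    obtain ⟨n, hn⟩ := P2.isPGroup'.index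
      (((Q1 : Subgroup K).map π).subgroupOf (P2 : Subgroup (Perm (Pt p w r))))
    have hn0 : n = 0 := by
      by_contra hne
      apply Q1.not_dvd_index
      refine dvd_trans ?_ hidx
      rw [← e1]
      apply Dvd.dvd.mul_right
      change p ∣ (((Q1 : Subgroup K).map π).subgroupOf (P2 : Subgroup (Perm (Pt p w r)))).index
      rw [hn]
      exact dvd_pow_self p hne
    rw [hn0, pow_zero, Subgroup.index_eq_one, Subgroup.subgroupOf_eq_top] at hn
    exact hn
  have hPeq : (P2 : Subgroup (Perm (Pt p w r))) = (Q1 : Subgroup K).map π := le_antisymm hP hP2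
  -- the conjugating element
  obtain ⟨g0, hg0⟩ := sylow_conj p w r hr P2
  obtain ⟨g, hgs, hg⟩ : ∃ g : Perm (Pt p w r), Perm.sign g = 1 ∧
      ∀ s ∈ Subgroup.normalizer (P2 : Set (Perm (Pt p w r))), g⁻¹ * s * g ∈ (permL p w r).range := by
    rcases Int.units_eq_one_or (Perm.sign g0) with h4 | h4
    · exact ⟨g0, h4, hg0⟩
    · obtain ⟨l, hl⟩ := exists_odd (p := p) (w := w) (r := r) h3 hw
      refine ⟨g0 * permL p w r l, ?_, ?_⟩
      · rw [map_mul, h4, hl]
        rfl
      · intro s hs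
        have h5 : (g0 * permL p w r l)⁻¹ * s * (g0 * permL p w r l) =
            (permL p w r l)⁻¹ * (g0⁻¹ * s * g0) * permL p w r l := by group
        rw [h5]
        exact mul_mem (mul_mem (inv_mem ⟨l, rfl⟩) (hg0 s hs)) ⟨l, rfl⟩
  have hgr : g ∈ π.range := by
    rw [h.range, Perm.mem_alternatingGroup]
    exact hgs
  obtain ⟨k, rfl⟩ := hgr
  have hmem : ∀ x, x ∈ (k⁻¹ • Q1 : Sylow p K) ↔ k * x * k⁻¹ ∈ Q1 := by
    intro x
    change x ∈ ((k⁻¹ • Q1 : Sylow p K) : Subgroup K) ↔ _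
    rw [Sylow.coe_subgroup_smul, Subgroup.mem_pointwise_smul_iff_inv_smul_mem, ← map_inv, inv_inv]
    rfl
  refine ⟨k⁻¹ • Q1, ?_, ?_⟩
  · intro x hx
    replace hx : ∀ y, y ∈ (k⁻¹ • Q1 : Sylow p K) ↔ x * y * x⁻¹ ∈ (k⁻¹ • Q1 : Sylow p K) :=
      (Subgroup.mem_normalizer_iff (H := ((k⁻¹ • Q1 : Sylow p K) : Subgroup K))).1 hx
    have h1 : ∀ y ∈ (Q1 : Subgroup K), (k * x * k⁻¹) * y * (k * x * k⁻¹)⁻¹ ∈ (Q1 : Subgroup K) := by
      intro y hy
      have h4 : k⁻¹ * y * k ∈ (k⁻¹ • Q1 : Sylow p K) := by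
        rw [hmem]
        have : k * (k⁻¹ * y * k) * k⁻¹ = y := by group
        rw [this]
        exact hy
      have h5 := (hx _).1 h4
      have h6 := (hmem _).1 h5
      have : k * (x * (k⁻¹ * y * k) * x⁻¹) * k⁻¹ = (k * x * k⁻¹) * y * (k * x * k⁻¹)⁻¹ := by group
      rw [this] at h6
      exact h6
    have h2 : ∀ y ∈ (Q1 : Subgroup K), (k * x * k⁻¹)⁻¹ * y * (k * x * k⁻¹) ∈ (Q1 : Subgroup K) := by
      intro y hy
      have h4 : k⁻¹ * y * k ∈ (k⁻¹ • Q1 : Sylow p K) := by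
        rw [hmem]
        have : k * (k⁻¹ * y * k) * k⁻¹ = y := by group
        rw [this]
        exact hy
      have h5 : x⁻¹ * (k⁻¹ * y * k) * x ∈ (k⁻¹ • Q1 : Sylow p K) := by
        apply (hx _).2
        have : x * (x⁻¹ * (k⁻¹ * y * k) * x) * x⁻¹ = k⁻¹ * y * k := by group
        rw [this]
        exact h4
      have h6 := (hmem _).1 h5
      have : k * (x⁻¹ * (k⁻¹ * y * k) * x) * k⁻¹ = (k * x * k⁻¹)⁻¹ * y * (k * x * k⁻¹) := by group
      rw [this] at h6
      exact h6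
    have h3' : π (k * x * k⁻¹) ∈ Subgroup.normalizer (P2 : Set (Perm (Pt p w r))) := by
      refine mem_norm (P2 : Subgroup (Perm (Pt p w r))) _ ?_ ?_
      · intro n hn
        rw [hPeq] at hn ⊢
        obtain ⟨y, hy, rfl⟩ := hn
        exact ⟨_, h1 y hy, by simp⟩
      · intro n hn
        rw [hPeq] at hn ⊢
        obtain ⟨y, hy, rfl⟩ := hn
        exact ⟨_, h2 y hy, by simp⟩
    have h4 := hg _ h3'
    have h5 : (π k)⁻¹ * π (k * x * k⁻¹) * π k = π x := by
      rw [map_mul, map_mul, map_inv]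
      group
    rw [h5] at h4
    exact h4
  · intro β hβ
    obtain ⟨s, hs⟩ := aut_ind h (h8' h8) β
    have hs' : ∀ x, π (β⁻¹ x) = s⁻¹ * π x * s := by
      intro x
      have h4 := hs (β⁻¹ x)
      rw [MulAut.apply_inv_self] at h4
      rw [h4]
      group
    have h1 : ∀ n ∈ (P2 : Subgroup (Perm (Pt p w r))),
        (π k * s * (π k)⁻¹) * n * (π k * s * (π k)⁻¹)⁻¹ ∈ (P2 : Subgroup (Perm (Pt p w r))) := by
      intro n hn
      rw [hPeq] at hn ⊢
      obtain ⟨y, hy, rfl⟩ := hn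
      have h4 : k⁻¹ * y * k ∈ (k⁻¹ • Q1 : Sylow p K) := by
        rw [hmem]
        have : k * (k⁻¹ * y * k) * k⁻¹ = y := by group
        rw [this]
        exact hy
      have h5 := (hmem _).1 ((hβ _).2 h4)
      refine ⟨_, h5, ?_⟩
      rw [map_mul, map_mul, hs, map_mul, map_mul, map_inv]
      group
    have h2 : ∀ n ∈ (P2 : Subgroup (Perm (Pt p w r))),
        (π k * s * (π k)⁻¹)⁻¹ * n * (π k * s * (π k)⁻¹) ∈ (P2 : Subgroup (Perm (Pt p w r))) := by
      intro n hn
      rw [hPeq] at hn ⊢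
      obtain ⟨y, hy, rfl⟩ := hn
      have h4 : k⁻¹ * y * k ∈ (k⁻¹ • Q1 : Sylow p K) := by
        rw [hmem]
        have : k * (k⁻¹ * y * k) * k⁻¹ = y := by group
        rw [this]
        exact hy
      have h4' : β⁻¹ (k⁻¹ * y * k) ∈ (k⁻¹ • Q1 : Sylow p K) := by
        rw [← hβ, MulAut.apply_inv_self]
        exact h4
      have h5 := (hmem _).1 h4'
      refine ⟨_, h5, ?_⟩
      rw [map_mul, map_mul, hs', map_mul, map_mul, map_inv]
      group
    have h4 := hg _ (mem_norm _ _ h1 h2)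
    have h5 : (π k)⁻¹ * (π k * s * (π k)⁻¹) * π k = s := by group
    rw [h5] at h4
    intro x
    change π (β x) ∈ (permL p w r).range ↔ π x ∈ (permL p w r).range
    rw [hs]
    constructor
    · intro h6
      have h7 := mul_mem (mul_mem (inv_mem h4) h6) h4
      have h9 : s⁻¹ * (s * π x * s⁻¹) * s = π x := by group
      rwa [h9] at h7
    · intro h6
      exact mul_mem (mul_mem h4 h6) (inv_mem h4)

/-- (G4) `Good` from the data for the standard subgroup -/
theorem good_of_std (h3 : 3 ≤ p) (hw : 2 ≤ w) (hr : r < p) (h8 : 8 ≤ p * w + r)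
    {K : Type} [Group K] [Finite K] {π : K →* Perm (Pt p w r)} (h : Cov π)
    (hd : Dat p K (TT π)) : Good p K := by
  obtain ⟨Q, hQ1, hQ2⟩ := exists_syl h3 hw hr h8 h
  exact good_of_dat hd (tt_ne_top h3 hw hr h) Q hQ1 hQ2

omit [Fact p.Prime] in
private theorem conj_range (l : LL p w r) (y : Perm (Pt p w r)) :
    permL p w r l * y * (permL p w r l)⁻¹ ∈ (permL p w r).range ↔ y ∈ (permL p w r).range := by
  constructor
  · intro h
    have h1 := mul_mem (mul_mem (inv_mem (⟨l, rfl⟩ : permL p w r l ∈ (permL p w r).range)) h)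
      (⟨l, rfl⟩ : permL p w r l ∈ (permL p w r).range)
    have h2 : (permL p w r l)⁻¹ * (permL p w r l * y * (permL p w r l)⁻¹) * permL p w r l = y := by
      group
    rwa [h2] at h1
  · intro h
    exact mul_mem (mul_mem ⟨l, rfl⟩ h) (inv_mem ⟨l, rfl⟩)

/-- an outer automorphism which stabilizes the standard subgroup -/
theorem exists_alpha (h3 : 3 ≤ p) (hw : 2 ≤ w) (h8 : 8 ≤ p * w + r)
    {K : Type} [Group K] [Finite K] {π : K →* Perm (Pt p w r)} (h : Cov π) :
    ∃ (l : LL p w r) (α : MulAut K), Perm.sign (permL p w r l) = -1 ∧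
      (∀ x, π (α x) = permL p w r l * π x * (permL p w r l)⁻¹) ∧
      (∀ x, α x ∈ TT π ↔ x ∈ TT π) ∧ ∃ t ∈ TT π, α * α = MulAut.conj t := by
  obtain ⟨l, hl⟩ := exists_odd (p := p) (w := w) (r := r) h3 hw
  obtain ⟨α, hα⟩ := exists_aut h (h8' h8) (permL p w r l)
  refine ⟨l, α, hl, hα, ?_, ?_⟩
  · intro x
    change π (α x) ∈ (permL p w r).range ↔ π x ∈ (permL p w r).range
    rw [hα, conj_range]
  · have h1 : permL p w r l * permL p w r l ∈ π.range := by
      rw [h.range, Perm.mem_alternatingGroup, map_mul, hl]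
      rfl
    obtain ⟨t, ht⟩ := h1
    refine ⟨t, ?_, ?_⟩
    · change π t ∈ (permL p w r).range
      rw [ht]
      exact mul_mem ⟨l, rfl⟩ ⟨l, rfl⟩
    · apply aut_ext h
      intro x
      rw [MulAut.mul_apply, hα, hα, MulAut.conj_apply, map_mul, map_mul, map_inv, ht]
      group

/-- the stabilizer of the standard subgroup -/
theorem stab_cases (h3 : 3 ≤ p) (hw : 2 ≤ w) (hr : r < p) (h8 : 8 ≤ p * w + r)
    {K : Type} [Group K] [Finite K] {π : K →* Perm (Pt p w r)} (h : Cov π)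
    (l : LL p w r) (α : MulAut K) (hl : Perm.sign (permL p w r l) = -1)
    (hα : ∀ x, π (α x) = permL p w r l * π x * (permL p w r l)⁻¹) (β : MulAut K)
    (hβ : ∀ x, β x ∈ TT π ↔ x ∈ TT π) :
    ∃ t ∈ TT π, β = MulAut.conj t ∨ β = α * MulAut.conj t := by
  obtain ⟨s, hs⟩ := aut_ind h (h8' h8) β
  have h1 : s ∈ (permL p w r).range := by
    apply norm_even p h3 w r hr
    rintro x ⟨hx1, hx2⟩
    have hx3 : x ∈ π.range := by rw [h.range]; exact hx2
    obtain ⟨y, rfl⟩ := hx3
    rw [← hs]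
    exact (hβ y).2 hx1
  rcases Int.units_eq_one_or (Perm.sign s) with h4 | h4
  · have h5 : s ∈ π.range := by
      rw [h.range, Perm.mem_alternatingGroup]
      exact h4
    obtain ⟨t, rfl⟩ := h5
    refine ⟨t, h1, Or.inl ?_⟩
    apply aut_ext h
    intro x
    rw [hs, MulAut.conj_apply, map_mul, map_mul, map_inv]
  · have h5 : (permL p w r l)⁻¹ * s ∈ π.range := by
      rw [h.range, Perm.mem_alternatingGroup, map_mul, map_inv, hl, h4]
      rfl
    obtain ⟨t, ht⟩ := h5
    refine ⟨t, ?_, Or.inr ?_⟩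
    · change π t ∈ (permL p w r).range
      rw [ht]
      exact mul_mem (inv_mem ⟨l, rfl⟩) h1
    · apply aut_ext h
      intro x
      rw [hs, MulAut.mul_apply, hα, MulAut.conj_apply, map_mul, map_mul, map_inv, ht]
      group

end Pool.Agent.Helper57.AN
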